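import Pool.Agent.Work.MP_efd9e3_ag.Gp.VSwap

/-! MODULE VMin (MP_efd9e3_ag/Gp), helper69.  A minimal cone form which divides its derivative up to a polynomial in the
centre is invariant. -/

set_option autoImplicit false

open MvPolynomial

namespace Geproci

variable {K : Type*} [Field K] {N α a γ : ℕ} {ι : Type*}

/-- a polynomial family of forms of degree `a` on the quotients by the centre, vanishing at the given points -/
structure CF (α a : ℕ) (z : ι → Fin N → K) (F : MvPolynomial (Fin N ⊕ Fin N) K) : Prop where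
  ne : F ≠ 0
  hom : BiH α a F
  inv : Epr F = 0
  van : ∀ i, xp (z i) F = 0

theorem v_min [Infinite K] (z : ι → Fin N → K) (F : MvPolynomial (Fin N ⊕ Fin N) K) (h : CF α a z F)
    (hmin : ∀ (α' : ℕ) (F' : MvPolynomial (Fin N ⊕ Fin N) K), CF α' a z F' → α ≤ α')
    (H L : MvPolynomial (Fin N ⊕ Fin N) K) (hH0 : H ≠ 0) (hH : BiH γ 0 H) (hHL : H * Eop F = L * F) :
    Eop F = 0 := by
  classical
  by_contra hE
  obtain ⟨F1, E1, c, hrel, hF, hEE⟩ := UniqueFactorizationMonoid.exists_reduced_factors F h.ne (Eop F)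
  have hc0 : c ≠ 0 := by
    rintro rfl
    rw [zero_mul] at hF
    exact h.ne hF.symm
  have hF10 : F1 ≠ 0 := by
    rintro rfl
    rw [mul_zero] at hF
    exact h.ne hF.symm
  have h1 : H * E1 = L * F1 := by
    apply mul_left_cancel₀ hc0
    rw [← hEE] at hHL
    rw [← mul_assoc, ← mul_assoc, mul_comm c H, mul_comm c L, mul_assoc, hHL, mul_assoc, hF]
  have h2 : F1 ∣ H * E1 := ⟨L, by rw [h1, mul_comm]⟩
  have h3 : F1 ∣ H := hrel.dvd_of_dvd_mul_right h2
  obtain ⟨H1, hH1⟩ := h3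
  have hH10 : H1 ≠ 0 := by
    rintro rfl
    rw [mul_zero] at hH1
    exact hH0 hH1
  obtain ⟨α₁, β₁, α₂, β₂, hb1, -, -, hβ⟩ := bi_mul F1 H1 (by rw [← hH1]; exact hH) hF10 hH10
  have hβ1 : β₁ = 0 := by omega
  subst hβ1
  obtain ⟨α₃, β₃, α₄, β₄, hb3, hb4, hα34, hβ34⟩ := bi_mul c F1 (by rw [hF]; exact h.hom) hc0 hF10
  have e1 : α₄ = α₁ := wh_uniq _ _ _ _ hF10 hb4.1 hb1.1
  have e2 : β₄ = 0 := wh_uniq _ _ _ _ hF10 hb4.2 hb1.2
  -- the cofactor is again a family of cone forms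
  have hEF1 : Epr F1 = 0 := by
    unfold Epr
    exact Finset.sum_eq_zero fun k _ => by rw [hb1.inr_zero, mul_zero]
  have hEc : Epr c = 0 := by
    have e3 : Epr F = Epr c * F1 + c * Epr F1 := by
      rw [← hF]
      unfold Epr
      rw [Finset.sum_mul, Finset.mul_sum, ← Finset.sum_add_distrib]
      refine Finset.sum_congr rfl fun k _ => ?_
      rw [Derivation.leibniz, smul_eq_mul, smul_eq_mul]
      ring
    rw [h.inv, hEF1, mul_zero, add_zero] at e3
    exact (mul_eq_zero.1 e3.symm).resolve_right hF10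
  have hvan : ∀ i, xp (z i) c = 0 := by
    intro i
    have e3 := h.van i
    rw [← hF, map_mul] at e3
    refine (mul_eq_zero.1 e3).resolve_right fun e4 => hF10 ?_
    apply bev_ext
    intro p x
    have e5 := hb1.bev 1 0 p x
    have e6 := hb1.bev 1 0 p (z i)
    have e7 : bev p (z i) F1 = 0 := by rw [← eval_xp, e4, map_zero]
    simp only [one_mul, zero_mul, one_pow, pow_zero] at e5 e6
    rw [← e5, e6, e7, bev, map_zero]
  have hm := hmin α₃ c ⟨hc0, ⟨hb3.1, by rw [← hβ34, e2, add_zero]; exact hb3.2⟩, hEc, hvan⟩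
  have hα1 : α₁ = 0 := by omega
  subst hα1
  -- the cofactor is a constant
  obtain ⟨k, hk⟩ : ∃ k : K, F1 = C k := by
    refine ⟨bev 0 0 F1, ?_⟩
    apply bev_ext
    intro p x
    have e5 := hb1.bev 0 0 p x
    simp only [zero_mul, pow_zero, one_mul] at e5
    rw [← e5]
    unfold bev
    rw [eval_C]
    rfl
  have hk0 : k ≠ 0 := by
    rintro rfl
    rw [C_0] at hk
    exact hF10 hk
  have hEF : F * (C k⁻¹ * E1) = Eop F := by
    have e3 : (C k : MvPolynomial (Fin N ⊕ Fin N) K) * C k⁻¹ = 1 := by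
      rw [← C_mul, mul_inv_cancel₀ hk0, C_1]
    have e4 : c * (C k) = F := by rw [← hk, hF]
    rw [← hEE, ← e4]
    linear_combination (c * E1) * e3
  rcases Nat.eq_zero_or_pos α with hα | hα
  · subst hα
    apply hE
    unfold Eop
    exact Finset.sum_eq_zero fun k _ => by rw [h.hom.inl_zero, mul_zero]
  · obtain ⟨α', rfl⟩ : ∃ α', α = α' + 1 := ⟨α - 1, by omega⟩
    have e4 : C k⁻¹ * E1 ≠ 0 := by
      intro e5
      rw [e5, mul_zero] at hEF
      exact hE hEF.symm
    obtain ⟨α₅, β₅, α₆, β₆, hb5, -, hα56, -⟩ := bi_mul F (C k⁻¹ * E1)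
      (by rw [hEF]; exact eop_hom h.hom) h.ne e4
    have e5 := wh_uniq _ _ _ _ h.ne hb5.1 h.hom.1
    omega

end Geproci
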