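import Pool.Agent.Work.MP_efd9e3_ag.Defs
import Pool.Agent.Work.MP_efd9e3_ag.Gp.VMin

/-! MODULE VDesc (MP_efd9e3_ag/Gp), helper69.  The derivative of the cone form is a multiple of the cone form, for a
general centre. -/

set_option autoImplicit false

open MvPolynomial

namespace Geproci

variable {K : Type*} [Field K] {n α a : ℕ} {ι : Type*}

/-- the inclusion of the hyperplane on which the last coordinate vanishes -/
def inc : (Fin n → K) →ₗ[K] (Fin (n+1) → K) where
  toFun y := Fin.snoc y 0
  map_add' v w := by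
    funext i
    refine Fin.lastCases ?_ (fun j => ?_) i
    · simp
    · simp
  map_smul' c v := by
    funext i
    refine Fin.lastCases ?_ (fun j => ?_) i
    · simp
    · simp

theorem inc_proj (p x : Fin (n+1) → K) :
    inc (proj p x) = fun k => p (Fin.last n) * x k + (- x (Fin.last n)) * p k := by
  funext i
  refine Fin.lastCases ?_ (fun j => ?_) i
  · change (Fin.snoc (proj p x) 0 : Fin (n+1) → K) (Fin.last n) = _
    rw [Fin.snoc_last]
    ring
  · change (Fin.snoc (proj p x) 0 : Fin (n+1) → K) j.castSucc = _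
    rw [Fin.snoc_castSucc, proj]
    ring

theorem dirP_inv [CharZero K] {M : ℕ} (p x : Fin M → K) (G : MvPolynomial (Fin M) K)
    (h : dirP p G = 0) (t : K) : eval (fun k => x k + t * p k) G = eval x G := by
  have h1 : Polynomial.derivative (line x p G) = 0 := by
    rw [derivative_line, h, map_zero]
  have h2 := Polynomial.derivative_eq_zero.1 h1
  rw [Polynomial.natDegree_eq_zero] at h2
  obtain ⟨c, hc⟩ := h2
  have h3 := eval_line x p G t
  have h4 := eval_line x p G 0
  rw [← hc, Polynomial.eval_C] at h3 h4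
  simp only [zero_mul, add_zero] at h4
  rw [← h3, ← h4]

theorem desc [CharZero K] (G : MvPolynomial (Fin (n+1)) K) (t : ℕ) (hG : G.IsHomogeneous t)
    (p : Fin (n+1) → K) (hinv : dirP p G = 0) (x : Fin (n+1) → K) :
    eval (proj p x) (compL inc G) = p (Fin.last n) ^ t * eval x G := by
  rw [eval_compL, inc_proj, dirP_inv p (fun k => p (Fin.last n) * x k) G hinv, eval_smul_hom hG]

theorem v_desc [CharZero K] (z : ι → Fin (n+1) → K) (p : Fin (n+1) → K) (hp : p (Fin.last n) ≠ 0)
    (hker : ∀ q q' : MvPolynomial (Fin n) K, q.IsHomogeneous (a+1) → q'.IsHomogeneous a → q' ≠ 0 →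
      (∀ i, eval (proj p (z i)) q = 0) → (∀ i, eval (proj p (z i)) q' = 0) →
      ∃ L : Fin n → K, q = linf L * q')
    (F : MvPolynomial (Fin (n+1) ⊕ Fin (n+1)) K) (hF : CF α a z F) (hx : ∃ x, bev p x F ≠ 0) :
    ∃ φ : (Fin (n+1) → K) →ₗ[K] K, ∀ x, bev p x (Eop F) = φ x * bev p x F := by
  classical
  have hinf : Infinite K := inferInstance
  rcases Nat.eq_zero_or_pos α with hα | hα
  · subst hα
    refine ⟨0, fun x => ?_⟩
    have h1 : Eop F = 0 := by
      unfold Eop
      exact Finset.sum_eq_zero fun k _ => by rw [hF.hom.inl_zero, mul_zero]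
    rw [h1, bev, map_zero, LinearMap.zero_apply, zero_mul]
  obtain ⟨α', rfl⟩ : ∃ α', α = α' + 1 := ⟨α - 1, by omega⟩
  set e : K := ((α' + 1 : ℕ) : K) - (a : K) with he
  set G : MvPolynomial (Fin (n+1)) K := C (p (Fin.last n)) * yp p (Eop F) -
    C e * (X (Fin.last n) * yp p F) with hG
  have hyF : (yp p F).IsHomogeneous a := yp_hom hF.hom p
  have hyE : (yp p (Eop F)).IsHomogeneous (a+1) := yp_hom (eop_hom hF.hom) p
  have hGh : G.IsHomogeneous (a+1) := by
    apply IsHomogeneous.sub
    · have := (isHomogeneous_C (Fin (n+1)) (p (Fin.last n))).mul hyE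
      rwa [zero_add] at this
    · have h1 := (isHomogeneous_X K (Fin.last n)).mul hyF
      have := (isHomogeneous_C (Fin (n+1)) e).mul h1
      rwa [zero_add, add_comm 1 a] at this
  have hGi : dirP p G = 0 := by
    have h1 : dirP p (yp p F) = 0 := by rw [dirP_yp, hF.inv, map_zero]
    have h2 : dirP p (yp p (Eop F)) = C e * yp p F := by
      rw [dirP_yp, epr_eop hF.hom hF.inv, map_sub, map_mul, map_mul, map_natCast, map_natCast, he,
        C_sub, ← map_natCast C, ← map_natCast C]
      ring
    have h3 : G = C (p (Fin.last n)) * yp p (Eop F) + (C (-e)) * (X (Fin.last n) * yp p F) := by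
      rw [hG, C_neg]
      ring
    rw [h3, dirP_add, dirP_C_mul, dirP_C_mul, dirP_mul, dirP_X, h1, h2, C_neg]
    ring
  have hGe : ∀ x, eval x G = p (Fin.last n) * bev p x (Eop F) - e * (x (Fin.last n) * bev p x F) := by
    intro x
    rw [hG, map_sub, map_mul, map_mul, map_mul, eval_C, eval_C, eval_X, eval_yp, eval_yp]
  have hFz : ∀ i, bev p (z i) F = 0 := fun i => by rw [← eval_xp, hF.van, map_zero]
  have hEz : ∀ i, bev p (z i) (Eop F) = 0 := fun i => by rw [← eval_xp, eop_van _ (hF.van i), map_zero]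
  have hFd : ∀ x, eval (proj p x) (compL inc (yp p F)) = p (Fin.last n) ^ a * bev p x F := by
    intro x
    rw [desc (yp p F) a hyF p (by rw [dirP_yp, hF.inv, map_zero]), eval_yp]
  have hGd : ∀ x, eval (proj p x) (compL inc G) = p (Fin.last n) ^ (a+1) * eval x G :=
    fun x => desc G (a+1) hGh p hGi x
  obtain ⟨x₀, hx₀⟩ := hx
  obtain ⟨L, hL⟩ := hker (compL inc G) (compL inc (yp p F)) (compL_hom _ _ _ hGh) (compL_hom _ _ _ hyF)
    (by
      intro h0
      have h1 := hFd x₀
      rw [h0, map_zero] at h1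
      exact mul_ne_zero (pow_ne_zero _ hp) hx₀ h1.symm)
    (fun i => by rw [hGd, hGe, hFz, hEz]; ring)
    (fun i => by rw [hFd, hFz, mul_zero])
  -- the linear form
  let proj' : (Fin (n+1) → K) →ₗ[K] (Fin n → K) :=
    { toFun := proj p
      map_add' := fun v w => by
        funext i
        simp only [proj, Pi.add_apply]
        ring
      map_smul' := fun c v => by
        funext i
        simp only [proj, Pi.smul_apply, smul_eq_mul, RingHom.id_apply]
        ring }
  let Lm : (Fin n → K) →ₗ[K] K := ∑ k, L k • LinearMap.proj k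
  have hLm : ∀ y, Lm y = ∑ k, L k * y k := by
    intro y
    simp [Lm, LinearMap.sum_apply]
  let T : (Fin (n+1) → K) →ₗ[K] K :=
    Lm.comp proj' + (e * p (Fin.last n)) • (LinearMap.proj (Fin.last n) : (Fin (n+1) → K) →ₗ[K] K)
  refine ⟨(p (Fin.last n) ^ 2)⁻¹ • T, fun x => ?_⟩
  have h1 := congrArg (eval (proj p x)) hL
  rw [map_mul, eval_linf, hGd, hFd, hGe] at h1
  have h2 : T x = (∑ k, L k * proj p x k) + e * p (Fin.last n) * x (Fin.last n) := by
    change (Lm.comp proj' + (e * p (Fin.last n)) •
      (LinearMap.proj (Fin.last n) : (Fin (n+1) → K) →ₗ[K] K)) x = _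
    rw [LinearMap.add_apply, LinearMap.comp_apply, hLm, LinearMap.smul_apply, LinearMap.proj_apply,
      smul_eq_mul]
    rfl
  rw [LinearMap.smul_apply, h2, smul_eq_mul]
  have h3 : p (Fin.last n) ^ a ≠ 0 := pow_ne_zero _ hp
  have h4 : p (Fin.last n) * (p (Fin.last n) * bev p x (Eop F) - e * (x (Fin.last n) * bev p x F)) =
      (∑ k, L k * proj p x k) * bev p x F := by
    apply mul_left_cancel₀ h3
    rw [pow_succ] at h1
    linear_combination h1
  field_simp
  linear_combination h4

end Geproci
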