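import Pool.Agent.Work.MP_efd9e3_ag.Gp.VSwap

/-! MODULE VDiv (MP_efd9e3_ag/Gp), helper69.  Divisibility for a general centre gives divisibility up to a polynomial in
the centre. -/

set_option autoImplicit false

open MvPolynomial

namespace Geproci

variable {K : Type*} [Field K] {N α a : ℕ}

theorem bev_emb (p x : Fin N → K) (q : MvPolynomial (Fin N) K) :
    bev p x (rename Sum.inl q) = eval p q := by
  unfold bev
  rw [eval_rename]
  rfl

theorem bev_mul (p x : Fin N → K) (A B : MvPolynomial (Fin N ⊕ Fin N) K) :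
    bev p x (A * B) = bev p x A * bev p x B := by
  unfold bev
  rw [map_mul]

theorem v_div [Infinite K] (F G : MvPolynomial (Fin N ⊕ Fin N) K) (hF0 : F ≠ 0) (hF : BiH α a F)
    (g : MvPolynomial (Fin N) K) (hg : g ≠ 0)
    (h : ∀ p, eval p g ≠ 0 → (∃ x, bev p x F ≠ 0) → ∃ φ : (Fin N → K) →ₗ[K] K,
      ∀ x, bev p x G = φ x * bev p x F) :
    ∃ (γ : ℕ) (H L : MvPolynomial (Fin N ⊕ Fin N) K), H ≠ 0 ∧ BiH γ 0 H ∧ H * G = L * F := by
  classical
  obtain ⟨p₀, v, hpv⟩ : ∃ p x, bev p x F ≠ 0 := by
    by_contra hcon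
    push Not at hcon
    exact hF0 (bev_ext F 0 fun x y => by rw [hcon x y, bev, map_zero])
  have hw : ∀ k : Fin N, ∃ t : K, t ≠ 0 ∧ bev p₀ (fun j => v j + t * (Pi.single k 1 : Fin N → K) j) F ≠ 0 := by
    intro k
    have h1 : Polynomial.X * bline p₀ 0 v (Pi.single k 1) F ≠ 0 := by
      apply mul_ne_zero Polynomial.X_ne_zero
      intro h0
      apply hpv
      have h2 := eval_bline p₀ 0 v (Pi.single k 1) F 0
      rw [h0, Polynomial.eval_zero] at h2
      simp only [zero_mul, add_zero] at h2
      exact h2.symm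
    obtain ⟨t, ht⟩ : ∃ t, Polynomial.eval t (Polynomial.X * bline p₀ 0 v (Pi.single k 1) F) ≠ 0 := by
      by_contra hcon
      push Not at hcon
      exact h1 (Polynomial.funext fun x => by rw [hcon x, Polynomial.eval_zero])
    rw [Polynomial.eval_mul, Polynomial.eval_X, eval_bline] at ht
    simp only [Pi.zero_apply, mul_zero, add_zero] at ht
    exact ⟨t, left_ne_zero_of_mul ht, right_ne_zero_of_mul ht⟩
  choose t ht0 ht using hw
  set w : Fin N → Fin N → K := fun k j => v j + t k * (Pi.single k 1 : Fin N → K) j with hwdef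
  set D := xp v F with hD
  set Dk : Fin N → MvPolynomial (Fin N) K := fun k => xp (w k) F with hDk
  have hD0 : D ≠ 0 := by
    intro h0
    apply hpv
    rw [← eval_xp, ← hD, h0, map_zero]
  have hDk0 : ∀ k, Dk k ≠ 0 := by
    intro k h0
    apply ht k
    have h1 : eval p₀ (xp (w k) F) = 0 := by
      change eval p₀ (Dk k) = 0
      rw [h0, map_zero]
    rw [eval_xp] at h1
    exact h1
  have hPd0 : ∏ k, Dk k ≠ 0 := Finset.prod_ne_zero_iff.2 fun k _ => hDk0 k
  have hinj : Function.Injective (rename (R := K) (Sum.inl : Fin N → Fin N ⊕ Fin N)) :=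
    rename_injective _ Sum.inl_injective
  have hne : ∀ q : MvPolynomial (Fin N) K, q ≠ 0 → rename (Sum.inl : Fin N → Fin N ⊕ Fin N) q ≠ 0 := by
    intro q hq h0
    exact hq (hinj (by rw [h0, map_zero]))
  refine ⟨α + ∑ _k : Fin N, α, rename Sum.inl (D * ∏ k, Dk k),
    ∑ k, C (t k)⁻¹ * rename Sum.inl ((xp (w k) G * D - xp v G * Dk k) *
      ∏ j ∈ Finset.univ.erase k, Dk j) * X (Sum.inr k),
    hne _ (mul_ne_zero hD0 hPd0), ?_, ?_⟩
  · apply biH_of_scaling
    intro b c _ _ p x
    rw [bev_emb, bev_emb, map_mul, map_mul, map_prod, map_prod]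
    have e1 : ∀ y, eval (fun k => b * p k) (xp y F) = b ^ α * eval p (xp y F) := by
      intro y
      rw [eval_xp, eval_xp]
      have := hF.bev b 1 p y
      simp only [one_mul, one_pow, mul_one] at this
      exact this
    rw [hD, e1, Finset.prod_congr rfl fun k _ => e1 (w k), Finset.prod_mul_distrib, pow_add,
      ← Finset.prod_pow_eq_pow_sum, pow_zero, mul_one]
    ring
  · have hgH : rename (Sum.inl : Fin N → Fin N ⊕ Fin N) (g * (D * ∏ k, Dk k)) ≠ 0 :=
      hne _ (mul_ne_zero hg (mul_ne_zero hD0 hPd0))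
    apply mul_left_cancel₀ hgH
    apply bev_ext
    intro p x
    rw [bev_mul p x _ (_ * G), bev_mul p x _ (_ * F), bev_emb]
    by_cases hz : eval p (g * (D * ∏ k, Dk k)) = 0
    · rw [hz, zero_mul, zero_mul]
    · congr 1
      rw [map_mul, map_mul, map_prod] at hz
      have hgp := left_ne_zero_of_mul hz
      have hDp := left_ne_zero_of_mul (right_ne_zero_of_mul hz)
      have hDkp : ∀ k, eval p (Dk k) ≠ 0 := fun k =>
        Finset.prod_ne_zero_iff.1 (right_ne_zero_of_mul (right_ne_zero_of_mul hz)) k (Finset.mem_univ _)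
      obtain ⟨φ, hφ⟩ := h p hgp ⟨v, by rw [← eval_xp]; exact hDp⟩
      rw [bev_mul p x _ G, bev_mul p x _ F, bev_emb, hφ x, map_mul, map_prod]
      have hL : bev p x (∑ k, C (t k)⁻¹ * rename Sum.inl ((xp (w k) G * D - xp v G * Dk k) *
          ∏ j ∈ Finset.univ.erase k, Dk j) * X (Sum.inr k)) =
          (eval p D * ∏ k, eval p (Dk k)) * φ x := by
        have hx : φ x = ∑ k, x k * φ (Pi.single k 1) := by
          conv_lhs => rw [pi_eq_sum_univ' x]
          rw [map_sum]
          exact Finset.sum_congr rfl fun k _ => by rw [map_smul, smul_eq_mul]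
        rw [hx, Finset.mul_sum]
        unfold bev
        rw [map_sum]
        refine Finset.sum_congr rfl fun k _ => ?_
        rw [map_mul, map_mul, eval_C, eval_X, Sum.elim_inr]
        have e1 := bev_emb p x ((xp (w k) G * D - xp v G * Dk k) * ∏ j ∈ Finset.univ.erase k, Dk j)
        unfold bev at e1
        have e2 : eval p (xp (w k) G) = φ (w k) * eval p (Dk k) := by
          rw [eval_xp, hφ, hDk, eval_xp]
        have e3 : eval p (xp v G) = φ v * eval p D := by
          rw [eval_xp, hφ, hD, eval_xp]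
        rw [e1, map_mul, map_sub, map_mul, map_mul, map_prod, e2, e3]
        have e4 : φ (w k) = φ v + t k * φ (Pi.single k 1) := by
          have : w k = v + t k • (Pi.single k 1 : Fin N → K) := by
            funext j
            rw [hwdef]
            simp only [Pi.add_apply, Pi.smul_apply, smul_eq_mul]
          rw [this, map_add, map_smul, smul_eq_mul]
        have e5 : ∏ k, eval p (Dk k) = eval p (Dk k) * ∏ j ∈ Finset.univ.erase k, eval p (Dk j) :=
          (Finset.mul_prod_erase Finset.univ (fun k => eval p (Dk k)) (Finset.mem_univ k)).symm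
        rw [e4, e5]
        have := ht0 k
        field_simp
        ring
      rw [hL]
      ring

end Geproci
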