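import Pool.Agent.Work.MP_efd9e3_ag.Gp.BiDefs

/-! MODULE BiLe (MP_efd9e3_ag/Gp), helper69.  Invariant forms of bidegree `(α, β)` have `α ≤ β`. -/

set_option autoImplicit false

open MvPolynomial

namespace Geproci

variable {K : Type*} [Field K] {N α β : ℕ}

theorem natDegree_aeval_le {σ : Type*} (w : σ → ℕ) (n : ℕ) (f : σ → Polynomial K)
    (hf : ∀ i, (f i).natDegree ≤ w i) (A : MvPolynomial σ K) (h : A.IsWeightedHomogeneous w n) :
    (aeval f A).natDegree ≤ n := by
  rw [aeval_def, eval₂_eq]
  apply Polynomial.natDegree_sum_le_of_forall_le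
  intro d hd
  refine (Polynomial.natDegree_C_mul_le _ _).trans ?_
  refine (Polynomial.natDegree_prod_le _ _).trans ?_
  have h1 : Finsupp.weight w d = n := h (mem_support_iff.1 hd)
  rw [← h1, Finsupp.weight_apply, Finsupp.sum]
  refine Finset.sum_le_sum fun i _ => ?_
  refine Polynomial.natDegree_pow_le.trans ?_
  rw [smul_eq_mul]
  exact Nat.mul_le_mul_left _ (hf i)

theorem natDegree_bline (x y y' : Fin N → K) (A : MvPolynomial (Fin N ⊕ Fin N) K) (h : BiH α β A) :
    (bline x 0 y y' A).natDegree ≤ β := by
  unfold bline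
  refine natDegree_aeval_le _ _ _ (fun i => ?_) A h.2
  rcases i with i | i
  · simp
  · simp only [Sum.elim_inr]
    refine (Polynomial.natDegree_add_le _ _).trans ?_
    rw [Polynomial.natDegree_C, max_le_iff]
    exact ⟨by omega, (Polynomial.natDegree_C_mul_le _ _).trans Polynomial.natDegree_X_le⟩

theorem bi_key [CharZero K] (A : MvPolynomial (Fin N ⊕ Fin N) K) (h : BiH α β A) (hi : BInv A)
    (x w : Fin N → K) : bline x 0 x w A = (-Polynomial.X) ^ α * bline w 0 x w A := by
  have hinf : Infinite K := inferInstance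
  apply Polynomial.funext
  intro t
  rw [Polynomial.eval_mul, Polynomial.eval_pow, Polynomial.eval_neg, Polynomial.eval_X, eval_bline,
    eval_bline]
  simp only [Pi.zero_apply, mul_zero, add_zero]
  have h1 := hi.bev (-1) x (fun k => x k + t * w k)
  have h2 := h.bev (-t) 1 w (fun k => x k + t * w k)
  rw [one_pow, mul_one] at h2
  rw [← h2, ← h1]
  unfold bev
  refine congrArg (fun f => eval f A) (funext fun i => ?_)
  rcases i with i | i
  · simp only [Sum.elim_inl]
    ring
  · simp only [Sum.elim_inr]
    ring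

theorem bi_le [CharZero K] (A : MvPolynomial (Fin N ⊕ Fin N) K) (h : BiH α β A) (hi : BInv A)
    (hA : A ≠ 0) : α ≤ β := by
  have hinf : Infinite K := inferInstance
  obtain ⟨x, y, hxy⟩ : ∃ x y, bev x y A ≠ 0 := by
    by_contra hcon
    push Not at hcon
    exact hA (bev_ext A 0 fun x y => by rw [hcon x y, bev, map_zero])
  have h1 := bi_key A h hi x (fun k => y k - x k)
  have h2 := natDegree_bline x x (fun k => y k - x k) A h
  have h3 : bline x 0 x (fun k => y k - x k) A ≠ 0 := by
    intro h0
    apply hxy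
    have h4 := eval_bline x 0 x (fun k => y k - x k) A 1
    rw [h0, Polynomial.eval_zero] at h4
    rw [h4]
    unfold bev
    refine congrArg (fun f => eval f A) (funext fun i => ?_)
    rcases i with i | i
    · simp
    · simp
  have h4 : bline (fun k => y k - x k) 0 x (fun k => y k - x k) A ≠ 0 := by
    intro h0
    rw [h0, mul_zero] at h1
    exact h3 h1
  have h5 : ((-Polynomial.X : Polynomial K) ^ α).natDegree = α := by
    rw [Polynomial.natDegree_pow, Polynomial.natDegree_neg, Polynomial.natDegree_X, mul_one]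
  have h6 : ((-Polynomial.X : Polynomial K) ^ α) ≠ 0 := pow_ne_zero _ (neg_ne_zero.2 Polynomial.X_ne_zero)
  rw [h1, Polynomial.natDegree_mul h6 h4, h5] at h2
  omega

theorem bi_eq [CharZero K] (A : MvPolynomial (Fin N ⊕ Fin N) K) (h : BiH α α A) (hi : BInv A)
    (x y : Fin N → K) : ∑ k, x k * bev x y (pderiv (Sum.inr k) A) = 0 := by
  have hinf : Infinite K := inferInstance
  have h1 := bi_key A h hi y x
  have h2 := natDegree_bline y y x A h
  have h6 : ((-Polynomial.X : Polynomial K) ^ α) ≠ 0 := pow_ne_zero _ (neg_ne_zero.2 Polynomial.X_ne_zero)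
  have h5 : ((-Polynomial.X : Polynomial K) ^ α).natDegree = α := by
    rw [Polynomial.natDegree_pow, Polynomial.natDegree_neg, Polynomial.natDegree_X, mul_one]
  have h3 : (bline x 0 y x A).natDegree = 0 := by
    by_cases h4 : bline x 0 y x A = 0
    · rw [h4, Polynomial.natDegree_zero]
    · rw [h1, Polynomial.natDegree_mul h6 h4, h5] at h2
      omega
  have h4 := Polynomial.derivative_eq_zero.2 h3
  rw [deriv_bline] at h4
  have h7 := congrArg (Polynomial.eval 0) h4
  rw [Polynomial.eval_add, Polynomial.eval_finsetSum, Polynomial.eval_finsetSum] at h7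
  simp only [Polynomial.eval_mul, Polynomial.eval_C, eval_bline, Pi.zero_apply, zero_mul,
    Finset.sum_const_zero, add_zero, mul_zero, Polynomial.eval_zero, zero_add] at h7
  exact h7

end Geproci
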