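import Pool.Agent.Work.MP_efd9e3_ag.Co.DvAdd
import Pool.Agent.Work.MP_efd9e3_ag.Gp.BiLe

/-! MODULE BiCay (MP_efd9e3_ag/Gp), helper69.  The linear part along a point; the Cayley operators. -/

set_option autoImplicit false

open MvPolynomial

namespace Geproci

variable {K : Type*} [Field K] {N α β : ℕ} {ι : Type*}

theorem pd_comm {σ : Type*} (i j : σ) (A : MvPolynomial σ K) :
    pderiv i (pderiv j A) = pderiv j (pderiv i A) := by
  classical
  induction A using MvPolynomial.induction_on with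
  | C a => simp
  | add a b ha hb => simp only [map_add, ha, hb]
  | mul_X a k ha =>
    have h1 : ∀ i j : σ, pderiv i (pderiv j (X k : MvPolynomial σ K)) = 0 := by
      intro i j
      by_cases hjk : j = k
      · rw [hjk, pderiv_X_self, pderiv_one]
      · rw [pderiv_X_of_ne (Ne.symm hjk), map_zero]
    simp only [Derivation.leibniz, map_add, smul_eq_mul, ha, h1]
    ring

theorem BiH.pd_inr {A : MvPolynomial (Fin N ⊕ Fin N) K} (h : BiH α (β+1) A) (j : Fin N) :
    BiH α β (pderiv (Sum.inr j) A) :=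
  ⟨h.1.pderiv (by simp), h.2.pderiv (by simp)⟩

theorem BiH.pd_inl {A : MvPolynomial (Fin N ⊕ Fin N) K} (h : BiH (α+1) β A) (j : Fin N) :
    BiH α β (pderiv (Sum.inl j) A) :=
  ⟨h.1.pderiv (by simp), h.2.pderiv (by simp)⟩

theorem euler_y {A : MvPolynomial (Fin N ⊕ Fin N) K} (h : BiH α β A) :
    ∑ k, X (Sum.inr k) * pderiv (Sum.inr k) A = (β : MvPolynomial (Fin N ⊕ Fin N) K) * A := by
  have h1 := h.2.sum_weight_X_mul_pderiv
  rw [Fintype.sum_sum_type] at h1
  simp only [Sum.elim_inl, Sum.elim_inr, zero_smul, one_smul, Finset.sum_const_zero, zero_add,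
    nsmul_eq_mul] at h1
  exact h1

theorem euler_x {A : MvPolynomial (Fin N ⊕ Fin N) K} (h : BiH α β A) :
    ∑ k, X (Sum.inl k) * pderiv (Sum.inl k) A = (α : MvPolynomial (Fin N ⊕ Fin N) K) * A := by
  have h1 := h.1.sum_weight_X_mul_pderiv
  rw [Fintype.sum_sum_type] at h1
  simp only [Sum.elim_inl, Sum.elim_inr, zero_smul, one_smul, Finset.sum_const_zero, add_zero,
    nsmul_eq_mul] at h1
  exact h1

/-- the operator whose kernel is the space of the invariant polynomials -/
noncomputable def Eop (A : MvPolynomial (Fin N ⊕ Fin N) K) : MvPolynomial (Fin N ⊕ Fin N) K :=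
  ∑ k, X (Sum.inr k) * pderiv (Sum.inl k) A

theorem Eop_inl (A : MvPolynomial (Fin N ⊕ Fin N) K) (i : Fin N) :
    Eop (pderiv (Sum.inl i) A) = pderiv (Sum.inl i) (Eop A) := by
  unfold Eop
  rw [map_sum]
  refine Finset.sum_congr rfl fun k _ => ?_
  rw [Derivation.leibniz, pderiv_X_of_ne (by simp), smul_eq_mul, smul_zero, add_zero, pd_comm]

theorem Eop_inr (A : MvPolynomial (Fin N ⊕ Fin N) K) (j : Fin N) :
    Eop (pderiv (Sum.inr j) A) = pderiv (Sum.inr j) (Eop A) - pderiv (Sum.inl j) A := by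
  classical
  unfold Eop
  rw [map_sum, eq_sub_iff_add_eq]
  have h1 : pderiv (Sum.inl j) A = ∑ k, if k = j then pderiv (Sum.inl k) A else 0 := by
    rw [Finset.sum_ite_eq', if_pos (Finset.mem_univ _)]
  rw [h1, ← Finset.sum_add_distrib]
  refine Finset.sum_congr rfl fun k _ => ?_
  rw [Derivation.leibniz, smul_eq_mul, smul_eq_mul, pd_comm]
  split_ifs with hk
  · subst hk
    rw [pderiv_X_self, mul_one]
  · rw [pderiv_X_of_ne (fun h => hk (Sum.inr_injective h)), mul_zero]

/-- the Cayley operators -/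
noncomputable def cay (i j : Fin N) (A : MvPolynomial (Fin N ⊕ Fin N) K) :
    MvPolynomial (Fin N ⊕ Fin N) K :=
  pderiv (Sum.inl i) (pderiv (Sum.inr j) A) - pderiv (Sum.inl j) (pderiv (Sum.inr i) A)

theorem cay_biH {A : MvPolynomial (Fin N ⊕ Fin N) K} (h : BiH (α+1) (β+1) A) (i j : Fin N) :
    BiH α β (cay i j A) := by
  have h1 := (h.pd_inr j).pd_inl i
  have h2 := (h.pd_inr i).pd_inl j
  refine ⟨?_, ?_⟩
  · have := (weightedHomogeneousSubmodule K _ _).sub_mem h1.1 h2.1
    exact this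
  · have := (weightedHomogeneousSubmodule K _ _).sub_mem h1.2 h2.2
    exact this

theorem cay_inv {A : MvPolynomial (Fin N ⊕ Fin N) K} (h : BInv A) (i j : Fin N) :
    BInv (cay i j A) := by
  have h0 : Eop A = 0 := h
  have h1 : Eop (cay i j A) = Eop (pderiv (Sum.inl i) (pderiv (Sum.inr j) A)) -
      Eop (pderiv (Sum.inl j) (pderiv (Sum.inr i) A)) := by
    unfold Eop cay
    rw [← Finset.sum_sub_distrib]
    refine Finset.sum_congr rfl fun k _ => ?_
    rw [map_sub]
    ring
  change Eop (cay i j A) = 0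
  rw [h1, Eop_inl, Eop_inl, Eop_inr, Eop_inr, h0, map_zero, map_zero, zero_sub, zero_sub, map_neg,
    map_neg, pd_comm]
  ring

theorem cay_sum {A : MvPolynomial (Fin N ⊕ Fin N) K} (h : BiH α (β+1) A) (hi : BInv A) :
    ∑ i, ∑ j, X (Sum.inl i) * X (Sum.inr j) * cay i j A =
      ((α * (β + 2) : ℕ) : MvPolynomial (Fin N ⊕ Fin N) K) * A := by
  have h0 : Eop A = 0 := hi
  -- first part
  have h1 : ∑ i, ∑ j, X (Sum.inl i) * X (Sum.inr j) * pderiv (Sum.inl i) (pderiv (Sum.inr j) A) =
      ((α * (β + 1) : ℕ) : MvPolynomial (Fin N ⊕ Fin N) K) * A := by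
    rw [Finset.sum_comm]
    have e1 : ∀ j, ∑ i, X (Sum.inl i) * X (Sum.inr j) * pderiv (Sum.inl i) (pderiv (Sum.inr j) A) =
        (α : MvPolynomial (Fin N ⊕ Fin N) K) * (X (Sum.inr j) * pderiv (Sum.inr j) A) := by
      intro j
      have := euler_x (h.pd_inr j)
      rw [mul_left_comm, ← this, Finset.mul_sum]
      exact Finset.sum_congr rfl fun i _ => by ring
    rw [Finset.sum_congr rfl fun j _ => e1 j, ← Finset.mul_sum, euler_y h]
    push_cast
    ring
  have h2 : ∑ i, ∑ j, X (Sum.inl i) * X (Sum.inr j) * pderiv (Sum.inl j) (pderiv (Sum.inr i) A) =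
      - ((α : ℕ) : MvPolynomial (Fin N ⊕ Fin N) K) * A := by
    have e1 : ∀ i, ∑ j, X (Sum.inl i) * X (Sum.inr j) * pderiv (Sum.inl j) (pderiv (Sum.inr i) A) =
        - (X (Sum.inl i) * pderiv (Sum.inl i) A) := by
      intro i
      have := Eop_inr A i
      rw [h0, map_zero, zero_sub] at this
      rw [← mul_neg, ← this, Eop, Finset.mul_sum]
      exact Finset.sum_congr rfl fun j _ => by ring
    rw [Finset.sum_congr rfl fun i _ => e1 i, Finset.sum_neg_distrib, euler_x h]
    ring
  have h3 : ∑ i, ∑ j, X (Sum.inl i) * X (Sum.inr j) * cay i j A =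
      ∑ i, ∑ j, X (Sum.inl i) * X (Sum.inr j) * pderiv (Sum.inl i) (pderiv (Sum.inr j) A) -
      ∑ i, ∑ j, X (Sum.inl i) * X (Sum.inr j) * pderiv (Sum.inl j) (pderiv (Sum.inr i) A) := by
    rw [← Finset.sum_sub_distrib]
    refine Finset.sum_congr rfl fun i _ => ?_
    rw [← Finset.sum_sub_distrib]
    refine Finset.sum_congr rfl fun j _ => ?_
    rw [cay]
    ring
  rw [h3, h1, h2]
  push_cast
  ring

/-- the linear part of `A` along `y = z` -/
noncomputable def rho (A : MvPolynomial (Fin N ⊕ Fin N) K) (z u : Fin N → K) :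
    MvPolynomial (Fin N) K := ∑ j, C (u j) * xp z (pderiv (Sum.inr j) A)

theorem rho_lin (A : MvPolynomial (Fin N ⊕ Fin N) K) (z u w : Fin N → K) (a b : K) :
    rho A z (fun k => a * u k + b * w k) = C a * rho A z u + C b * rho A z w := by
  unfold rho
  rw [Finset.mul_sum, Finset.mul_sum, ← Finset.sum_add_distrib]
  refine Finset.sum_congr rfl fun j _ => ?_
  rw [C_add, C_mul, C_mul]
  ring

theorem eval_rho (A : MvPolynomial (Fin N ⊕ Fin N) K) (x z u : Fin N → K) :
    eval x (rho A z u) = ∑ j, u j * bev x z (pderiv (Sum.inr j) A) := by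
  unfold rho
  rw [map_sum]
  refine Finset.sum_congr rfl fun j _ => ?_
  rw [map_mul, eval_C, eval_xp]

theorem rho_hom [Infinite K] {A : MvPolynomial (Fin N ⊕ Fin N) K} (h : BiH α (β+1) A)
    (z u : Fin N → K) : (rho A z u).IsHomogeneous α := by
  unfold rho
  refine IsHomogeneous.sum _ _ _ fun j _ => ?_
  have h1 := xp_hom (h.pd_inr j) z
  have := (isHomogeneous_C (Fin N) (u j)).mul h1
  rwa [zero_add] at this

theorem rho_self {A : MvPolynomial (Fin N ⊕ Fin N) K} (h : BiH α β A) (z : Fin N → K)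
    (hz : xp z A = 0) : rho A z z = 0 := by
  have h1 := congrArg (xp z) (euler_y h)
  rw [map_mul, hz, mul_zero, map_sum] at h1
  rw [rho, ← h1]
  refine Finset.sum_congr rfl fun j _ => ?_
  rw [map_mul]
  congr 1
  simp [xp]

theorem rho_inv {A : MvPolynomial (Fin N ⊕ Fin N) K} (hi : BInv A) (z u : Fin N → K)
    (hz : xp z A = 0) : dirP z (rho A z u) = 0 := by
  have h0 : Eop A = 0 := hi
  unfold rho
  rw [dirP_sum]
  have h1 : ∀ j, dirP z (C (u j) * xp z (pderiv (Sum.inr j) A)) = 0 := by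
    intro j
    rw [dirP_C_mul]
    have h2 : dirP z (xp z (pderiv (Sum.inr j) A)) = xp z (Eop (pderiv (Sum.inr j) A)) := by
      unfold dirP Eop
      rw [map_sum]
      refine Finset.sum_congr rfl fun k _ => ?_
      rw [pderiv_xp, map_mul]
      congr 1
      simp [xp]
    rw [h2, Eop_inr, h0, map_zero, zero_sub, map_neg, ← pderiv_xp, hz, map_zero, neg_zero, mul_zero]
  exact Finset.sum_eq_zero fun j _ => h1 j

theorem bi_pos [CharZero K] (A : MvPolynomial (Fin N ⊕ Fin N) K) (hA : A ≠ 0) (h : BiH α β A)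
    (hi : BInv A) (z : Fin N → K) (hz : xp z A = 0) : β ≠ 0 := by
  have hinf : Infinite K := inferInstance
  have hle := bi_le A h hi hA
  rintro rfl
  have hα : α = 0 := by omega
  subst hα
  apply hA
  apply bev_ext
  intro a b
  have h1 := h.bev 0 0 a b
  have h2 := h.bev 0 0 a z
  have h3 : bev a z A = 0 := by rw [← eval_xp, hz, map_zero]
  rw [h3, mul_zero] at h2
  rw [pow_zero, mul_one, one_mul] at h1
  rw [← h1]
  simp only [zero_mul] at h2 ⊢
  rw [h2, bev, map_zero]

theorem bi_descend [CharZero K] [Nonempty ι] (y : ι → Fin N → K)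
    (A : MvPolynomial (Fin N ⊕ Fin N) K) (hA : A ≠ 0) (h : BiH α β A) (hi : BInv A)
    (hz : ∀ z, xp (y z) A = 0) (hr : ∀ z u, rho A (y z) u = 0) :
    ∃ (α' β' : ℕ) (A' : MvPolynomial (Fin N ⊕ Fin N) K), A' ≠ 0 ∧ BiH α' β' A' ∧ BInv A' ∧
      (∀ z, xp (y z) A' = 0) ∧ β' < β ∧ α + β' ≤ α' + β := by
  classical
  have hinf : Infinite K := inferInstance
  have hle := bi_le A h hi hA
  have hpd : ∀ z j, xp (y z) (pderiv (Sum.inr j) A) = 0 := by
    intro z j
    have h1 := hr z (Pi.single j 1)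
    rw [rho, Finset.sum_eq_single j] at h1
    · rwa [Pi.single_eq_same, C_1, one_mul] at h1
    · intro b _ hb
      rw [Pi.single_eq_of_ne hb, C_0, zero_mul]
    · simp
  obtain ⟨z₀⟩ := ‹Nonempty ι›
  have hβ : β ≠ 0 := bi_pos A hA h hi (y z₀) (hz z₀)
  obtain ⟨β', rfl⟩ : ∃ β', β = β' + 1 := ⟨β - 1, by omega⟩
  rcases Nat.eq_zero_or_pos α with hα | hα
  · subst hα
    have h1 : ∃ j, pderiv (Sum.inr j) A ≠ 0 := by
      by_contra hcon
      push Not at hcon
      have h2 := euler_y h
      rw [Finset.sum_eq_zero fun k _ => by rw [hcon k, mul_zero]] at h2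
      rcases mul_eq_zero.1 h2.symm with h3 | h3
      · have : ((β' + 1 : ℕ) : MvPolynomial (Fin N ⊕ Fin N) K) ≠ 0 := Nat.cast_ne_zero.2 (by omega)
        exact this h3
      · exact hA h3
    obtain ⟨j, hj⟩ := h1
    refine ⟨0, β', _, hj, h.pd_inr j, ?_, fun z => hpd z j, by omega, by omega⟩
    have h3 : ∀ k, pderiv (Sum.inl k) A = 0 := by
      intro k
      have h4 := h.1
      -- degree zero in the first variables
      have h5 : ∀ x y, bev x y (pderiv (Sum.inl k) A) = 0 := by
        intro a b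
        have h6 : bline a (Pi.single k 1) b 0 A = Polynomial.C (bev a b A) := by
          apply Polynomial.funext
          intro t
          rw [eval_bline, Polynomial.eval_C]
          have h7 := h.bev 0 1 a b
          have h8 := h.bev 0 1 (fun k_1 => a k_1 + t * (Pi.single k 1 : Fin N → K) k_1) b
          simp only [zero_mul, one_mul, pow_zero, one_pow] at h7 h8
          simp only [Pi.zero_apply, mul_zero, add_zero]
          rw [← h8, h7]
        have h7 := congrArg Polynomial.derivative h6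
        rw [deriv_bline, Polynomial.derivative_C] at h7
        have h8 := congrArg (Polynomial.eval 0) h7
        rw [Polynomial.eval_add, Polynomial.eval_finsetSum, Polynomial.eval_finsetSum] at h8
        simp only [Polynomial.eval_mul, Polynomial.eval_C, eval_bline, Pi.zero_apply, zero_mul,
          Finset.sum_const_zero, add_zero, mul_zero, Polynomial.eval_zero] at h8
        rw [Finset.sum_eq_single k] at h8
        · rwa [Pi.single_eq_same, one_mul] at h8
        · intro b _ hb
          rw [Pi.single_eq_of_ne hb, zero_mul]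
        · simp
      exact bev_ext _ _ fun x y => by rw [h5, bev, map_zero]
    change Eop (pderiv (Sum.inr j) A) = 0
    rw [Eop_inr, h3 j, sub_zero]
    have h0 : Eop A = 0 := hi
    rw [h0, map_zero]
  · obtain ⟨α', rfl⟩ : ∃ α', α = α' + 1 := ⟨α - 1, by omega⟩
    have h1 : ∃ i j, cay i j A ≠ 0 := by
      by_contra hcon
      push Not at hcon
      have h2 := cay_sum h hi
      rw [Finset.sum_eq_zero fun i _ => Finset.sum_eq_zero fun j _ => by
        rw [hcon i j, mul_zero]] at h2
      rcases mul_eq_zero.1 h2.symm with h3 | h3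
      · have : (((α' + 1) * (β' + 2) : ℕ) : MvPolynomial (Fin N ⊕ Fin N) K) ≠ 0 :=
          Nat.cast_ne_zero.2 (by positivity)
        exact this h3
      · exact hA h3
    obtain ⟨i, j, hij⟩ := h1
    refine ⟨α', β', _, hij, cay_biH h i j, cay_inv hi i j, fun z => ?_, by omega, by omega⟩
    rw [cay, map_sub, ← pderiv_xp, ← pderiv_xp, hpd, hpd, map_zero, map_zero, sub_zero]

end Geproci
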