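import Pool.Agent.Work.MP_efd9e3_ag.Co.Line
import Mathlib.RingTheory.MvPolynomial.EulerIdentity

/-! MODULE BiDefs (MP_efd9e3_ag/Gp), helper69.  Polynomials in two sets of variables. -/

set_option autoImplicit false

open MvPolynomial

namespace Geproci

variable {K : Type*} [Field K] {N : ℕ}

/-- chain rule -/
theorem chain {σ : Type*} [Fintype σ] (f : σ → Polynomial K) (A : MvPolynomial σ K) :
    Polynomial.derivative (aeval f A) = ∑ i, aeval f (pderiv i A) * Polynomial.derivative (f i) := by
  classical
  induction A using MvPolynomial.induction_on with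
  | C a => simp
  | add a b ha hb =>
    rw [map_add, Polynomial.derivative_add, ha, hb, ← Finset.sum_add_distrib]
    refine Finset.sum_congr rfl fun i _ => ?_
    rw [map_add, map_add, add_mul]
  | mul_X a k ha =>
    rw [map_mul, Polynomial.derivative_mul, ha, aeval_X, Finset.sum_mul]
    have h1 : ∀ i, aeval f (pderiv i (a * X k)) * Polynomial.derivative (f i) =
        aeval f (pderiv i a) * Polynomial.derivative (f i) * f k +
          (if i = k then aeval f a * Polynomial.derivative (f k) else 0) := by
      intro i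
      rw [Derivation.leibniz, map_add, smul_eq_mul, smul_eq_mul, map_mul, map_mul, aeval_X]
      split_ifs with hik
      · subst hik
        rw [pderiv_X_self, map_one]
        ring
      · rw [pderiv_X_of_ne (Ne.symm hik), map_zero]
        ring
    rw [Finset.sum_congr rfl fun i _ => h1 i, Finset.sum_add_distrib, Finset.sum_ite_eq',
      if_pos (Finset.mem_univ _)]

theorem wh_eval {σ : Type*} (w : σ → ℕ) (n : ℕ) (A : MvPolynomial σ K)
    (h : A.IsWeightedHomogeneous w n) (a : K) (x : σ → K) :
    eval (fun i => a ^ w i * x i) A = a ^ n * eval x A := by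
  classical
  rw [eval_eq, eval_eq, Finset.mul_sum]
  refine Finset.sum_congr rfl fun d hd => ?_
  have h1 : Finsupp.weight w d = n := h (mem_support_iff.1 hd)
  have h2 : ∏ i ∈ d.support, (a ^ w i * x i) ^ d i = a ^ n * ∏ i ∈ d.support, x i ^ d i := by
    rw [← h1, Finsupp.weight_apply, Finsupp.sum, ← Finset.prod_pow_eq_pow_sum, ← Finset.prod_mul_distrib]
    refine Finset.prod_congr rfl fun i _ => ?_
    rw [mul_pow, ← pow_mul, smul_eq_mul, mul_comm (w i)]
  rw [h2]
  ring

theorem wh_of_scaling [Infinite K] {σ : Type*} (w : σ → ℕ) (n : ℕ)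
    (A : MvPolynomial σ K) (h : ∀ a : K, a ≠ 0 → ∀ x, eval (fun i => a ^ w i * x i) A = a ^ n * eval x A) :
    A.IsWeightedHomogeneous w n := by
  classical
  intro d hd
  have key : ∀ a : K, a ≠ 0 → a ^ (Finsupp.weight w d) = a ^ n := by
    intro a ha
    have h1 : (∑ d ∈ A.support, monomial d (a ^ (Finsupp.weight w d) * coeff d A)) = C (a ^ n) * A := by
      apply MvPolynomial.funext
      intro x
      rw [map_mul, eval_C, ← h a ha x, map_sum, eval_eq]
      refine Finset.sum_congr rfl fun d _ => ?_
      rw [eval_monomial, Finsupp.prod, Finsupp.weight_apply, Finsupp.sum,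
        ← Finset.prod_pow_eq_pow_sum, mul_comm (∏ i ∈ d.support, a ^ (d i • w i)), mul_assoc,
        ← Finset.prod_mul_distrib]
      congr 1
      refine Finset.prod_congr rfl fun i _ => ?_
      rw [mul_pow, ← pow_mul, smul_eq_mul, mul_comm (w i)]
    have h2 := congrArg (coeff d) h1
    rw [coeff_C_mul, coeff_sum, Finset.sum_eq_single d] at h2
    · rw [coeff_monomial, if_pos rfl] at h2
      exact mul_right_cancel₀ hd h2
    · intro b _ hb
      rw [coeff_monomial, if_neg hb]
    · intro hd'
      exact absurd (mem_support_iff.2 hd) hd'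
  have h3 : (Polynomial.X ^ (Finsupp.weight w d + 1) : Polynomial K) = Polynomial.X ^ (n + 1) := by
    apply Polynomial.funext
    intro a
    rw [Polynomial.eval_pow, Polynomial.eval_pow, Polynomial.eval_X]
    by_cases ha : a = 0
    · rw [ha, zero_pow (by omega), zero_pow (by omega)]
    · rw [pow_succ, pow_succ, key a ha]
  have h4 := congrArg Polynomial.natDegree h3
  rw [Polynomial.natDegree_X_pow, Polynomial.natDegree_X_pow] at h4
  omega

theorem hom_of_scaling [Infinite K] {M : ℕ} (n : ℕ)
    (A : MvPolynomial (Fin M) K) (h : ∀ a : K, a ≠ 0 → ∀ x, eval (fun i => a * x i) A = a ^ n * eval x A) :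
    A.IsHomogeneous n := by
  refine wh_of_scaling (fun _ => 1) n A fun a ha x => ?_
  rw [← h a ha x]
  simp only [pow_one]

/-- forms of degree `α` in the first variables and of degree `β` in the second ones -/
def BiH (α β : ℕ) (A : MvPolynomial (Fin N ⊕ Fin N) K) : Prop :=
  A.IsWeightedHomogeneous (Sum.elim (fun _ => 1) (fun _ => 0) : Fin N ⊕ Fin N → ℕ) α ∧
  A.IsWeightedHomogeneous (Sum.elim (fun _ => 0) (fun _ => 1) : Fin N ⊕ Fin N → ℕ) β

/-- the value of `A` at `(x, y)` -/
noncomputable def bev (x y : Fin N → K) (A : MvPolynomial (Fin N ⊕ Fin N) K) : K := eval (Sum.elim x y) A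

theorem bev_ext [Infinite K] (A B : MvPolynomial (Fin N ⊕ Fin N) K) (h : ∀ x y, bev x y A = bev x y B) :
    A = B := by
  apply MvPolynomial.funext
  intro v
  have h1 := h (v ∘ Sum.inl) (v ∘ Sum.inr)
  rwa [bev, bev, Sum.elim_comp_inl_inr] at h1

theorem BiH.bev {α β : ℕ} {A : MvPolynomial (Fin N ⊕ Fin N) K} (h : BiH α β A) (a b : K)
    (x y : Fin N → K) : bev (fun k => a * x k) (fun k => b * y k) A = a ^ α * b ^ β * Geproci.bev x y A := by
  have h1 := wh_eval _ _ A h.1 a (Sum.elim x (fun k => b * y k))
  have h2 := wh_eval _ _ A h.2 b (Sum.elim x y)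
  have e1 : (fun i => a ^ (Sum.elim (fun _ => 1) (fun _ => 0) : Fin N ⊕ Fin N → ℕ) i *
      (Sum.elim x (fun k => b * y k) : Fin N ⊕ Fin N → K) i) =
      Sum.elim (fun k => a * x k) (fun k => b * y k) := by
    funext i
    rcases i with i | i <;> simp
  have e2 : (fun i => b ^ (Sum.elim (fun _ => 0) (fun _ => 1) : Fin N ⊕ Fin N → ℕ) i *
      (Sum.elim x y : Fin N ⊕ Fin N → K) i) = Sum.elim x (fun k => b * y k) := by
    funext i
    rcases i with i | i <;> simp
  rw [e1] at h1
  rw [e2] at h2
  rw [Geproci.bev, h1, h2, Geproci.bev]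
  ring

theorem biH_of_scaling [Infinite K] {α β : ℕ} {A : MvPolynomial (Fin N ⊕ Fin N) K}
    (h : ∀ a b : K, a ≠ 0 → b ≠ 0 → ∀ x y,
      bev (fun k => a * x k) (fun k => b * y k) A = a ^ α * b ^ β * bev x y A) : BiH α β A := by
  constructor
  · refine wh_of_scaling _ _ A fun a ha v => ?_
    have h1 := h a 1 ha one_ne_zero (v ∘ Sum.inl) (v ∘ Sum.inr)
    rw [one_pow, mul_one, bev, bev, Sum.elim_comp_inl_inr] at h1
    rw [← h1]
    congr 2
    funext i
    rcases i with i | i <;> simp
  · refine wh_of_scaling _ _ A fun a ha v => ?_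
    have h1 := h 1 a one_ne_zero ha (v ∘ Sum.inl) (v ∘ Sum.inr)
    rw [one_pow, one_mul, bev, bev, Sum.elim_comp_inl_inr] at h1
    rw [← h1]
    congr 2
    funext i
    rcases i with i | i <;> simp

/-- invariance under `x ↦ x + τ y` -/
def BInv (A : MvPolynomial (Fin N ⊕ Fin N) K) : Prop :=
  ∑ k, X (Sum.inr k) * pderiv (Sum.inl k) A = 0

/-- the restriction to a line of the space of pairs -/
noncomputable def bline (x x' y y' : Fin N → K) : MvPolynomial (Fin N ⊕ Fin N) K →ₐ[K] Polynomial K :=
  aeval (Sum.elim (fun k => Polynomial.C (x k) + Polynomial.C (x' k) * Polynomial.X)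
    (fun k => Polynomial.C (y k) + Polynomial.C (y' k) * Polynomial.X))

theorem eval_aeval_poly {σ : Type*} (f : σ → Polynomial K) (A : MvPolynomial σ K) (t : K) :
    (aeval f A).eval t = eval (fun i => (f i).eval t) A := by
  induction A using MvPolynomial.induction_on with
  | C a => simp
  | add a b ha hb => rw [map_add, Polynomial.eval_add, ha, hb, map_add]
  | mul_X a k ha => rw [map_mul, Polynomial.eval_mul, ha, map_mul, aeval_X, eval_X]

theorem eval_bline (x x' y y' : Fin N → K) (A : MvPolynomial (Fin N ⊕ Fin N) K) (t : K) :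
    (bline x x' y y' A).eval t = bev (fun k => x k + t * x' k) (fun k => y k + t * y' k) A := by
  rw [bline, eval_aeval_poly, bev]
  refine congrArg (fun f => eval f A) (funext fun i => ?_)
  rcases i with i | i
  · simp only [Sum.elim_inl, Polynomial.eval_add, Polynomial.eval_C, Polynomial.eval_mul, Polynomial.eval_X]
    ring
  · simp only [Sum.elim_inr, Polynomial.eval_add, Polynomial.eval_C, Polynomial.eval_mul, Polynomial.eval_X]
    ring

theorem deriv_bline (x x' y y' : Fin N → K) (A : MvPolynomial (Fin N ⊕ Fin N) K) :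
    Polynomial.derivative (bline x x' y y' A) =
      ∑ k, Polynomial.C (x' k) * bline x x' y y' (pderiv (Sum.inl k) A) +
      ∑ k, Polynomial.C (y' k) * bline x x' y y' (pderiv (Sum.inr k) A) := by
  rw [bline, chain, Fintype.sum_sum_type]
  congr 1
  · refine Finset.sum_congr rfl fun k _ => ?_
    simp only [Sum.elim_inl, Polynomial.derivative_add, Polynomial.derivative_C, zero_add,
      Polynomial.derivative_mul, zero_mul, Polynomial.derivative_X, mul_one]
    ring
  · refine Finset.sum_congr rfl fun k _ => ?_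
    simp only [Sum.elim_inr, Polynomial.derivative_add, Polynomial.derivative_C, zero_add,
      Polynomial.derivative_mul, zero_mul, Polynomial.derivative_X, mul_one]
    ring

theorem BInv.bev [CharZero K] {A : MvPolynomial (Fin N ⊕ Fin N) K} (h : BInv A) (t : K)
    (x y : Fin N → K) : bev (fun k => x k + t * y k) y A = Geproci.bev x y A := by
  have h1 : Polynomial.derivative (bline x y y 0 A) = 0 := by
    rw [deriv_bline]
    simp only [Pi.zero_apply, Polynomial.C_0, zero_mul, Finset.sum_const_zero, add_zero]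
    have h2 := congrArg (bline x y y 0) h
    rw [map_sum, map_zero] at h2
    rw [← h2]
    refine Finset.sum_congr rfl fun k _ => ?_
    rw [map_mul]
    congr 1
    simp [bline]
  have h2 := Polynomial.derivative_eq_zero.1 h1
  rw [Polynomial.natDegree_eq_zero] at h2
  obtain ⟨c, hc⟩ := h2
  have h3 := eval_bline x y y 0 A t
  have h4 := eval_bline x y y 0 A 0
  rw [← hc, Polynomial.eval_C] at h3 h4
  simp only [Pi.zero_apply, mul_zero, add_zero, zero_mul] at h3 h4
  rw [← h3, ← h4]

theorem bInv_of [Infinite K] {A : MvPolynomial (Fin N ⊕ Fin N) K}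
    (h : ∀ (t : K) (x y : Fin N → K), bev (fun k => x k + t * y k) y A = bev x y A) : BInv A := by
  apply MvPolynomial.funext
  intro v
  have h1 : bline (v ∘ Sum.inl) (v ∘ Sum.inr) (v ∘ Sum.inr) 0 A =
      Polynomial.C (bev (v ∘ Sum.inl) (v ∘ Sum.inr) A) := by
    apply Polynomial.funext
    intro t
    rw [eval_bline, Polynomial.eval_C]
    simp only [Pi.zero_apply, mul_zero, add_zero]
    exact h t _ _
  have h2 := congrArg Polynomial.derivative h1
  rw [deriv_bline, Polynomial.derivative_C] at h2
  have h3 := congrArg (Polynomial.eval 0) h2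
  rw [Polynomial.eval_add, Polynomial.eval_finsetSum, Polynomial.eval_finsetSum] at h3
  simp only [Polynomial.eval_mul, Polynomial.eval_C, eval_bline, Pi.zero_apply, zero_mul,
    Finset.sum_const_zero, add_zero, mul_zero, Polynomial.eval_zero, Function.comp_apply] at h3
  rw [map_sum, map_zero, ← h3]
  refine Finset.sum_congr rfl fun k _ => ?_
  rw [map_mul, eval_X, bev]
  refine congrArg (fun f => v (Sum.inr k) * eval f (pderiv (Sum.inl k) A)) (funext fun i => ?_)
  rcases i with i | i <;> simp

/-- the polynomial `A(·, y)` -/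
noncomputable def xp (y : Fin N → K) : MvPolynomial (Fin N ⊕ Fin N) K →ₐ[K] MvPolynomial (Fin N) K :=
  aeval (Sum.elim X (fun k => C (y k)))

theorem eval_xp (x y : Fin N → K) (A : MvPolynomial (Fin N ⊕ Fin N) K) :
    eval x (xp y A) = bev x y A := by
  unfold xp bev
  induction A using MvPolynomial.induction_on with
  | C a => simp
  | add a b ha hb => rw [map_add, map_add, ha, hb, map_add]
  | mul_X a k ha =>
    rw [map_mul, map_mul, ha, map_mul, aeval_X, eval_X]
    congr 1
    rcases k with k | k <;> simp

theorem pderiv_xp (y : Fin N → K) (A : MvPolynomial (Fin N ⊕ Fin N) K) (i : Fin N) :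
    pderiv i (xp y A) = xp y (pderiv (Sum.inl i) A) := by
  classical
  unfold xp
  induction A using MvPolynomial.induction_on with
  | C a => simp
  | add a b ha hb => rw [map_add, map_add, ha, hb, map_add, map_add]
  | mul_X a k ha =>
    rw [map_mul, Derivation.leibniz, ha, Derivation.leibniz, map_add, smul_eq_mul, smul_eq_mul,
      smul_eq_mul, smul_eq_mul, map_mul, map_mul, aeval_X]
    congr 2
    rcases k with k | k
    · simp only [Sum.elim_inl, pderiv_X]
      by_cases hik : i = k
      · subst hik
        simp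
      · simp [Ne.symm hik]
    · simp [pderiv_X]

theorem xp_hom [Infinite K] {α β : ℕ} {A : MvPolynomial (Fin N ⊕ Fin N) K} (h : BiH α β A)
    (y : Fin N → K) : (xp y A).IsHomogeneous α := by
  refine hom_of_scaling _ _ fun a _ x => ?_
  have h1 := h.bev a 1 x y
  simp only [one_mul, one_pow, mul_one] at h1
  rw [eval_xp, h1, eval_xp]

end Geproci
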