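import Pool.Agent.Work.MP_efd9e3_ag.Co.LinPar
import Pool.Agent.Work.MP_efd9e3_ag.Gp.BiCay

/-! MODULE BiLead (MP_efd9e3_ag/Gp), helper69.  The leading coefficient of an invariant form along a hyperplane. -/

set_option autoImplicit false

open MvPolynomial

namespace Geproci

variable {K : Type*} [Field K] {N n α β : ℕ} {ι : Type*}

theorem chainR {R σ : Type*} [CommRing R] [Algebra K R] [Fintype σ] (f : σ → Polynomial R)
    (A : MvPolynomial σ K) :
    Polynomial.derivative (aeval f A) = ∑ i, aeval f (pderiv i A) * Polynomial.derivative (f i) := by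
  classical
  induction A using MvPolynomial.induction_on with
  | C a =>
    rw [aeval_C, Polynomial.algebraMap_apply, Polynomial.derivative_C]
    simp
  | add a b ha hb =>
    rw [map_add, Polynomial.derivative_add, ha, hb, ← Finset.sum_add_distrib]
    refine Finset.sum_congr rfl fun i _ => ?_
    rw [map_add, map_add, add_mul]
  | mul_X a k ha =>
    rw [map_mul, Polynomial.derivative_mul, ha, aeval_X, Finset.sum_mul]
    have h1 : ∀ i, aeval f (pderiv i (a * X k)) * Polynomial.derivative (f i) =
        aeval f (pderiv i a) * Polynomial.derivative (f i) * f k +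
          (if i = k then aeval f a * Polynomial.derivative (f k) else 0) := by
      intro i
      rw [Derivation.leibniz, map_add, smul_eq_mul, smul_eq_mul, map_mul, map_mul, aeval_X]
      split_ifs with hik
      · subst hik
        rw [pderiv_X_self, map_one]
        ring
      · rw [pderiv_X_of_ne (Ne.symm hik), map_zero]
        ring
    rw [Finset.sum_congr rfl fun i _ => h1 i, Finset.sum_add_distrib, Finset.sum_ite_eq',
      if_pos (Finset.mem_univ _)]

theorem eval_aeval_R {R σ : Type*} [CommRing R] [Algebra K R] (f : σ → Polynomial R)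
    (A : MvPolynomial σ K) (t : R) : (aeval f A).eval t = aeval (fun i => (f i).eval t) A := by
  induction A using MvPolynomial.induction_on with
  | C a => rw [aeval_C, Polynomial.algebraMap_apply, Polynomial.eval_C, aeval_C]
  | add a b ha hb => rw [map_add, Polynomial.eval_add, ha, hb, map_add]
  | mul_X a k ha => rw [map_mul, Polynomial.eval_mul, ha, map_mul, aeval_X, aeval_X]

/-- `A (·, z + τ u)` as a polynomial in `τ` -/
noncomputable def yl (z u : Fin N → K) :
    MvPolynomial (Fin N ⊕ Fin N) K →ₐ[K] Polynomial (MvPolynomial (Fin N) K) :=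
  aeval (Sum.elim (fun k => Polynomial.C (X k))
    (fun k => Polynomial.C (C (z k)) + Polynomial.C (C (u k)) * Polynomial.X))

theorem eval_yl (z u : Fin N → K) (A : MvPolynomial (Fin N ⊕ Fin N) K) (t : K) :
    (yl z u A).eval (C t) = xp (fun k => z k + t * u k) A := by
  rw [yl, eval_aeval_R, xp]
  refine congrArg (fun f => aeval f A) (funext fun i => ?_)
  rcases i with i | i
  · simp
  · simp only [Sum.elim_inr, Polynomial.eval_add, Polynomial.eval_C, Polynomial.eval_mul,
      Polynomial.eval_X, C_add, C_mul]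
    ring

theorem yl_coeff (z u : Fin N → K) (A : MvPolynomial (Fin N ⊕ Fin N) K) :
    (yl z u A).coeff 1 = rho A z u := by
  have h1 : (Polynomial.derivative (yl z u A)).eval (C 0) = rho A z u := by
    rw [yl, chainR, Polynomial.eval_finsetSum, Fintype.sum_sum_type, rho]
    have e1 : ∀ k : Fin N, Polynomial.eval (C (0:K)) (aeval (Sum.elim (fun k => Polynomial.C (X k))
        (fun k => Polynomial.C (C (z k)) + Polynomial.C (C (u k)) * Polynomial.X))
        (pderiv (Sum.inl k) A) * Polynomial.derivative ((Sum.elim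
        (fun k => Polynomial.C (X k)) (fun k => Polynomial.C (C (z k)) + Polynomial.C (C (u k)) *
          Polynomial.X) : Fin N ⊕ Fin N → Polynomial (MvPolynomial (Fin N) K)) (Sum.inl k))) = 0 := by
      intro k
      simp
    rw [Finset.sum_eq_zero fun k _ => e1 k, zero_add]
    refine Finset.sum_congr rfl fun k _ => ?_
    have h2 := eval_yl z u (pderiv (Sum.inr k) A) 0
    simp only [zero_mul, add_zero] at h2
    rw [Polynomial.eval_mul, mul_comm, ← h2]
    congr 1
    simp
  rw [← h1, C_0, ← Polynomial.coeff_zero_eq_eval_zero, Polynomial.coeff_derivative]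
  simp

theorem tau_coeff {V : Type*} [AddCommGroup V] [Module K V] [Infinite K] (L : V →ₗ[K] K) (d : ℕ)
    (R : ℕ → V) (h : ∀ t : K, L (∑ i ∈ Finset.range d, t ^ i • R i) = 0) (i : ℕ) (hi : i < d) :
    L (R i) = 0 := by
  have h1 : (∑ i ∈ Finset.range d, Polynomial.C (L (R i)) * Polynomial.X ^ i) = 0 := by
    apply Polynomial.funext
    intro t
    rw [Polynomial.eval_finsetSum, Polynomial.eval_zero, ← h t, map_sum]
    refine Finset.sum_congr rfl fun i _ => ?_
    rw [Polynomial.eval_mul, Polynomial.eval_C, Polynomial.eval_pow, Polynomial.eval_X, map_smul,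
      smul_eq_mul, mul_comm]
  have h2 := congrArg (fun p => Polynomial.coeff p i) h1
  simp only [Polynomial.finsetSum_coeff, Polynomial.coeff_C_mul, Polynomial.coeff_X_pow, mul_ite, mul_one,
    mul_zero, Polynomial.coeff_zero] at h2
  rw [Finset.sum_ite_eq, if_pos (Finset.mem_range.2 hi)] at h2
  exact h2

theorem line_xp [Infinite K] (p v y : Fin N → K) (A : MvPolynomial (Fin N ⊕ Fin N) K) :
    line p v (xp y A) = bline p v y 0 A := by
  apply Polynomial.funext
  intro t
  rw [eval_line, eval_bline, eval_xp]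
  simp

theorem rho_line [Infinite K] (p v z u : Fin N → K) (A : MvPolynomial (Fin N ⊕ Fin N) K) (m : ℕ)
    (h : ∀ t : K, Polynomial.X ^ m ∣ bline p v (fun k => z k + t * u k) 0 A) :
    Polynomial.X ^ m ∣ line p v (rho A z u) := by
  rw [Polynomial.X_pow_dvd_iff]
  intro k hk
  let L : MvPolynomial (Fin N) K →ₗ[K] K :=
    (Polynomial.lcoeff K k).comp (line p v).toLinearMap
  have h1 := tau_coeff L ((yl z u A).natDegree + 2) (fun i => (yl z u A).coeff i) (fun t => by
    have h2 : ∑ i ∈ Finset.range ((yl z u A).natDegree + 2), t ^ i • (yl z u A).coeff i =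
        xp (fun k => z k + t * u k) A := by
      rw [← eval_yl, Polynomial.eval_eq_sum_range' (n := (yl z u A).natDegree + 2) (by omega)]
      refine Finset.sum_congr rfl fun i _ => ?_
      rw [smul_eq_C_mul, C_pow, mul_comm]
    rw [h2]
    change (line p v (xp (fun k => z k + t * u k) A)).coeff k = 0
    rw [line_xp]
    exact Polynomial.X_pow_dvd_iff.1 (h t) k hk) 1 (by omega)
  rw [yl_coeff] at h1
  exact h1

theorem dvd_of_lines (l : Fin (n+1) → K) (ψ : (Fin n → K) →ₗ[K] (Fin (n+1) → K)) [Infinite K]
    (hψ0 : ∀ x, ∑ k, l k * ψ x k = 0)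
    (hψd : ∀ q : MvPolynomial (Fin (n+1)) K, compL ψ q = 0 → linf l ∣ q)
    (v : Fin (n+1) → K) (hv : ∑ k, l k * v k ≠ 0) :
    ∀ (m : ℕ) (g : MvPolynomial (Fin (n+1)) K), (∀ x, Polynomial.X ^ m ∣ line (ψ x) v g) →
      linf l ^ m ∣ g := by
  intro m
  induction m with
  | zero =>
    intro g _
    rw [pow_zero]
    exact one_dvd _
  | succ m ih =>
    intro g hg
    have h1 : linf l ∣ g := by
      apply hψd
      apply MvPolynomial.funext
      intro x
      rw [map_zero, eval_compL]
      have h2 := Polynomial.X_pow_dvd_iff.1 (hg x) 0 (by omega)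
      rw [Polynomial.coeff_zero_eq_eval_zero, eval_line] at h2
      simpa using h2
    obtain ⟨g', rfl⟩ := h1
    rw [pow_succ, mul_comm]
    apply mul_dvd_mul_left
    apply ih
    intro x
    have h2 := hg x
    rw [map_mul, line_linf, hψ0, Polynomial.C_0, zero_add, pow_succ] at h2
    obtain ⟨w, hw⟩ := h2
    refine ⟨Polynomial.C (∑ k, l k * v k)⁻¹ * w, ?_⟩
    apply mul_left_cancel₀ (mul_ne_zero (Polynomial.C_ne_zero.2 hv) Polynomial.X_ne_zero)
    rw [hw]
    have h3 : Polynomial.C (∑ k, l k * v k) * Polynomial.C (∑ k, l k * v k)⁻¹ = (1 : Polynomial K) := by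
      rw [← Polynomial.C_mul, mul_inv_cancel₀ hv, Polynomial.C_1]
    linear_combination (-(Polynomial.X ^ (m+1) * w)) * h3

/-- expansion along the hyperplane `range ψ` in the direction `v` -/
noncomputable def hexp (ψ : (Fin n → K) →ₗ[K] (Fin N → K)) (v : Fin N → K) :
    MvPolynomial (Fin N ⊕ Fin N) K →ₐ[K] Polynomial (MvPolynomial (Fin n ⊕ Fin n) K) :=
  aeval (Sum.elim
    (fun k => Polynomial.C (∑ j, C (ψ (Pi.single j 1) k) * X (Sum.inl j)) +
      Polynomial.C (C (v k)) * Polynomial.X)
    (fun k => Polynomial.C (∑ j, C (ψ (Pi.single j 1) k) * X (Sum.inr j))))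

theorem lin_single (ψ : (Fin n → K) →ₗ[K] (Fin N → K)) (x : Fin n → K) (k : Fin N) :
    ∑ j, ψ (Pi.single j 1) k * x j = ψ x k := by
  classical
  have hx : x = ∑ j, x j • (Pi.single j 1 : Fin n → K) := by
    funext i
    simp [Finset.sum_apply, Pi.single_apply]
  conv_rhs => rw [hx]
  rw [map_sum, Finset.sum_apply]
  refine Finset.sum_congr rfl fun j _ => ?_
  rw [map_smul, Pi.smul_apply, smul_eq_mul, mul_comm]

theorem map_hexp (ψ : (Fin n → K) →ₗ[K] (Fin N → K)) (v : Fin N → K) (x y : Fin n → K)
    (A : MvPolynomial (Fin N ⊕ Fin N) K) :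
    (hexp ψ v A).map (eval (Sum.elim x y)) = bline (ψ x) v (ψ y) 0 A := by
  unfold hexp bline
  induction A using MvPolynomial.induction_on with
  | C a =>
    rw [aeval_C, aeval_C, Polynomial.algebraMap_apply, Polynomial.map_C]
    simp
  | add a b ha hb => rw [map_add, Polynomial.map_add, ha, hb, map_add]
  | mul_X a k ha =>
    rw [map_mul, Polynomial.map_mul, ha, map_mul, aeval_X, aeval_X]
    congr 1
    rcases k with k | k
    · have hs : eval (Sum.elim x y) (∑ j, C (ψ (Pi.single j 1) k) *
          (X (Sum.inl j) : MvPolynomial (Fin n ⊕ Fin n) K)) = ψ x k := by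
        rw [← lin_single ψ x k, map_sum]
        refine Finset.sum_congr rfl fun j _ => ?_
        rw [map_mul, eval_C, eval_X, Sum.elim_inl]
      rw [Sum.elim_inl, Sum.elim_inl, Polynomial.map_add, Polynomial.map_mul, Polynomial.map_X,
        Polynomial.map_C, Polynomial.map_C, hs, eval_C]
    · have hs : eval (Sum.elim x y) (∑ j, C (ψ (Pi.single j 1) k) *
          (X (Sum.inr j) : MvPolynomial (Fin n ⊕ Fin n) K)) = ψ y k := by
        rw [← lin_single ψ y k, map_sum]
        refine Finset.sum_congr rfl fun j _ => ?_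
        rw [map_mul, eval_C, eval_X, Sum.elim_inr]
      rw [Sum.elim_inr, Sum.elim_inr, Polynomial.map_C, hs, Pi.zero_apply, Polynomial.C_0, zero_mul,
        add_zero]

theorem bev_hexp (ψ : (Fin n → K) →ₗ[K] (Fin N → K)) (v : Fin N → K) (x y : Fin n → K)
    (A : MvPolynomial (Fin N ⊕ Fin N) K) (k : ℕ) :
    bev x y ((hexp ψ v A).coeff k) = (bline (ψ x) v (ψ y) 0 A).coeff k := by
  rw [← map_hexp, Polynomial.coeff_map, bev]

theorem bi_lead [CharZero K] (A : MvPolynomial (Fin N ⊕ Fin N) K) (h : BiH α β A) (hi : BInv A)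
    (ψ : (Fin n → K) →ₗ[K] (Fin N → K)) (v : Fin N → K) :
    (∀ x y, bline (ψ x) v (ψ y) 0 A = 0) ∨ ∃ (m : ℕ) (A' : MvPolynomial (Fin n ⊕ Fin n) K),
      m ≤ α ∧ A' ≠ 0 ∧ BiH (α - m) β A' ∧ BInv A' ∧ (∀ y, xp (ψ y) A = 0 → xp y A' = 0) ∧
      ∀ x y, Polynomial.X ^ m ∣ bline (ψ x) v (ψ y) 0 A := by
  classical
  have hinf : Infinite K := inferInstance
  by_cases h0 : hexp ψ v A = 0
  · left
    intro x y
    rw [← map_hexp, h0, Polynomial.map_zero]
  · right
    set m := (hexp ψ v A).natTrailingDegree with hm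
    have hcm : (hexp ψ v A).coeff m ≠ 0 := by
      have := Polynomial.trailingCoeff_nonzero_iff_nonzero.2 h0
      exact this
    have hmα : m ≤ α := by
      by_contra hcon
      push Not at hcon
      apply hcm
      apply bev_ext
      intro x y
      rw [bev_hexp]
      have h1 : (bline (ψ x) v (ψ y) 0 A).natDegree ≤ α := by
        unfold bline
        refine natDegree_aeval_le _ _ _ (fun i => ?_) A h.1
        rcases i with i | i
        · simp only [Sum.elim_inl]
          refine (Polynomial.natDegree_add_le _ _).trans ?_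
          rw [Polynomial.natDegree_C, max_le_iff]
          exact ⟨by omega, (Polynomial.natDegree_C_mul_le _ _).trans Polynomial.natDegree_X_le⟩
        · simp
      rw [Polynomial.coeff_eq_zero_of_natDegree_lt (by omega), bev, map_zero]
    refine ⟨m, (hexp ψ v A).coeff m, hmα, hcm, ?_, ?_, ?_, ?_⟩
    · apply biH_of_scaling
      intro a b ha hb x y
      rw [bev_hexp, bev_hexp]
      have h1 : (bline (ψ fun k => a * x k) v (ψ fun k => b * y k) 0 A).comp
          (Polynomial.C a * Polynomial.X) =
          Polynomial.C (a ^ α * b ^ β) * bline (ψ x) v (ψ y) 0 A := by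
        apply Polynomial.funext
        intro t
        rw [Polynomial.eval_comp, eval_bline, Polynomial.eval_mul, Polynomial.eval_C,
          Polynomial.eval_C_mul, Polynomial.eval_X, eval_bline, ← h.bev]
        unfold bev
        refine congrArg (fun f => eval f A) (funext fun i => ?_)
        have ex : (fun k => a * x k) = a • x := rfl
        have ey : (fun k => b * y k) = b • y := rfl
        rcases i with i | i
        · simp only [Sum.elim_inl]
          rw [ex, map_smul, Pi.smul_apply, smul_eq_mul]
          ring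
        · simp only [Sum.elim_inr, Pi.zero_apply, mul_zero, add_zero]
          rw [ey, map_smul, Pi.smul_apply, smul_eq_mul]
      have h2 := congrArg (fun p => Polynomial.coeff p m) h1
      simp only [Polynomial.comp_C_mul_X_coeff, Polynomial.coeff_C_mul] at h2
      have h3 : a ^ α = a ^ (α - m) * a ^ m := by
        rw [← pow_add]
        congr 1
        omega
      apply mul_right_cancel₀ (pow_ne_zero m ha)
      rw [h2, h3]
      ring
    · apply bInv_of
      intro t x y
      rw [bev_hexp, bev_hexp]
      congr 1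
      apply Polynomial.funext
      intro τ
      rw [eval_bline, eval_bline]
      have h1 := hi.bev t (fun k => ψ x k + τ * v k) (fun k => ψ y k + τ * (0 : Fin N → K) k)
      rw [← h1]
      unfold bev
      refine congrArg (fun f => eval f A) (funext fun i => ?_)
      have ex : (fun k => x k + t * y k) = x + t • y := rfl
      rcases i with i | i
      · simp only [Sum.elim_inl, Pi.zero_apply, mul_zero, add_zero]
        rw [ex, map_add, map_smul, Pi.add_apply, Pi.smul_apply, smul_eq_mul]
        ring
      · simp only [Sum.elim_inr]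
    · intro y hy
      apply MvPolynomial.funext
      intro x
      rw [eval_xp, bev_hexp, ← line_xp, hy, map_zero, Polynomial.coeff_zero, map_zero]
    · intro x y
      rw [Polynomial.X_pow_dvd_iff]
      intro d hd
      rw [← bev_hexp, Polynomial.coeff_eq_zero_of_lt_natTrailingDegree hd, bev, map_zero]

theorem rho_dvd [Infinite K] (A : MvPolynomial (Fin (n+1) ⊕ Fin (n+1)) K) (l : Fin (n+1) → K)
    (ψ : (Fin n → K) →ₗ[K] (Fin (n+1) → K)) (hψ0 : ∀ x, ∑ k, l k * ψ x k = 0)
    (hψd : ∀ q : MvPolynomial (Fin (n+1)) K, compL ψ q = 0 → linf l ∣ q)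
    (v : Fin (n+1) → K) (hv : ∑ k, l k * v k ≠ 0) (m : ℕ)
    (h : ∀ x y, Polynomial.X ^ m ∣ bline (ψ x) v (ψ y) 0 A) (z u : Fin n → K) :
    linf l ^ m ∣ rho A (ψ z) (ψ u) := by
  refine dvd_of_lines l ψ hψ0 hψd v hv m _ fun x => ?_
  apply rho_line
  intro t
  have h1 := h x (z + t • u)
  have h2 : ψ (z + t • u) = fun k => ψ z k + t * ψ u k := by
    rw [map_add, map_smul]
    rfl
  rwa [h2] at h1

end Geproci
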