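import Pool.Agent.Work.MP_efd9e3_ag.Gp.KSlice

/-! MODULE KComb (MP_efd9e3_ag/Gp), helper69.  Linear combinations of given vectors; the poles which do not contain a
line through the point. -/

set_option autoImplicit false

open MvPolynomial

namespace Geproci

variable {K : Type*} [Field K] {N M e s r κ β : ℕ} {ι : Type*}

/-- the linear map with given values on the unit vectors -/
noncomputable def comb {d : ℕ} (w : Fin d → Fin M → K) : (Fin d → K) →ₗ[K] (Fin M → K) :=
  ∑ i, (LinearMap.proj i).smulRight (w i)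

theorem comb_apply {d : ℕ} (w : Fin d → Fin M → K) (a : Fin d → K) (k : Fin M) :
    comb w a k = ∑ i, a i * w i k := by
  simp [comb, LinearMap.sum_apply, Finset.sum_apply]

theorem comb_single {d : ℕ} (w : Fin d → Fin M → K) (i : Fin d) : comb w (Pi.single i 1) = w i := by
  classical
  funext k
  rw [comb_apply, Finset.sum_eq_single i]
  · rw [Pi.single_eq_same, one_mul]
  · intro b _ hb
    rw [Pi.single_eq_of_ne hb, zero_mul]
  · simp

theorem compL_comb {d : ℕ} (w : Fin d → Fin M → K) (l : Fin M → K) :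
    compL (comb w) (linf l) = linf fun i => ∑ k, l k * w i k := by
  rw [compL_linf]
  congr 1
  funext i
  rw [comb_single]

theorem dot_comb {d : ℕ} (w : Fin d → Fin M → K) (l : Fin M → K) (a : Fin d → K) :
    ∑ k, l k * comb w a k = ∑ i, (∑ k, l k * w i k) * a i := by
  simp only [comb_apply, Finset.mul_sum, Finset.sum_mul]
  rw [Finset.sum_comm]
  exact Finset.sum_congr rfl fun i _ => Finset.sum_congr rfl fun k _ => by ring

theorem k_lineR [IsAlgClosed K] [CharZero K] [Fintype ι] (hs : 1 ≤ s) (hM : 2 ≤ M) (y : ι → Fin M → K)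
    (c : ι → MvPolynomial (Fin M) K) (l : Fin e → Fin M → K) (h : KSys s r e κ y c l) (z : ι)
    (hcol : ∀ T : Finset ι, Module.finrank K (Submodule.span K (y '' (T : Set ι))) = 2 →
      T.card + β ≤ s + 2) (P : Finset (Fin e)) (hP0 : ∀ j ∈ P, ∑ k, l j k * y z k = 0)
    (hP : ∀ (N : ℕ) (φ : (Fin N → K) →ₗ[K] (Fin M → K)) (v : Fin M → K), Good c l v →
        ordV φ v (c z) + e ≤ (zer φ l).card + r + (P \ zer φ l).card)
    (R : Finset (Fin e)) (hR : ∀ j ∈ P, ∃ i ∈ R, ∃ c : K, l j = c • l i)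
    (w : Fin M → K) (hw : ∀ a b : K, (∀ k, a * y z k + b * w k = 0) → a = 0 ∧ b = 0)
    (S : Finset (Fin e)) (hS : ∀ i ∈ R, ∑ k, l i k * w k ≠ 0 → i ∈ S) :
    κ + β ≤ s ∧ β ≤ ∑ i ∈ S, (par l i).card := by
  classical
  have hφ : Function.Injective (comb ![y z, w]) := by
    rw [injective_iff_map_eq_zero]
    intro a ha
    have h1 := hw (a 0) (a 1) (fun k => by
      have h2 := congrFun ha k
      rw [comb_apply, Fin.sum_univ_two] at h2
      exact h2)
    funext i
    fin_cases i
    · exact h1.1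
    · exact h1.2
  have h1 := k_line hs hM y c l h z β hcol P hP (comb ![y z, w]) hφ
  refine ⟨h1.1, h1.2.trans ?_⟩
  refine reps_card l P R (P \ zer (comb ![y z, w]) l) Finset.sdiff_subset hR S ?_
  rintro i hi j hj ⟨a, ha⟩
  rw [Finset.mem_sdiff, mem_zer] at hj
  obtain ⟨hjP, hj⟩ := hj
  push Not at hj
  obtain ⟨x, hx⟩ := hj
  apply hS i hi
  intro h0
  apply hx
  rw [dot_comb, Fin.sum_univ_two]
  have e1 : ∑ k, l j k * (![y z, w] : Fin 2 → Fin M → K) 0 k = 0 := hP0 j hjP
  have e2 : ∑ k, l j k * (![y z, w] : Fin 2 → Fin M → K) 1 k = 0 := by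
    rw [ha]
    simp only [Pi.smul_apply, smul_eq_mul, mul_assoc]
    rw [← Finset.mul_sum]
    change a * ∑ k, l i k * w k = 0
    rw [h0, mul_zero]
  rw [e1, e2, zero_mul, zero_mul, add_zero]

end Geproci
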