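import Pool.Agent.Work.MP_efd9e3_ag.Gp.SThreeC

/-! MODULE SThree (MP_efd9e3_ag/Gp), helper69.  1-forms in three variables with invariant lines. -/

set_option autoImplicit false

open MvPolynomial

namespace Geproci

variable {K : Type*} [Field K] {κ : Type*}

/-- the cross product -/
def crossV (q u : Fin 3 → K) : Fin 3 → K :=
  ![q 1 * u 2 - q 2 * u 1, q 2 * u 0 - q 0 * u 2, q 0 * u 1 - q 1 * u 0]

theorem crossV_0 (q u : Fin 3 → K) : crossV q u 0 = q 1 * u 2 - q 2 * u 1 := rfl
theorem crossV_1 (q u : Fin 3 → K) : crossV q u 1 = q 2 * u 0 - q 0 * u 2 := rfl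
theorem crossV_2 (q u : Fin 3 → K) : crossV q u 2 = q 0 * u 1 - q 1 * u 0 := rfl

theorem crossV_zero (q u : Fin 3 → K) (hq : q ≠ 0) (h : crossV q u = 0) : ∃ t : K, u = t • q := by
  have h0 : q 1 * u 2 = q 2 * u 1 := by
    have := congrFun h 0
    rw [crossV_0, Pi.zero_apply] at this
    linear_combination this
  have h1 : q 2 * u 0 = q 0 * u 2 := by
    have := congrFun h 1
    rw [crossV_1, Pi.zero_apply] at this
    linear_combination this
  have h2 : q 0 * u 1 = q 1 * u 0 := by
    have := congrFun h 2
    rw [crossV_2, Pi.zero_apply] at this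
    linear_combination this
  obtain ⟨k, hk⟩ := Function.ne_iff.1 hq
  rw [Pi.zero_apply] at hk
  refine ⟨u k / q k, ?_⟩
  have h3 : ∀ j, u j * q k = u k * q j := by
    intro j
    fin_cases k <;> fin_cases j <;> simp only [Fin.zero_eta, Fin.mk_one, Fin.reduceFinMk] at * <;>
      first
        | ring1
        | linear_combination h0
        | linear_combination h1
        | linear_combination h2
        | linear_combination -h0
        | linear_combination -h1
        | linear_combination -h2
  funext j
  rw [Pi.smul_apply, smul_eq_mul, div_mul_eq_mul_div, eq_div_iff hk]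
  exact h3 j

private theorem dot_cross (f : Fin 3 → MvPolynomial (Fin 3) K) (q u v : Fin 3 → K)
    (hx : X 0 * f 0 + X 1 * f 1 + X 2 * f 2 = 0) (hq : dotP f q = 0) :
    dotP f u * linf (crossV q v) = dotP f v * linf (crossV q u) := by
  unfold dotP at *
  rw [linf_three, linf_three]
  simp only [crossV_0, crossV_1, crossV_2, C_sub, C_mul]
  linear_combination (X 0 * (C (u 1) * C (v 2) - C (u 2) * C (v 1)) +
    X 1 * (C (u 2) * C (v 0) - C (u 0) * C (v 2)) + X 2 * (C (u 0) * C (v 1) - C (u 1) * C (v 0))) * hq -
    (C (q 0) * (C (u 1) * C (v 2) - C (u 2) * C (v 1)) +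
    C (q 1) * (C (u 2) * C (v 0) - C (u 0) * C (v 2)) +
    C (q 2) * (C (u 0) * C (v 1) - C (u 1) * C (v 0))) * hx

theorem s_three [CharZero K] (α : ℕ) (f : Fin 3 → MvPolynomial (Fin 3) K)
    (hf : ∀ k, (f k).IsHomogeneous α) (hx : X 0 * f 0 + X 1 * f 1 + X 2 * f 2 = 0)
    (hne : ∃ k, f k ≠ 0)
    (R : Finset κ) (lam : κ → Fin 3 → K) (hl0 : ∀ i ∈ R, lam i ≠ 0)
    (hnp : ∀ i ∈ R, ∀ j ∈ R, i ≠ j → ∀ c : K, lam j ≠ c • lam i)
    (m : κ → ℕ) (hm : ∀ i ∈ R, 1 ≤ m i)
    (hdvd : ∀ i ∈ R, ∀ u : Fin 3 → K, ∑ k, lam i k * u k = 0 →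
      linf (lam i) ^ m i ∣ C (u 0) * f 0 + C (u 1) * f 1 + C (u 2) * f 2) :
    ∑ i ∈ R, m i + 3 ≤ 3 * α ∨ ∃ q : Fin 3 → K, q ≠ 0 ∧
        ∀ S : Finset κ, S ⊆ R → (∀ i ∈ S, ∑ k, lam i k * q k ≠ 0) → ∑ i ∈ S, m i + 1 ≤ α := by
  classical
  have hinf : Infinite K := inferInstance
  rcases ext_zero_or α f hf hx R lam hl0 hnp m hm hdvd with h | ⟨w0, w1, w2⟩
  · exact Or.inl h
  · right
    obtain ⟨q, hq0, hq⟩ := pencil α f hf hx hne w0 w1 w2
    refine ⟨q, hq0, fun S hS hSq => ?_⟩
    -- two more vectors
    obtain ⟨u, hu⟩ : ∃ u, u ∉ Submodule.span K {q} := by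
      by_contra hcon
      push Not at hcon
      have h1 : (⊤ : Submodule K (Fin 3 → K)) ≤ Submodule.span K {q} := fun x _ => hcon x
      have h2 := Submodule.finrank_mono h1
      rw [finrank_top, finrank_span_singleton hq0] at h2
      simp at h2
    obtain ⟨v, hv⟩ : ∃ v, v ∉ Submodule.span K {q, u} := by
      by_contra hcon
      push Not at hcon
      have h1 : (⊤ : Submodule K (Fin 3 → K)) ≤ Submodule.span K {q, u} := fun x _ => hcon x
      have h2 := Submodule.finrank_mono h1
      have h3 := finrank_span_le_card (R := K) ({q, u} : Set (Fin 3 → K))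
      rw [Set.toFinset_insert, Set.toFinset_singleton] at h3
      have h4 := Finset.card_le_two (a := q) (b := u)
      rw [finrank_top] at h2
      simp only [Module.finrank_fintype_fun_eq_card, Fintype.card_fin] at h2
      omega
    have hqu : crossV q u ≠ 0 := by
      intro h
      obtain ⟨t, ht⟩ := crossV_zero q u hq0 h
      exact hu (Submodule.mem_span_singleton.2 ⟨t, ht.symm⟩)
    have hqv : ∀ c : K, crossV q v ≠ c • crossV q u := by
      intro c hc
      have h1 : crossV q (fun i => v i - c * u i) = 0 := by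
        have a0 := congrFun hc 0
        have a1 := congrFun hc 1
        have a2 := congrFun hc 2
        rw [Pi.smul_apply, smul_eq_mul, crossV_0, crossV_0] at a0
        rw [Pi.smul_apply, smul_eq_mul, crossV_1, crossV_1] at a1
        rw [Pi.smul_apply, smul_eq_mul, crossV_2, crossV_2] at a2
        funext i
        fin_cases i
        · show crossV q _ 0 = 0
          rw [crossV_0]; linear_combination a0
        · show crossV q _ 1 = 0
          rw [crossV_1]; linear_combination a1
        · show crossV q _ 2 = 0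
          rw [crossV_2]; linear_combination a2
      obtain ⟨t, ht⟩ := crossV_zero q _ hq0 h1
      apply hv
      rw [Submodule.mem_span_pair]
      refine ⟨t, c, ?_⟩
      funext i
      have := congrFun ht i
      simp only [Pi.smul_apply, smul_eq_mul, Pi.add_apply] at this ⊢
      linear_combination -this
    have hqv0 : crossV q v ≠ 0 := by
      intro h
      exact hqv 0 (by rw [h, zero_smul])
    -- the polynomial `G`
    have h1 : linf (crossV q u) ∣ dotP f u := by
      have h2 := lin_rel (crossV q u) (crossV q v) hqu hqv0 hqv 1 1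
      rw [pow_one, pow_one] at h2
      apply h2.dvd_of_dvd_mul_right
      rw [dot_cross f q u v hx hq]
      exact dvd_mul_left _ _
    obtain ⟨G, hG⟩ := h1
    have hlu : linf (crossV q u) ≠ 0 := linf_ne_zero _ hqu
    have hGv : ∀ w, dotP f w = G * linf (crossV q w) := by
      intro w
      apply mul_right_cancel₀ hlu
      rw [dot_cross f q w u hx hq, hG]
      ring
    have hG0 : G ≠ 0 := by
      rintro rfl
      obtain ⟨k, hk⟩ := hne
      apply hk
      have h2 := hGv (Pi.single k 1)
      rw [zero_mul] at h2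
      rw [← h2]
      unfold dotP
      fin_cases k <;> simp
    have hdh : (linf (crossV q u) * G).IsHomogeneous α := by
      rw [← hG]
      unfold dotP
      have h3 : ∀ i, (C (u i) * f i).IsHomogeneous α := by
        intro i
        have := (isHomogeneous_C (Fin 3) (u i)).mul (hf i)
        rwa [zero_add] at this
      exact ((h3 0).add (h3 1)).add (h3 2)
    obtain ⟨j, hj, hjd⟩ := hom_mul_degree _ G _ 1 hdh hlu hG0 (linf_hom _)
    have h4 := lin_pow_deg S lam (fun i hi => hl0 i (hS hi))
      (fun i hi j hj hij => hnp i (hS hi) j (hS hj) hij) m G (fun i hi => ?_) hG0 j hj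
    · omega
    · -- a vector in the kernel of `lam i`
      let L : (Fin 3 → K) →ₗ[K] K := ∑ k, lam i k • LinearMap.proj k
      have hL : ∀ v, L v = ∑ k, lam i k * v k := by
        intro v
        simp [L, LinearMap.sum_apply]
      obtain ⟨w, hw, hw0⟩ : ∃ w ∈ LinearMap.ker L, w ≠ 0 := by
        apply Submodule.exists_mem_ne_zero_of_ne_bot
        intro hbot
        have h5 := LinearMap.finrank_range_add_finrank_ker L
        rw [hbot, finrank_bot] at h5
        have h6 := Submodule.finrank_le (LinearMap.range L)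
        rw [Module.finrank_self] at h6
        simp only [Module.finrank_fintype_fun_eq_card, Fintype.card_fin] at h5
        omega
      rw [LinearMap.mem_ker, hL] at hw
      have hqw : crossV q w ≠ 0 := by
        intro h
        obtain ⟨t, ht⟩ := crossV_zero q w hq0 h
        have h5 : ∑ k, lam i k * w k = t * ∑ k, lam i k * q k := by
          rw [ht, Finset.mul_sum]
          exact Finset.sum_congr rfl fun k _ => by rw [Pi.smul_apply, smul_eq_mul]; ring
        rw [hw] at h5
        have h6 : t = 0 := (mul_eq_zero.1 h5.symm).resolve_right (hSq i hi)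
        rw [h6, zero_smul] at ht
        exact hw0 ht
      have hnp' : ∀ c : K, crossV q w ≠ c • lam i := by
        intro c hc
        have h5 : crossV q w 0 * q 0 + crossV q w 1 * q 1 + crossV q w 2 * q 2 = 0 := by
          rw [crossV_0, crossV_1, crossV_2]; ring
        have h6 : c * ∑ k, lam i k * q k = 0 := by
          rw [← h5, hc, Fin.sum_univ_three]
          simp only [Pi.smul_apply, smul_eq_mul]
          ring
        have h7 : c = 0 := (mul_eq_zero.1 h6).resolve_right (hSq i hi)
        rw [h7, zero_smul] at hc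
        exact hqw hc
      have h8 := lin_rel (lam i) (crossV q w) (hl0 i (hS hi)) hqw hnp' (m i) 1
      rw [pow_one] at h8
      apply h8.dvd_of_dvd_mul_right
      rw [← hGv w]
      exact hdvd i (hS hi) w hw

end Geproci
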