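import Pool.Agent.Work.MP_efd9e3_ag.Gp.LinPow

/-! MODULE STwo (MP_efd9e3_ag/Gp), helper69.  Two binary forms with invariant directions. -/

set_option autoImplicit false

open MvPolynomial

namespace Geproci

variable {K : Type*} [Field K] {κ : Type*}

private theorem two_dvd_pderiv (l : Fin 2 → K) (m : ℕ) (g : MvPolynomial (Fin 2) K)
    (h : linf l ^ m ∣ g) (k : Fin 2) : linf l ^ (m - 1) ∣ pderiv k g := by
  obtain ⟨q, rfl⟩ := h
  rw [Derivation.leibniz, Derivation.leibniz_pow]
  apply dvd_add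
  · exact Dvd.dvd.mul_right (pow_dvd_pow _ (Nat.sub_le m 1)) _
  · rw [smul_eq_mul, nsmul_eq_mul, smul_eq_mul]
    refine Dvd.dvd.mul_left ?_ _
    refine Dvd.dvd.mul_left ?_ _
    exact Dvd.dvd.mul_right dvd_rfl _

theorem dirP_two (v : Fin 2 → K) (g : MvPolynomial (Fin 2) K) :
    dirP v g = C (v 0) * pderiv 0 g + C (v 1) * pderiv 1 g := by
  rw [dirP, Fin.sum_univ_two]

theorem euler_two (g : MvPolynomial (Fin 2) K) (α : ℕ) (hg : g.IsHomogeneous α) :
    X 0 * pderiv 0 g + X 1 * pderiv 1 g = C (α : K) * g := by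
  have h1 := hg.sum_X_mul_pderiv
  rw [Fin.sum_univ_two] at h1
  rw [h1, nsmul_eq_mul]
  simp

theorem s_two [CharZero K] (α : ℕ) (f₀ f₁ : MvPolynomial (Fin 2) K) (h0 : f₀.IsHomogeneous α)
    (h1 : f₁.IsHomogeneous α) (hne : f₀ ≠ 0 ∨ f₁ ≠ 0) (R : Finset κ) (lam : κ → Fin 2 → K)
    (hl0 : ∀ i ∈ R, lam i ≠ 0) (hnp : ∀ i ∈ R, ∀ j ∈ R, i ≠ j → ∀ c : K, lam j ≠ c • lam i)
    (m : κ → ℕ) (hm : ∀ i ∈ R, 1 ≤ m i)
    (hdvd : ∀ i ∈ R, linf (lam i) ^ m i ∣ C (lam i 1) * f₀ - C (lam i 0) * f₁) :
    (∑ i ∈ R, (m i - 1) + 2 ≤ 2 * α ∧ (X 0 * f₀ + X 1 * f₁ ≠ 0 → R.card ≤ α + 1)) ∨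
      ∃ q : Fin 2 → K, q ≠ 0 ∧
        ∀ S : Finset κ, S ⊆ R → (∀ i ∈ S, ∑ k, lam i k * q k ≠ 0) → ∑ i ∈ S, m i ≤ α := by
  classical
  have hinf : Infinite K := inferInstance
  set J : MvPolynomial (Fin 2) K := pderiv 0 f₀ * pderiv 1 f₁ - pderiv 1 f₀ * pderiv 0 f₁ with hJ
  by_cases hJ0 : J = 0
  · -- the forms are proportional
    right
    have hrat : ∀ f g : MvPolynomial (Fin 2) K, f.IsHomogeneous α → g.IsHomogeneous α → f ≠ 0 →
        pderiv 0 f * pderiv 1 g - pderiv 1 f * pderiv 0 g = 0 → ∃ c : K, g = C c * f := by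
      intro f g hf hg hf0 hfg
      rcases Nat.eq_zero_or_pos α with hα | hα
      · subst hα
        have e1 : f = C (coeff 0 f) := by
          rw [← totalDegree_eq_zero_iff_eq_C, totalDegree_zero_iff_isHomogeneous]
          exact hf
        have e2 : g = C (coeff 0 g) := by
          rw [← totalDegree_eq_zero_iff_eq_C, totalDegree_zero_iff_isHomogeneous]
          exact hg
        have hc : coeff 0 f ≠ 0 := by
          intro hcon
          rw [hcon, C_0] at e1
          exact hf0 e1
        refine ⟨coeff 0 g / coeff 0 f, ?_⟩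
        rw [e1, e2, ← C_mul]
        congr 1
        simp only [coeff_C, if_true]
        rw [div_mul_cancel₀ _ hc]
      · apply ratio_const f g hf0
        intro v
        have hα' : (C (α : K) : MvPolynomial (Fin 2) K) ≠ 0 := by
          rw [Ne, C_eq_zero, Nat.cast_eq_zero]
          omega
        apply mul_left_cancel₀ hα'
        rw [dirP_two, dirP_two]
        have ef := euler_two f α hf
        have eg := euler_two g α hg
        linear_combination (-(C (v 0) * pderiv 0 g + C (v 1) * pderiv 1 g)) * ef +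
          (C (v 0) * pderiv 0 f + C (v 1) * pderiv 1 f) * eg +
          (C (v 1) * X 0 - C (v 0) * X 1) * hfg
    by_cases hf0 : f₀ = 0
    · have hf1 : f₁ ≠ 0 := by
        rcases hne with h | h
        · exact absurd hf0 h
        · exact h
      refine ⟨![1, 0], ?_, fun S hS hSq => ?_⟩
      · intro hcon
        have := congrFun hcon 0
        simp at this
      · refine lin_pow_deg S lam (fun i hi => hl0 i (hS hi))
          (fun i hi j hj hij => hnp i (hS hi) j (hS hj) hij) m f₁ (fun i hi => ?_) hf1 α h1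
        have e1 := hdvd i (hS hi)
        have e2 : lam i 0 ≠ 0 := by
          have := hSq i hi
          simpa [Fin.sum_univ_two] using this
        rw [hf0, mul_zero, zero_sub, dvd_neg] at e1
        have e3 : f₁ = C (lam i 0)⁻¹ * (C (lam i 0) * f₁) := by
          rw [← mul_assoc, ← C_mul, inv_mul_cancel₀ e2, C_1, one_mul]
        rw [e3]
        exact Dvd.dvd.mul_left e1 _
    · obtain ⟨c, hc⟩ := hrat f₀ f₁ h0 h1 hf0 hJ0
      refine ⟨![c, -1], ?_, fun S hS hSq => ?_⟩
      · intro hcon
        have := congrFun hcon 1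
        simp at this
      · refine lin_pow_deg S lam (fun i hi => hl0 i (hS hi))
          (fun i hi j hj hij => hnp i (hS hi) j (hS hj) hij) m f₀ (fun i hi => ?_) hf0 α h0
        have e1 := hdvd i (hS hi)
        have e2 : lam i 0 * c - lam i 1 ≠ 0 := by
          have := hSq i hi
          rw [Fin.sum_univ_two] at this
          simpa [sub_eq_add_neg] using this
        have e4 : C (lam i 1) * f₀ - C (lam i 0) * f₁ = -(C (lam i 0 * c - lam i 1) * f₀) := by
          rw [hc]
          simp only [C_mul, C_sub]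
          ring
        rw [e4, dvd_neg] at e1
        have e3 : f₀ = C (lam i 0 * c - lam i 1)⁻¹ * (C (lam i 0 * c - lam i 1) * f₀) := by
          rw [← mul_assoc, ← C_mul, inv_mul_cancel₀ e2, C_1, one_mul]
        rw [e3]
        exact Dvd.dvd.mul_left e1 _
  · left
    -- the degree is positive
    have hα : 1 ≤ α := by
      by_contra hcon
      apply hJ0
      have hα0 : α = 0 := by omega
      subst hα0
      have e1 : f₀ = C (coeff 0 f₀) := by
        rw [← totalDegree_eq_zero_iff_eq_C, totalDegree_zero_iff_isHomogeneous]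
        exact h0
      rw [hJ, e1, pderiv_C, pderiv_C, zero_mul, zero_mul, sub_zero]
    have hJh : J.IsHomogeneous ((α - 1) + (α - 1)) :=
      ((h0.pderiv).mul (h1.pderiv)).sub ((h0.pderiv).mul (h1.pderiv))
    constructor
    · have hd : ∀ i ∈ R, linf (lam i) ^ (m i - 1) ∣ J := by
        intro i hi
        set g := C (lam i 1) * f₀ - C (lam i 0) * f₁ with hg
        have d0 := two_dvd_pderiv (lam i) (m i) g (hdvd i hi) 0
        have d1 := two_dvd_pderiv (lam i) (m i) g (hdvd i hi) 1
        have g0 : pderiv 0 g = C (lam i 1) * pderiv 0 f₀ - C (lam i 0) * pderiv 0 f₁ := by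
          rw [hg, map_sub, pderiv_C_mul, pderiv_C_mul]
        have g1 : pderiv 1 g = C (lam i 1) * pderiv 1 f₀ - C (lam i 0) * pderiv 1 f₁ := by
          rw [hg, map_sub, pderiv_C_mul, pderiv_C_mul]
        obtain ⟨k, hk⟩ := Function.ne_iff.1 (hl0 i hi)
        rw [Pi.zero_apply] at hk
        have h2 : k = 0 ∨ k = 1 := by
          fin_cases k
          · left; rfl
          · right; rfl
        rcases h2 with rfl | rfl
        · have e1 : C (lam i 0) * J = pderiv 1 f₀ * pderiv 0 g - pderiv 0 f₀ * pderiv 1 g := by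
            rw [g0, g1, hJ]; ring
          have e2 : J = C (lam i 0)⁻¹ * (C (lam i 0) * J) := by
            rw [← mul_assoc, ← C_mul, inv_mul_cancel₀ hk, C_1, one_mul]
          rw [e2, e1]
          exact Dvd.dvd.mul_left (dvd_sub (Dvd.dvd.mul_left d0 _) (Dvd.dvd.mul_left d1 _)) _
        · have e1 : C (lam i 1) * J = pderiv 1 f₁ * pderiv 0 g - pderiv 0 f₁ * pderiv 1 g := by
            rw [g0, g1, hJ]; ring
          have e2 : J = C (lam i 1)⁻¹ * (C (lam i 1) * J) := by
            rw [← mul_assoc, ← C_mul, inv_mul_cancel₀ hk, C_1, one_mul]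
          rw [e2, e1]
          exact Dvd.dvd.mul_left (dvd_sub (Dvd.dvd.mul_left d0 _) (Dvd.dvd.mul_left d1 _)) _
      have := lin_pow_deg R lam hl0 hnp (fun i => m i - 1) J hd hJ0 _ hJh
      omega
    · intro hr
      have hrh : (X 0 * f₀ + X 1 * f₁).IsHomogeneous (1 + α) :=
        ((isHomogeneous_X K 0).mul h0).add ((isHomogeneous_X K 1).mul h1)
      have hd : ∀ i ∈ R, linf (lam i) ^ 1 ∣ X 0 * f₀ + X 1 * f₁ := by
        intro i hi
        rw [pow_one]
        have d0 : linf (lam i) ∣ C (lam i 1) * f₀ - C (lam i 0) * f₁ :=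
          dvd_trans (dvd_pow_self _ (by have := hm i hi; omega)) (hdvd i hi)
        have el : linf (lam i) = C (lam i 0) * X 0 + C (lam i 1) * X 1 := by
          rw [linf, Fin.sum_univ_two]
        obtain ⟨k, hk⟩ := Function.ne_iff.1 (hl0 i hi)
        rw [Pi.zero_apply] at hk
        have h2 : k = 0 ∨ k = 1 := by
          fin_cases k
          · left; rfl
          · right; rfl
        rcases h2 with rfl | rfl
        · have e1 : C (lam i 0) * (X 0 * f₀ + X 1 * f₁) =
              linf (lam i) * f₀ - X 1 * (C (lam i 1) * f₀ - C (lam i 0) * f₁) := by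
            rw [el]; ring
          have e2 : (X 0 * f₀ + X 1 * f₁ : MvPolynomial (Fin 2) K) =
              C (lam i 0)⁻¹ * (C (lam i 0) * (X 0 * f₀ + X 1 * f₁)) := by
            rw [← mul_assoc, ← C_mul, inv_mul_cancel₀ hk, C_1, one_mul]
          rw [e2, e1]
          exact Dvd.dvd.mul_left (dvd_sub (Dvd.dvd.mul_right dvd_rfl _) (Dvd.dvd.mul_left d0 _)) _
        · have e1 : C (lam i 1) * (X 0 * f₀ + X 1 * f₁) =
              linf (lam i) * f₁ + X 0 * (C (lam i 1) * f₀ - C (lam i 0) * f₁) := by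
            rw [el]; ring
          have e2 : (X 0 * f₀ + X 1 * f₁ : MvPolynomial (Fin 2) K) =
              C (lam i 1)⁻¹ * (C (lam i 1) * (X 0 * f₀ + X 1 * f₁)) := by
            rw [← mul_assoc, ← C_mul, inv_mul_cancel₀ hk, C_1, one_mul]
          rw [e2, e1]
          exact Dvd.dvd.mul_left (dvd_add (Dvd.dvd.mul_right dvd_rfl _) (Dvd.dvd.mul_left d0 _)) _
      have := lin_pow_deg R lam hl0 hnp (fun _ => 1) _ hd hr _ hrh
      rw [Finset.sum_const, smul_eq_mul, mul_one] at this
      omega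

end Geproci
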