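import Pool.Agent.Work.MP_efd9e3_ag.Co.LinePts
import Pool.Agent.Work.MP_efd9e3_ag.Gp.KComb
import Pool.Agent.Work.MP_efd9e3_ag.Gp.STwo
import Pool.Agent.Work.MP_efd9e3_ag.Gp.SThree

/-! MODULE KCore (MP_efd9e3_ag/Gp), helper69.  The main contradiction. -/

set_option autoImplicit false

universe u

open MvPolynomial

namespace Geproci

variable {K : Type*} [Field K] {N M e s r κ α β δ : ℕ}

theorem compL_C (φ : (Fin N → K) →ₗ[K] (Fin M → K)) (a : K) :
    compL φ (C a) = (C a : MvPolynomial (Fin N) K) := by
  unfold compL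
  rw [algHom_C]
  rfl

theorem k_core [IsAlgClosed K] [CharZero K] (hN : 2 ≤ N) (hδ : (N = 2 ∧ δ = 1) ∨ (3 ≤ N ∧ δ = 0))
    (hPS : PStat.{u} K N δ) {ι : Type u} [Fintype ι]
    (hs : 1 ≤ s) (y : ι → Fin (N+1) → K) (c : ι → MvPolynomial (Fin (N+1)) K)
    (l : Fin e → Fin (N+1) → K) (h : KSys s r e κ y c l) (A : MvPolynomial (Fin (N+1) ⊕ Fin (N+1)) K)
    (hA0 : A ≠ 0)
    (hA : BiH α β A) (hi : BInv A) (hAz : ∀ z, xp (y z) A = 0) (h3 : 3 * β ≤ s + 4)
    (hcol : ∀ T : Finset ι, Module.finrank K (Submodule.span K (y '' (T : Set ι))) = 2 →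
      T.card + β ≤ s + 2)
    (hmin : ∀ i, ∃ z, ¬ linf (l i) ∣ c z) (hcon : β ≤ α + κ) (z : ι)
    (hρ : ∃ u, rho A (y z) u ≠ 0) : False := by
  classical
  have hinf : Infinite K := IsAlgClosed.instInfinite
  have hle := bi_le A hA hi hA0
  have hβ := bi_pos A hA0 hA hi (y z) (hAz z)
  obtain ⟨hy0, -⟩ := ind_pairs s hs Finset.univ y (fun a ha z _ => h.ind a ha z)
  have hyz := hy0 z (Finset.mem_univ _)
  obtain ⟨P, hPc, hP0, -, hPo⟩ := k_poles y c l h z
  obtain ⟨R, hRP, hRn, hRr⟩ := reps l h.lne P
  have hdeg := h.deg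
  have hRc : P.card ≤ ∑ i ∈ R, (par l i).card :=
    reps_card l P R P (Finset.Subset.refl _) hRr R (fun i hi _ _ _ => hi)
  set μ : Fin e → ℕ := fun i => (par l i).card + (α + κ - β) + δ with hμ
  have hρh : ∀ u, (rho A (y z) u).IsHomogeneous α := by
    intro u
    obtain ⟨β', hβ'⟩ : ∃ β', β = β' + 1 := ⟨β - 1, by omega⟩
    subst hβ'
    exact rho_hom hA _ _
  have hdvd : ∀ i ∈ R, ∀ u : Fin (N+1) → K, ∑ k, l i k * u k = 0 →
      linf (l i) ^ μ i ∣ rho A (y z) u := by
    intro i hiR u hu
    refine k_div hPS hs y c l h A hA hi hAz h3 hcol i (hmin i) z (hP0 i (hRP hiR)) u hu (μ i) ?_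
    have h1 : μ i = (par l i).card + (α + κ - β) + δ := rfl
    omega
  -- the radial part
  set rr : MvPolynomial (Fin (N+1)) K := ∑ j, X j * xp (y z) (pderiv (Sum.inr j) A) with hrr
  have hrre : ∀ x, eval x rr = eval x (rho A (y z) x) := by
    intro x
    rw [hrr, map_sum, eval_rho]
    refine Finset.sum_congr rfl fun j _ => ?_
    rw [map_mul, eval_X, eval_xp]
  obtain ⟨x, u, hxu, hxq, hxl, hxm, hxi⟩ := slice (by omega) A (y z) hyz hρ (if rr = 0 then 1 else rr)
    (by split_ifs with h0; exacts [one_ne_zero, h0]) l h.lne R hRn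
  have hμ1 : ∀ i ∈ R, 1 ≤ μ i := by
    intro i _
    have h1 : μ i = (par l i).card + (α + κ - β) + δ := rfl
    have := par_pos l i
    omega
  have hself : rho A (y z) (y z) = 0 := rho_self hA _ (hAz z)
  -- a lower bound for the number of the poles
  obtain ⟨hκs, -⟩ := k_lineR hs (by omega) y c l h z hcol P hP0 hPo R hRr x (fun a b hab => by
    have := hxi a b 0 (fun k => by rw [zero_mul, add_zero]; exact hab k)
    exact ⟨this.1, this.2.1⟩) R (fun i hi _ => hi)
  have hRne : 1 ≤ R.card := by
    rw [Nat.one_le_iff_ne_zero]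
    intro h0
    rw [Finset.card_eq_zero] at h0
    rw [h0, Finset.sum_empty] at hRc
    omega
  have hsumμ : ∀ S : Finset (Fin e), ∑ i ∈ S, μ i = ∑ i ∈ S, (par l i).card + S.card * (α + κ - β + δ) := by
    intro S
    rw [hμ]
    simp only [add_assoc]
    rw [Finset.sum_add_distrib, Finset.sum_const, smul_eq_mul]
  by_cases hcase : rr = 0 ∧ 3 ≤ N
  · -- three-dimensional slices
    obtain ⟨hr0, hN3⟩ := hcase
    have hδ0 : δ = 0 := by omega
    obtain ⟨a₄, ha₄, ha₄w⟩ := ann_ex (![y z, x, u] : Fin 3 → Fin (N+1) → K) (by omega)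
    have ha₄z : ∑ k, a₄ k * y z k = 0 := ha₄w 0
    have ha₄x : ∑ k, a₄ k * x k = 0 := ha₄w 1
    have ha₄u : ∑ k, a₄ k * u k = 0 := ha₄w 2
    obtain ⟨v, hv⟩ := avoid ({a₄} : Finset (Fin (N+1) → K)) (by
      intro a ha
      rw [Finset.mem_singleton] at ha
      rw [ha]
      exact ha₄)
    have hv' := hv a₄ (Finset.mem_singleton_self _)
    set φ := comb (![x, u, v] : Fin 3 → Fin (N+1) → K) with hφ
    have hφk : ∀ (a : Fin 3 → K) k, φ a k = a 0 * x k + a 1 * u k + a 2 * v k := by
      intro a k
      rw [hφ, comb_apply, Fin.sum_univ_three]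
      rfl
    set lam : Fin e → Fin 3 → K := fun i t => ∑ k, l i k * (![x, u, v] : Fin 3 → Fin (N+1) → K) t k
      with hlam
    have hlam0 : ∀ i, lam i 0 = ∑ k, l i k * x k := fun i => rfl
    have hlam1 : ∀ i, lam i 1 = ∑ k, l i k * u k := fun i => rfl
    have hcl : ∀ i, compL φ (linf (l i)) = linf (lam i) := fun i => compL_comb _ _
    have hdotφ : ∀ i (q : Fin 3 → K), ∑ k, l i k * φ q k = ∑ k, lam i k * q k := fun i q => dot_comb _ _ _
    set f : Fin 3 → MvPolynomial (Fin 3) K := ![compL φ (rho A (y z) x), compL φ (rho A (y z) u),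
      compL φ (rho A (y z) v)] with hf
    have hf0 : f 0 = compL φ (rho A (y z) x) := rfl
    have hf1 : f 1 = compL φ (rho A (y z) u) := rfl
    have hf2 : f 2 = compL φ (rho A (y z) v) := rfl
    have hcomb : ∀ q : Fin 3 → K, C (q 0) * f 0 + C (q 1) * f 1 + C (q 2) * f 2 =
        compL φ (rho A (y z) (φ q)) := by
      intro q
      have e1 : φ q = fun k => 1 * (q 0 * x k + q 1 * u k) + q 2 * v k := by
        funext k
        rw [hφk]
        ring
      have e2 := rho_lin A (y z) (fun k => q 0 * x k + q 1 * u k) v 1 (q 2)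
      have e3 := rho_lin A (y z) x u (q 0) (q 1)
      rw [hf0, hf1, hf2, e1, e2, e3]
      simp only [map_add, map_mul, map_one, one_mul, compL_C]
    have hxf : X 0 * f 0 + X 1 * f 1 + X 2 * f 2 = 0 := by
      apply MvPolynomial.funext
      intro q
      have e1 := congrArg (eval q) (hcomb q)
      simp only [map_add, map_mul, eval_C, eval_X] at e1 ⊢
      rw [e1, map_zero, eval_compL, ← hrre, hr0, map_zero]
    rcases s_three α f (fun k => by
        fin_cases k
        · exact compL_hom _ _ _ (hρh _)
        · exact compL_hom _ _ _ (hρh _)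
        · exact compL_hom _ _ _ (hρh _)) hxf ⟨1, by
        intro h0
        apply hxu
        have e1 := eval_compL φ (rho A (y z) u) (Pi.single 0 1)
        rw [← hf1, h0, map_zero] at e1
        rw [e1]
        congr 2
        rw [hφ, comb_single]
        rfl⟩ R lam (fun i hi h0 => hxl i hi (by rw [← hlam0, h0, Pi.zero_apply]))
        (fun i hi j hj hij a ha => hxm i hi j hj hij (by
          rw [← hlam0, ← hlam1, ← hlam0, ← hlam1, ha, Pi.smul_apply, Pi.smul_apply, smul_eq_mul,
            smul_eq_mul]
          ring)) μ hμ1 (fun i hi q hq => by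
          rw [hcomb]
          have e1 := hdvd i hi (φ q) (by rw [hdotφ, hq])
          have e2 := map_dvd (compL φ) e1
          rwa [map_pow, hcl] at e2) with h1 | ⟨q, hq0, hq⟩
    · rw [hsumμ, hδ0, add_zero] at h1
      have h2 : (α + κ - β) ≤ R.card * (α + κ - β) := Nat.le_mul_of_pos_left _ hRne
      omega
    · have h1 := k_lineR (β := β) hs (by omega) y c l h z hcol P hP0 hPo R hRr (φ q) (fun a b hab => by
        have e1 : ∀ k, a * y z k + (b * q 0) * x k + (b * q 1) * u k + (b * q 2) * v k = 0 := by
          intro k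
          have := hab k
          rw [hφk] at this
          rw [← this]
          ring
        have e2 : b * q 2 = 0 := by
          have e3 : ∑ k, a₄ k * (a * y z k + (b * q 0) * x k + (b * q 1) * u k + (b * q 2) * v k) = 0 :=
            Finset.sum_eq_zero fun k _ => by rw [e1 k, mul_zero]
          have e4 : ∑ k, a₄ k * (a * y z k + (b * q 0) * x k + (b * q 1) * u k + (b * q 2) * v k) =
              a * (∑ k, a₄ k * y z k) + (b * q 0) * (∑ k, a₄ k * x k) +
                (b * q 1) * (∑ k, a₄ k * u k) + (b * q 2) * (∑ k, a₄ k * v k) := by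
            rw [Finset.mul_sum, Finset.mul_sum, Finset.mul_sum, Finset.mul_sum,
              ← Finset.sum_add_distrib, ← Finset.sum_add_distrib, ← Finset.sum_add_distrib]
            exact Finset.sum_congr rfl fun k _ => by ring
          rw [e4, ha₄z, ha₄x, ha₄u, mul_zero, mul_zero, mul_zero, zero_add, zero_add, zero_add] at e3
          exact (mul_eq_zero.1 e3).resolve_right hv'
        have e5 := hxi a (b * q 0) (b * q 1) (fun k => by
          have := e1 k
          rw [e2, zero_mul, add_zero] at this
          exact this)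
        refine ⟨e5.1, ?_⟩
        by_contra hb
        apply hq0
        funext i
        fin_cases i
        · exact (mul_eq_zero.1 e5.2.1).resolve_left hb
        · exact (mul_eq_zero.1 e5.2.2).resolve_left hb
        · exact (mul_eq_zero.1 e2).resolve_left hb)
        (R.filter fun i => ∑ k, lam i k * q k ≠ 0) (fun i hi hi' => by
          rw [Finset.mem_filter]
          refine ⟨hi, ?_⟩
          rw [← hdotφ]
          exact hi')
      have h2 := hq (R.filter fun i => ∑ k, lam i k * q k ≠ 0) (Finset.filter_subset _ _)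
        (fun i hi => (Finset.mem_filter.1 hi).2)
      rw [hsumμ] at h2
      omega
  · -- two-dimensional slices
    set φ := comb (![x, u] : Fin 2 → Fin (N+1) → K) with hφ
    have hφk : ∀ (a : Fin 2 → K) k, φ a k = a 0 * x k + a 1 * u k := by
      intro a k
      rw [hφ, comb_apply, Fin.sum_univ_two]
      rfl
    set lam : Fin e → Fin 2 → K := fun i t => ∑ k, l i k * (![x, u] : Fin 2 → Fin (N+1) → K) t k
      with hlam
    have hlam0 : ∀ i, lam i 0 = ∑ k, l i k * x k := fun i => rfl
    have hlam1 : ∀ i, lam i 1 = ∑ k, l i k * u k := fun i => rfl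
    have hcl : ∀ i, compL φ (linf (l i)) = linf (lam i) := fun i => compL_comb _ _
    have hdotφ : ∀ i (q : Fin 2 → K), ∑ k, l i k * φ q k = ∑ k, lam i k * q k := fun i q => dot_comb _ _ _
    have hcomb : ∀ q : Fin 2 → K, C (q 0) * compL φ (rho A (y z) x) + C (q 1) * compL φ (rho A (y z) u) =
        compL φ (rho A (y z) (φ q)) := by
      intro q
      have e1 : φ q = fun k => q 0 * x k + q 1 * u k := by
        funext k
        rw [hφk]
      have e3 := rho_lin A (y z) x u (q 0) (q 1)
      rw [e1, e3]
      simp only [map_add, map_mul, compL_C]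
    have hr01 : ∀ t, eval t (compL φ rr) = eval t (X 0 * compL φ (rho A (y z) x) +
        X 1 * compL φ (rho A (y z) u)) := by
      intro q
      have e1 := congrArg (eval q) (hcomb q)
      simp only [map_add, map_mul, eval_C, eval_X] at e1 ⊢
      rw [e1, eval_compL, eval_compL, ← hrre]
    rcases s_two α (compL φ (rho A (y z) x)) (compL φ (rho A (y z) u)) (compL_hom _ _ _ (hρh _))
        (compL_hom _ _ _ (hρh _)) (Or.inr (by
        intro h0
        apply hxu
        have e1 := eval_compL φ (rho A (y z) u) (Pi.single 0 1)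
        rw [h0, map_zero] at e1
        rw [e1]
        congr 2
        rw [hφ, comb_single]
        rfl)) R lam (fun i hi h0 => hxl i hi (by rw [← hlam0, h0, Pi.zero_apply]))
        (fun i hi j hj hij a ha => hxm i hi j hj hij (by
          rw [← hlam0, ← hlam1, ← hlam0, ← hlam1, ha, Pi.smul_apply, Pi.smul_apply, smul_eq_mul,
            smul_eq_mul]
          ring)) μ hμ1 (fun i hi => by
          have e0 := hcomb ![lam i 1, - lam i 0]
          have e1 := hdvd i hi (φ ![lam i 1, - lam i 0]) (by
            rw [hdotφ, Fin.sum_univ_two]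
            simp only [Matrix.cons_val_zero, Matrix.cons_val_one]
            ring)
          have e2 := map_dvd (compL φ) e1
          rw [map_pow, hcl, ← e0] at e2
          simp only [Matrix.cons_val_zero, Matrix.cons_val_one, C_neg, neg_mul, ← sub_eq_add_neg] at e2
          exact e2) with ⟨h1, h1'⟩ | ⟨q, hq0, hq⟩
    · have h2 : (α + κ - β) ≤ R.card * (α + κ - β) := Nat.le_mul_of_pos_left _ hRne
      have h4 : ∑ i ∈ R, (μ i - 1) + R.card = ∑ i ∈ R, μ i := by
        rw [Finset.card_eq_sum_ones, ← Finset.sum_add_distrib]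
        refine Finset.sum_congr rfl fun i hi => ?_
        have := hμ1 i hi
        omega
      rw [hsumμ] at h4
      rcases hδ with ⟨hN2, hδ1⟩ | ⟨hN3, hδ0⟩
      · rw [hδ1, mul_add, mul_one] at h4
        omega
      · have hr0 : rr ≠ 0 := fun h0 => hcase ⟨h0, hN3⟩
        have hlt : α ≠ β := by
          intro hαβ
          apply hr0
          apply MvPolynomial.funext
          intro x
          rw [map_zero, hrre, eval_rho]
          subst hαβ
          exact bi_eq A hA hi x (y z)
        have h5 := h1' (by
          intro h0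
          rw [if_neg hr0] at hxq
          apply hxq
          have e1 := hr01 (Pi.single 0 1)
          rw [h0, map_zero, eval_compL] at e1
          rw [← e1]
          congr 2
          rw [hφ, comb_single]
          rfl)
        rw [hδ0, add_zero] at h4
        omega
    · have h1 := k_lineR (β := β) hs (by omega) y c l h z hcol P hP0 hPo R hRr (φ q) (fun a b hab => by
        have e5 := hxi a (b * q 0) (b * q 1) (fun k => by
          have := hab k
          rw [hφk] at this
          rw [← this]
          ring)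
        refine ⟨e5.1, ?_⟩
        by_contra hb
        apply hq0
        funext i
        fin_cases i
        · exact (mul_eq_zero.1 e5.2.1).resolve_left hb
        · exact (mul_eq_zero.1 e5.2.2).resolve_left hb)
        (R.filter fun i => ∑ k, lam i k * q k ≠ 0) (fun i hi hi' => by
          rw [Finset.mem_filter]
          refine ⟨hi, ?_⟩
          rw [← hdotφ]
          exact hi')
      have h2 := hq (R.filter fun i => ∑ k, lam i k * q k ≠ 0) (Finset.filter_subset _ _)
        (fun i hi => (Finset.mem_filter.1 hi).2)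
      rw [hsumμ] at h2
      rcases hδ with ⟨hN2, hδ1⟩ | ⟨hN3, hδ0⟩
      · have h5 : 1 ≤ (R.filter fun i => ∑ k, lam i k * q k ≠ 0).card := by
          rw [Nat.one_le_iff_ne_zero]
          intro h0
          rw [Finset.card_eq_zero] at h0
          rw [h0, Finset.sum_empty] at h1
          omega
        rw [hδ1, mul_add, mul_one] at h2
        omega
      · have hr0 : rr ≠ 0 := fun h0 => hcase ⟨h0, hN3⟩
        have hlt : α ≠ β := by
          intro hαβ
          apply hr0
          apply MvPolynomial.funext
          intro x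
          rw [map_zero, hrre, eval_rho]
          subst hαβ
          exact bi_eq A hA hi x (y z)
        omega

end Geproci
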