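import Pool.Agent.Work.MP_efd9e3_ag.Co.QDefs

/-! MODULE KDefs (MP_efd9e3_ag/Gp), helper69.  Systems of excess `k`. -/

set_option autoImplicit false

open MvPolynomial

namespace Geproci

variable {K : Type*} [Field K] {M : ℕ} {ι : Type*}

/-- A system of relations of excess `k`: as `QSys`, without the condition that the points span the space, and with
degrees `e + 2 + k = r + s + M`. -/
structure KSys [Fintype ι] (s r e k : ℕ) (y : ι → Fin M → K) (c : ι → MvPolynomial (Fin M) K)
    (l : Fin e → Fin M → K) : Prop where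
  hom : ∀ z, (c z).IsHomogeneous r
  ne : ∀ z, c z ≠ 0
  lne : ∀ j, l j ≠ 0
  rel : ∀ lam p : Fin M → K, ∑ k, lam k * p k = 0 →
    ∑ z, eval p (c z) * (∑ k, lam k * y z k) ^ s = 0
  ind : ∀ a : ι → K, (∀ lam : Fin M → K, ∑ z, a z * (∑ k, lam k * y z k) ^ s = 0) → ∀ z, a z = 0
  flat : ∀ z, prodL l * dirP (y z) (c z) = c z * dirP (y z) (prodL l)
  deg : e + 2 + k = r + s + M

theorem QSys.toK [Fintype ι] {s r e : ℕ} {y : ι → Fin M → K} {c : ι → MvPolynomial (Fin M) K}
    {l : Fin e → Fin M → K} (h : QSys s r e y c l) : KSys s r e 0 y c l :=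
  ⟨h.hom, h.ne, h.lne, h.rel, h.ind, h.flat, h.deg⟩

end Geproci
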