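import Pool.Agent.Work.MP_efd9e3_ag.Co.LinPar
import Pool.Agent.Work.MP_efd9e3_ag.Co.Line

/-! MODULE LinPow (MP_efd9e3_ag/Gp), helper69.  Products of powers of linear forms; two uniqueness lemmas. -/

set_option autoImplicit false

open MvPolynomial

namespace Geproci

variable {K : Type*} [Field K] {N : ℕ} {κ : Type*}

theorem linf_single (a : Fin N → K) (j : Fin N) : eval (Pi.single j 1) (linf a) = a j := by
  classical
  rw [eval_linf, Finset.sum_eq_single j]
  · rw [Pi.single_eq_same, mul_one]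
  · intro b _ hb
    rw [Pi.single_eq_of_ne hb, mul_zero]
  · simp

theorem linf_dvd_linf (a b : Fin N → K) (h : linf a ∣ linf b) : ∃ c : K, b = c • a := by
  obtain ⟨q, hq⟩ := h
  by_cases hb : linf b = 0
  · refine ⟨0, ?_⟩
    funext j
    rw [← linf_single b j, hb, map_zero, zero_smul, Pi.zero_apply]
  · have hbd := (linf_hom b).totalDegree hb
    have ha : linf a ≠ 0 := by
      intro h0
      rw [h0, zero_mul] at hq
      exact hb hq
    have hq0 : q ≠ 0 := by
      intro h0
      rw [h0, mul_zero] at hq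
      exact hb hq
    have had := (linf_hom a).totalDegree ha
    have hqd : q.totalDegree = 0 := by
      have h1 := totalDegree_mul_of_isDomain ha hq0
      rw [← hq] at h1
      omega
    rw [totalDegree_eq_zero_iff_eq_C] at hqd
    refine ⟨coeff 0 q, ?_⟩
    funext j
    rw [← linf_single b j, hq, map_mul, linf_single, hqd, eval_C, Pi.smul_apply, smul_eq_mul,
      coeff_C, if_pos rfl, mul_comm]

theorem lin_rel (a b : Fin N → K) (ha : a ≠ 0) (hb : b ≠ 0) (hab : ∀ c : K, b ≠ c • a) (m n : ℕ) :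
    IsRelPrime (linf a ^ m) (linf b ^ n) := by
  apply IsRelPrime.pow
  rw [(linf_irr a ha).isRelPrime_iff_not_dvd]
  intro h
  obtain ⟨c, hc⟩ := linf_dvd_linf a b h
  exact hab c hc

theorem lin_pow_prod (R : Finset κ) (lam : κ → Fin N → K) (hl0 : ∀ i ∈ R, lam i ≠ 0)
    (hnp : ∀ i ∈ R, ∀ j ∈ R, i ≠ j → ∀ c : K, lam j ≠ c • lam i) (m : κ → ℕ)
    (f : MvPolynomial (Fin N) K) (hf : ∀ i ∈ R, linf (lam i) ^ m i ∣ f) :
    ∏ i ∈ R, linf (lam i) ^ m i ∣ f := by
  apply Finset.prod_dvd_of_isRelPrime
  · intro i hi j hj hij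
    exact lin_rel (lam i) (lam j) (hl0 i hi) (hl0 j hj) (hnp i hi j hj hij) _ _
  · exact hf

theorem lin_pow_deg (R : Finset κ) (lam : κ → Fin N → K) (hl0 : ∀ i ∈ R, lam i ≠ 0)
    (hnp : ∀ i ∈ R, ∀ j ∈ R, i ≠ j → ∀ c : K, lam j ≠ c • lam i) (m : κ → ℕ)
    (f : MvPolynomial (Fin N) K) (hf : ∀ i ∈ R, linf (lam i) ^ m i ∣ f) (hf0 : f ≠ 0) (α : ℕ)
    (hfh : f.IsHomogeneous α) : ∑ i ∈ R, m i ≤ α := by
  obtain ⟨g, hg⟩ := lin_pow_prod R lam hl0 hnp m f hf
  have hg0 : g ≠ 0 := by
    rintro rfl
    rw [mul_zero] at hg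
    exact hf0 hg
  have hP : (∏ i ∈ R, linf (lam i) ^ m i).IsHomogeneous (∑ i ∈ R, m i) := by
    refine IsHomogeneous.prod _ _ _ fun i _ => ?_
    have := (linf_hom (lam i)).pow (m i)
    rwa [one_mul] at this
  have hP0 : ∏ i ∈ R, linf (lam i) ^ m i ≠ 0 := by
    intro h0
    rw [h0, zero_mul] at hg
    exact hf0 hg
  have h1 := totalDegree_mul_of_isDomain hP0 hg0
  rw [← hg, hfh.totalDegree hf0, hP.totalDegree hP0] at h1
  omega

/-- A first order system has only one solution. -/
theorem uni_zero [CharZero K] [Fintype κ] (D : Polynomial K) (hD : D.eval 0 ≠ 0)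
    (Ψ : κ → Polynomial K) (h0 : ∀ i, (Ψ i).eval 0 = 0)
    (h : ∀ i, ∃ a : κ → Polynomial K, D * Polynomial.derivative (Ψ i) = ∑ j, a j * Ψ j) (i : κ) :
    Ψ i = 0 := by
  have key : ∀ k : ℕ, ∀ i, Polynomial.X ^ k ∣ Ψ i := by
    intro k
    induction k with
    | zero => intro i; rw [pow_zero]; exact one_dvd _
    | succ k ih =>
      intro i
      obtain ⟨a, ha⟩ := h i
      have h1 : Polynomial.X ^ k ∣ D * Polynomial.derivative (Ψ i) := by
        rw [ha]
        exact Finset.dvd_sum fun j _ => Dvd.dvd.mul_left (ih j) _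
      have h2 : Polynomial.X ^ k ∣ Polynomial.derivative (Ψ i) := by
        refine Polynomial.prime_X.pow_dvd_of_dvd_mul_left k ?_ h1
        rw [Polynomial.X_dvd_iff, Polynomial.coeff_zero_eq_eval_zero]
        exact hD
      rw [Polynomial.X_pow_dvd_iff] at h2 ⊢
      intro d hd
      rcases Nat.eq_zero_or_pos d with rfl | hd0
      · rw [Polynomial.coeff_zero_eq_eval_zero]
        exact h0 i
      · obtain ⟨d, rfl⟩ : ∃ d', d = d' + 1 := ⟨d - 1, by omega⟩
        have h3 := h2 d (by omega)
        rw [Polynomial.coeff_derivative] at h3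
        refine (mul_eq_zero.1 h3).resolve_right ?_
        exact_mod_cast Nat.succ_ne_zero d
  ext d
  have h1 := (Polynomial.X_pow_dvd_iff.1 (key (d + 1) i)) d (by omega)
  rw [h1, Polynomial.coeff_zero]

theorem ratio_const [CharZero K] (f g : MvPolynomial (Fin N) K) (hf : f ≠ 0)
    (h : ∀ v, f * dirP v g = g * dirP v f) : ∃ c : K, g = C c * f := by
  have hinf : Infinite K := inferInstance
  obtain ⟨x, hx⟩ : ∃ x, eval x f ≠ 0 := by
    by_contra hcon
    push Not at hcon
    exact hf (MvPolynomial.funext fun x => by rw [hcon x, map_zero])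
  refine ⟨eval x g / eval x f, ?_⟩
  set c := eval x g / eval x f with hc
  set H := g - C c * f with hH
  suffices hH0 : H = 0 by
    rw [hH, sub_eq_zero] at hH0
    exact hH0
  apply MvPolynomial.funext
  intro w
  rw [map_zero]
  set v : Fin N → K := fun k => w k - x k with hv
  have h1 := uni_zero (κ := Unit) (line x v f) (by
      rw [eval_line]
      simpa using hx) (fun _ => line x v H) (fun _ => by
      rw [eval_line]
      have : (fun k => x k + 0 * v k) = x := by funext k; ring
      rw [this, hH, map_sub, map_mul, eval_C, hc, div_mul_cancel₀ _ hx, sub_self]) (fun _ => by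
      refine ⟨fun _ => Polynomial.derivative (line x v f), ?_⟩
      rw [Finset.univ_unique, Finset.sum_singleton, derivative_line, derivative_line, ← map_mul,
        ← map_mul]
      congr 1
      have h2 : dirP v H = dirP v g - C c * dirP v f := by
        have h3 : g = H + C c * f := by rw [hH]; ring
        have h4 : dirP v g = dirP v H + C c * dirP v f := by
          conv_lhs => rw [h3]
          rw [dirP_add, dirP_mul, dirP_C, zero_mul, zero_add]
        rw [h4]; ring
      rw [h2, hH]
      linear_combination h v) ()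
  have h2 := congrArg (Polynomial.eval 1) h1
  rw [eval_line, Polynomial.eval_zero] at h2
  rw [← h2]
  congr 2
  funext k
  rw [hv]
  ring

end Geproci
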