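import Pool.Agent.Work.MP_efd9e3_ag.Gp.KStep
import Pool.Agent.Work.MP_efd9e3_ag.Gp.LinPow

/-! MODULE KSlice (MP_efd9e3_ag/Gp), helper69.  Representatives and the choice of a generic slice. -/

set_option autoImplicit false

open MvPolynomial

namespace Geproci

variable {K : Type*} [Field K] {N M e s r κ α β δ : ℕ}

theorem reps (l : Fin e → Fin M → K) (hl : ∀ j, l j ≠ 0) (P : Finset (Fin e)) :
    ∃ R ⊆ P, (∀ i ∈ R, ∀ j ∈ R, i ≠ j → ∀ c : K, l j ≠ c • l i) ∧
      ∀ j ∈ P, ∃ i ∈ R, ∃ c : K, l j = c • l i := by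
  classical
  obtain ⟨R, hR, hmax⟩ := Finset.exists_max_image
    (P.powerset.filter fun R => ∀ i ∈ R, ∀ j ∈ R, i ≠ j → ∀ c : K, l j ≠ c • l i) Finset.card
    ⟨∅, by simp⟩
  rw [Finset.mem_filter, Finset.mem_powerset] at hR
  refine ⟨R, hR.1, hR.2, fun j hj => ?_⟩
  by_contra hcon
  push Not at hcon
  have hjR : j ∉ R := fun hjR => hcon j hjR 1 (by rw [one_smul])
  have hj2 : ∀ i ∈ R, ∀ c : K, l i ≠ c • l j := by
    intro i hi c
    by_cases hc : c = 0
    · rw [hc, zero_smul]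
      exact hl i
    · intro h1
      apply hcon i hi c⁻¹
      rw [h1, smul_smul, inv_mul_cancel₀ hc, one_smul]
  have h1 := hmax (insert j R) (by
    rw [Finset.mem_filter, Finset.mem_powerset]
    refine ⟨Finset.insert_subset hj hR.1, ?_⟩
    intro a ha b hb hab c
    rw [Finset.mem_insert] at ha hb
    rcases ha with rfl | ha
    · rcases hb with rfl | hb
      · exact absurd rfl hab
      · exact hj2 b hb c
    · rcases hb with rfl | hb
      · exact hcon a ha c
      · exact hR.2 a ha b hb hab c)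
  rw [Finset.card_insert_of_notMem hjR] at h1
  omega

/-- the weight of the representatives -/
theorem reps_card (l : Fin e → Fin M → K) (P R Q : Finset (Fin e)) (hQ : Q ⊆ P)
    (hR : ∀ j ∈ P, ∃ i ∈ R, ∃ c : K, l j = c • l i) (S : Finset (Fin e))
    (hS : ∀ i ∈ R, ∀ j ∈ Q, (∃ c : K, l j = c • l i) → i ∈ S) :
    Q.card ≤ ∑ i ∈ S, (par l i).card := by
  classical
  have h1 : Q ⊆ S.biUnion fun i => par l i := by
    intro j hj
    obtain ⟨i, hi, c, hc⟩ := hR j (hQ hj)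
    rw [Finset.mem_biUnion]
    exact ⟨i, hS i hi j hj ⟨c, hc⟩, (mem_par l i j).2 ⟨c, hc⟩⟩
  exact (Finset.card_le_card h1).trans Finset.card_biUnion_le

theorem par_pos (l : Fin e → Fin M → K) (i : Fin e) : 1 ≤ (par l i).card :=
  Finset.card_pos.2 ⟨i, (mem_par l i i).2 ⟨1, by rw [one_smul]⟩⟩

/-- a vector outside of finitely many hyperplanes -/
theorem avoid [Infinite K] (F : Finset (Fin M → K)) (hF : ∀ a ∈ F, a ≠ 0) :
    ∃ u : Fin M → K, ∀ a ∈ F, ∑ k, a k * u k ≠ 0 := by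
  classical
  have h1 : ∏ a ∈ F, linf a ≠ 0 := Finset.prod_ne_zero_iff.2 fun a ha => linf_ne_zero a (hF a ha)
  obtain ⟨u, hu⟩ : ∃ u, eval u (∏ a ∈ F, linf a) ≠ 0 := by
    by_contra hcon
    push Not at hcon
    exact h1 (MvPolynomial.funext fun x => by rw [hcon x, map_zero])
  rw [map_prod] at hu
  refine ⟨u, fun a ha => ?_⟩
  have := Finset.prod_ne_zero_iff.1 hu a ha
  rwa [eval_linf] at this

/-- a nonzero linear form which vanishes at given vectors -/
theorem ann_ex {d : ℕ} (w : Fin d → Fin M → K) (hd : d < M) :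
    ∃ a : Fin M → K, a ≠ 0 ∧ ∀ i, ∑ k, a k * w i k = 0 := by
  classical
  let L : (Fin M → K) →ₗ[K] (Fin d → K) :=
    LinearMap.pi fun i => ∑ k, w i k • LinearMap.proj k
  have hL : ∀ a i, L a i = ∑ k, a k * w i k := by
    intro a i
    simp only [L, LinearMap.pi_apply, LinearMap.sum_apply, LinearMap.smul_apply, LinearMap.proj_apply,
      smul_eq_mul]
    exact Finset.sum_congr rfl fun k _ => mul_comm _ _
  have h1 : LinearMap.ker L ≠ ⊥ := LinearMap.ker_ne_bot_of_finrank_lt (by simpa using hd)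
  obtain ⟨a, ha, ha0⟩ := (Submodule.ne_bot_iff _).1 h1
  refine ⟨a, ha0, fun i => ?_⟩
  rw [← hL, LinearMap.mem_ker.1 ha, Pi.zero_apply]

/-- the choice of a generic slice -/
theorem slice [Infinite K] (hM : 3 ≤ M) (A : MvPolynomial (Fin M ⊕ Fin M) K) (z : Fin M → K)
    (hz : z ≠ 0) (hρ : ∃ u, rho A z u ≠ 0) (q : MvPolynomial (Fin M) K) (hq : q ≠ 0)
    (l : Fin e → Fin M → K) (hl : ∀ j, l j ≠ 0) (R : Finset (Fin e))
    (hR : ∀ i ∈ R, ∀ j ∈ R, i ≠ j → ∀ c : K, l j ≠ c • l i) :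
    ∃ x u : Fin M → K, eval x (rho A z u) ≠ 0 ∧ eval x q ≠ 0 ∧ (∀ i ∈ R, ∑ k, l i k * x k ≠ 0) ∧
      (∀ i ∈ R, ∀ j ∈ R, i ≠ j → (∑ k, l i k * x k) * (∑ k, l j k * u k) -
        (∑ k, l j k * x k) * (∑ k, l i k * u k) ≠ 0) ∧
      ∀ a b c : K, (∀ k, a * z k + b * x k + c * u k = 0) → a = 0 ∧ b = 0 ∧ c = 0 := by
  classical
  obtain ⟨u₁, hu₁⟩ := hρ
  obtain ⟨a₁, ha₁, ha₁z⟩ := ann_ex (fun _ : Fin 1 => z) (by omega)
  obtain ⟨x, hx⟩ : ∃ x, eval x (rho A z u₁ * q * (∏ i ∈ R, linf (l i)) * linf a₁) ≠ 0 := by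
    by_contra hcon
    push Not at hcon
    have h1 : rho A z u₁ * q * (∏ i ∈ R, linf (l i)) * linf a₁ ≠ 0 :=
      mul_ne_zero (mul_ne_zero (mul_ne_zero hu₁ hq)
        (Finset.prod_ne_zero_iff.2 fun i _ => linf_ne_zero _ (hl i))) (linf_ne_zero _ ha₁)
    exact h1 (MvPolynomial.funext fun x => by rw [hcon x, map_zero])
  rw [map_mul, map_mul, map_mul, map_prod] at hx
  have hx1 := left_ne_zero_of_mul (left_ne_zero_of_mul (left_ne_zero_of_mul hx))
  have hx2 := right_ne_zero_of_mul (left_ne_zero_of_mul (left_ne_zero_of_mul hx))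
  have hx3 : ∀ i ∈ R, ∑ k, l i k * x k ≠ 0 := by
    intro i hi
    have := Finset.prod_ne_zero_iff.1 (right_ne_zero_of_mul (left_ne_zero_of_mul hx)) i hi
    rwa [eval_linf] at this
  have hx4 := right_ne_zero_of_mul hx
  rw [eval_linf] at hx4
  obtain ⟨a₂, ha₂, ha₂w⟩ := ann_ex (![z, x] : Fin 2 → Fin M → K) (by omega)
  have ha₂z : ∑ k, a₂ k * z k = 0 := ha₂w 0
  have ha₂x : ∑ k, a₂ k * x k = 0 := ha₂w 1
  have ha₁z' : ∑ k, a₁ k * z k = 0 := ha₁z 0
  set a₃ : Fin M → K := fun k => bev x z (pderiv (Sum.inr k) A) with ha₃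
  have ha₃0 : a₃ ≠ 0 := by
    intro h0
    apply hx1
    rw [eval_rho]
    refine Finset.sum_eq_zero fun k _ => ?_
    have h1 : bev x z (pderiv (Sum.inr k) A) = 0 := congrFun h0 k
    rw [h1, mul_zero]
  obtain ⟨u, hu⟩ := avoid (insert a₂ (insert a₃ (((R ×ˢ R).filter fun p => p.1 ≠ p.2).image
    fun p => fun k => (∑ k, l p.1 k * x k) * l p.2 k - (∑ k, l p.2 k * x k) * l p.1 k))) (by
    intro a ha
    rw [Finset.mem_insert, Finset.mem_insert, Finset.mem_image] at ha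
    rcases ha with rfl | rfl | ⟨p, hp, rfl⟩
    · exact ha₂
    · exact ha₃0
    · rw [Finset.mem_filter, Finset.mem_product] at hp
      intro h0
      apply hR p.1 hp.1.1 p.2 hp.1.2 hp.2 ((∑ k, l p.2 k * x k) / (∑ k, l p.1 k * x k))
      funext k
      have h1 := congrFun h0 k
      rw [Pi.zero_apply, sub_eq_zero] at h1
      have h2 := hx3 p.1 hp.1.1
      rw [Pi.smul_apply, smul_eq_mul]
      field_simp
      linear_combination h1)
  have hu2 := hu a₂ (Finset.mem_insert_self _ _)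
  have hu3 := hu a₃ (Finset.mem_insert_of_mem (Finset.mem_insert_self _ _))
  refine ⟨x, u, ?_, hx2, hx3, ?_, ?_⟩
  · rw [eval_rho]
    intro h0
    apply hu3
    rw [← h0]
    exact Finset.sum_congr rfl fun k _ => by rw [ha₃]; ring
  · intro i hi j hj hij
    have h1 := hu _ (Finset.mem_insert_of_mem (Finset.mem_insert_of_mem (Finset.mem_image.2
      ⟨(i, j), by rw [Finset.mem_filter, Finset.mem_product]; exact ⟨⟨hi, hj⟩, hij⟩, rfl⟩)))
    intro h0
    apply h1
    rw [← h0, Finset.mul_sum, Finset.mul_sum, ← Finset.sum_sub_distrib]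
    exact Finset.sum_congr rfl fun k _ => by ring
  · intro a b c habc
    have hc : c = 0 := by
      have h1 : ∑ k, a₂ k * (a * z k + b * x k + c * u k) = 0 :=
        Finset.sum_eq_zero fun k _ => by rw [habc k, mul_zero]
      have h2 : ∑ k, a₂ k * (a * z k + b * x k + c * u k) =
          a * (∑ k, a₂ k * z k) + b * (∑ k, a₂ k * x k) + c * (∑ k, a₂ k * u k) := by
        rw [Finset.mul_sum, Finset.mul_sum, Finset.mul_sum, ← Finset.sum_add_distrib,
          ← Finset.sum_add_distrib]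
        exact Finset.sum_congr rfl fun k _ => by ring
      rw [h2, ha₂z, ha₂x, mul_zero, mul_zero, zero_add, zero_add] at h1
      exact (mul_eq_zero.1 h1).resolve_right hu2
    subst hc
    have hb : b = 0 := by
      have h1 : ∑ k, a₁ k * (a * z k + b * x k + 0 * u k) = 0 :=
        Finset.sum_eq_zero fun k _ => by rw [habc k, mul_zero]
      have h2 : ∑ k, a₁ k * (a * z k + b * x k + 0 * u k) =
          a * (∑ k, a₁ k * z k) + b * (∑ k, a₁ k * x k) := by
        rw [Finset.mul_sum, Finset.mul_sum, ← Finset.sum_add_distrib]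
        exact Finset.sum_congr rfl fun k _ => by ring
      rw [h2, ha₁z', mul_zero, zero_add] at h1
      exact (mul_eq_zero.1 h1).resolve_right hx4
    subst hb
    refine ⟨?_, rfl, rfl⟩
    obtain ⟨k, hk⟩ := Function.ne_iff.1 hz
    have h1 := habc k
    rw [zero_mul, zero_mul, add_zero, add_zero] at h1
    exact (mul_eq_zero.1 h1).resolve_right hk

end Geproci
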