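import Pool.Agent.Work.MP_efd9e3_ag.Co.LinePts
import Pool.Agent.Work.MP_efd9e3_ag.Co.HomMul
import Pool.Agent.Work.MP_efd9e3_ag.Gp.KSlice

/-! MODULE KTwo (MP_efd9e3_ag/Gp), helper69.  The case of the line. -/

set_option autoImplicit false

universe u

open MvPolynomial

namespace Geproci

variable {K : Type*} [Field K] {N M e s r κ α β δ : ℕ}

/-- the polynomial `A(x, ·)` -/
noncomputable def yp (x : Fin N → K) : MvPolynomial (Fin N ⊕ Fin N) K →ₐ[K] MvPolynomial (Fin N) K :=
  aeval (Sum.elim (fun k => C (x k)) X)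

theorem eval_yp (x y : Fin N → K) (A : MvPolynomial (Fin N ⊕ Fin N) K) :
    eval y (yp x A) = bev x y A := by
  unfold yp bev
  induction A using MvPolynomial.induction_on with
  | C a => simp
  | add a b ha hb => rw [map_add, map_add, ha, hb, map_add]
  | mul_X a k ha =>
    rw [map_mul, map_mul, ha, map_mul, aeval_X, eval_X]
    congr 1
    rcases k with k | k <;> simp

theorem yp_hom [Infinite K] {A : MvPolynomial (Fin N ⊕ Fin N) K} (h : BiH α β A)
    (x : Fin N → K) : (yp x A).IsHomogeneous β := by
  refine hom_of_scaling _ _ fun a _ y => ?_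
  have h1 := h.bev 1 a x y
  simp only [one_mul, one_pow] at h1
  rw [eval_yp, h1, eval_yp]

theorem two_zero [IsAlgClosed K] (g : MvPolynomial (Fin 2) K) (j : ℕ) (hg : g.IsHomogeneous j)
    (y : Fin 2 → K) (hy : y ≠ 0) (hgy : eval y g = 0) : linf ![y 1, - y 0] ∣ g := by
  have hinf : Infinite K := IsAlgClosed.instInfinite
  have hl : (![y 1, - y 0] : Fin 2 → K) ≠ 0 := by
    intro h0
    apply hy
    have h1 := congrFun h0 0
    have h2 := congrFun h0 1
    simp only [Matrix.cons_val_zero, Matrix.cons_val_one, Pi.zero_apply, neg_eq_zero] at h1 h2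
    funext i
    fin_cases i
    · exact h2
    · exact h1
  refine irr_dvd_of_zeros (linf _) g (linf_irr _ hl) fun x hx => ?_
  rw [eval_linf, Fin.sum_univ_two] at hx
  simp only [Matrix.cons_val_zero, Matrix.cons_val_one] at hx
  obtain ⟨c, hc⟩ : ∃ c : K, x = fun k => c * y k := by
    by_cases h0 : y 0 = 0
    · have h1 : y 1 ≠ 0 := by
        intro h1
        apply hy
        funext i
        fin_cases i
        · exact h0
        · exact h1
      refine ⟨x 1 / y 1, ?_⟩
      funext i
      fin_cases i
      · have : x 0 = 0 := by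
          rw [h0, neg_zero, zero_mul, add_zero] at hx
          exact (mul_eq_zero.1 hx).resolve_left h1
        change x 0 = x 1 / y 1 * y 0
        rw [this, h0, mul_zero]
      · change x 1 = x 1 / y 1 * y 1
        rw [div_mul_cancel₀ _ h1]
    · refine ⟨x 0 / y 0, ?_⟩
      funext i
      fin_cases i
      · change x 0 = x 0 / y 0 * y 0
        rw [div_mul_cancel₀ _ h0]
      · change x 1 = x 0 / y 0 * y 1
        field_simp
        linear_combination -hx
  rw [hc, eval_smul_hom hg, hgy, mul_zero]

theorem k_two [IsAlgClosed K] [CharZero K] : PStat.{u} K 2 1 := by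
  classical
  intro ι _ _ s r e κ α β y c l A hs h hA0 hA hi hAz h3 hcol
  have hinf : Infinite K := IsAlgClosed.instInfinite
  have hle := bi_le A hA hi hA0
  obtain ⟨hy0, hy2⟩ := ind_pairs s hs Finset.univ y (fun a ha z _ => h.ind a ha z)
  obtain ⟨z₀⟩ := ‹Nonempty ι›
  -- many points
  have hcard : κ + 2 ≤ Fintype.card ι := by
    obtain ⟨v, hv⟩ := exists_good c l h.ne h.lne
    have hord : ordV (LinearMap.id : (Fin 2 → K) →ₗ[K] (Fin 2 → K)) v (c z₀) = 0 := by
      have h1 : ordV (LinearMap.id : (Fin 2 → K) →ₗ[K] (Fin 2 → K)) v (c z₀) ≤ 0 := by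
        apply Nat.sInf_le
        change compL LinearMap.id (dv v 0 (c z₀)) ≠ 0
        rw [dv_zero]
        intro h0
        apply h.ne z₀
        apply MvPolynomial.funext
        intro x
        have h2 := eval_compL (LinearMap.id : (Fin 2 → K) →ₗ[K] (Fin 2 → K)) (c z₀) x
        rw [h0, map_zero] at h2
        rw [map_zero]
        exact h2.symm
      omega
    obtain ⟨T, -, hT⟩ := k_ext hs y c l h e κ 2 rfl (le_refl 2) LinearMap.id
      (fun a b hab => hab) v hv z₀ (by rw [hord]; omega)
    exact hT.trans (Finset.card_le_univ T)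
  set f0 := yp (Pi.single 0 1) A with hf0
  set f1 := yp (Pi.single 1 1) A with hf1
  have hkey : X 0 ^ α * f0 = (- X 1) ^ α * f1 := by
    apply MvPolynomial.funext
    intro v
    simp only [map_mul, map_pow, map_neg, eval_X]
    rw [hf0, hf1, eval_yp, eval_yp]
    have h1 := hA.bev (v 0) 1 (Pi.single 0 1) v
    have h2 := hA.bev (-v 1) 1 (Pi.single 1 1) v
    have h3 := hi.bev (-1) (fun k => v 0 * (Pi.single 0 1 : Fin 2 → K) k) v
    simp only [one_mul, one_pow, mul_one] at h1 h2
    rw [← h1, ← h2, ← h3]
    unfold bev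
    refine congrArg (fun f => eval f A) (funext fun i => ?_)
    rcases i with i | i
    · fin_cases i
      · simp
      · simp
    · rfl
  have hX0 : (X 0 : MvPolynomial (Fin 2) K) ≠ 0 := X_ne_zero _
  have hX1 : (X 1 : MvPolynomial (Fin 2) K) ≠ 0 := X_ne_zero _
  have hf00 : f0 ≠ 0 := by
    intro h0
    apply hA0
    have h1 : X (Sum.inr 1) ^ α * A = 0 := by
      apply bev_ext
      intro x v
      have h1 := hA.bev (v 1) 1 x v
      have h2 := hA.bev (v 1 * x 0 - x 1 * v 0) 1 (Pi.single 0 1) v
      have h3 := hi.bev (-x 1) (fun k => v 1 * x k) v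
      have h4 : bev (Pi.single 0 1) v A = 0 := by
        rw [← eval_yp, ← hf0, h0, map_zero]
      simp only [one_mul, one_pow, mul_one] at h1 h2
      rw [h4, mul_zero] at h2
      have h5 : bev x v (X (Sum.inr 1) ^ α * A) = v 1 ^ α * bev x v A := by
        unfold bev
        simp
      have h6 : bev x v (0 : MvPolynomial (Fin 2 ⊕ Fin 2) K) = 0 := by rw [bev, map_zero]
      rw [h6, h5, ← h1, ← h3, ← h2]
      unfold bev
      refine congrArg (fun f => eval f A) (funext fun i => ?_)
      rcases i with i | i
      · fin_cases i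
        · simp only [Sum.elim_inl, Fin.zero_eta, Pi.single_eq_same, mul_one]
          ring
        · simp only [Sum.elim_inl, Fin.mk_one, ne_eq, one_ne_zero, not_false_eq_true,
            Pi.single_eq_of_ne, mul_zero]
          ring
      · rfl
    exact (mul_eq_zero.1 h1).resolve_left (pow_ne_zero _ (X_ne_zero _))
  obtain ⟨g, hg⟩ : X 1 ^ α ∣ f0 := by
    have h1 : (X 1 : MvPolynomial (Fin 2) K) ^ α ∣ X 0 ^ α * f0 := by
      rw [hkey, neg_pow]
      exact ⟨(-1) ^ α * f1, by ring⟩
    have h2 : IsRelPrime ((X 1 : MvPolynomial (Fin 2) K) ^ α) (X 0 ^ α) := by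
      have e0 : (X 0 : MvPolynomial (Fin 2) K) = linf ![1, 0] := by
        rw [linf, Fin.sum_univ_two]
        simp
      have e1 : (X 1 : MvPolynomial (Fin 2) K) = linf ![0, 1] := by
        rw [linf, Fin.sum_univ_two]
        simp
      rw [e0, e1]
      refine lin_rel _ _ (fun h0 => ?_) (fun h0 => ?_) (fun c h0 => ?_) _ _
      · have := congrFun h0 1
        simp at this
      · have := congrFun h0 0
        simp at this
      · have := congrFun h0 0
        simp at this
    exact h2.dvd_of_dvd_mul_left h1
  have hg0 : g ≠ 0 := by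
    rintro rfl
    rw [mul_zero] at hg
    exact hf00 hg
  obtain ⟨j, hj, hjβ⟩ := hom_mul_degree (X 1 ^ α) g β α (by rw [← hg]; exact yp_hom hA _)
    (pow_ne_zero _ hX1) hg0 (by
      have := (isHomogeneous_X K (1 : Fin 2)).pow α
      rwa [one_mul] at this)
  have hgf : X 0 ^ α * g = (-1) ^ α * f1 := by
    apply mul_left_cancel₀ (pow_ne_zero α hX1)
    rw [hg, neg_pow] at hkey
    linear_combination hkey
  have hgz : ∀ z, eval (y z) g = 0 := by
    intro z
    have h1 : eval (y z) f0 = 0 := by rw [hf0, eval_yp, ← eval_xp, hAz, map_zero]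
    have h2 : eval (y z) f1 = 0 := by rw [hf1, eval_yp, ← eval_xp, hAz, map_zero]
    have h3 := congrArg (eval (y z)) hgf
    rw [map_mul, map_pow, eval_X, map_mul, h2, mul_zero] at h3
    rw [hg, map_mul, map_pow, eval_X] at h1
    by_contra hne
    have h4 := (mul_eq_zero.1 h1).resolve_right hne
    have h5 := (mul_eq_zero.1 h3).resolve_right hne
    apply hy0 z (Finset.mem_univ _)
    funext i
    fin_cases i
    · exact eq_zero_of_pow_eq_zero h5
    · exact eq_zero_of_pow_eq_zero h4
  have hfin := lin_pow_deg Finset.univ (fun z : ι => ![y z 1, - y z 0]) (fun z _ h0 => by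
      apply hy0 z (Finset.mem_univ _)
      have h1 := congrFun h0 0
      have h2 := congrFun h0 1
      simp only [Matrix.cons_val_zero, Matrix.cons_val_one, Pi.zero_apply, neg_eq_zero] at h1 h2
      funext i
      fin_cases i
      · exact h2
      · exact h1) (fun z _ z' _ hzz' a ha => by
      apply hy2 z (Finset.mem_univ _) z' (Finset.mem_univ _) hzz' a
      have h1 := congrFun ha 0
      have h2 := congrFun ha 1
      simp only [Matrix.cons_val_zero, Matrix.cons_val_one, Pi.smul_apply, smul_eq_mul] at h1 h2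
      funext i
      fin_cases i
      · change y z' 0 = a * y z 0
        linear_combination -h2
      · exact h1) (fun _ => 1) g (fun z _ => by
      rw [pow_one]
      exact two_zero g j hj (y z) (hy0 z (Finset.mem_univ _)) (hgz z)) hg0 j hj
  rw [Finset.sum_const, Finset.card_univ, smul_eq_mul, mul_one] at hfin
  omega

end Geproci
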