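import Pool.Agent.Work.MP_efd9e3_ag.Gp.KCore
import Pool.Agent.Work.MP_efd9e3_ag.Gp.KTwo

/-! MODULE KMain (MP_efd9e3_ag/Gp), helper69.  The bound for invariant forms vanishing on the points of a system. -/

set_option autoImplicit false

universe u

open MvPolynomial

namespace Geproci

variable {K : Type*} [Field K] {N : ℕ}

theorem k_step [IsAlgClosed K] [CharZero K] (hN : 2 ≤ N) (δ : ℕ)
    (hδ : (N = 2 ∧ δ = 1) ∨ (3 ≤ N ∧ δ = 0)) (hPS : PStat.{u} K N δ) : PStat.{u} K (N+1) 0 := by
  classical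
  intro ι _ _ s r e κ α β y c l A hs h hA0 hA hi hAz h3 hcol
  obtain ⟨e', r', c', l', h', hmin⟩ := k_min (by omega) y e r c l h
  have key : ∀ (β α : ℕ) (A : MvPolynomial (Fin (N+1) ⊕ Fin (N+1)) K), A ≠ 0 → BiH α β A → BInv A →
      (∀ z, xp (y z) A = 0) → 3 * β ≤ s + 4 →
      (∀ T : Finset ι, Module.finrank K (Submodule.span K (y '' (T : Set ι))) = 2 →
        T.card + β ≤ s + 2) → α + κ + 1 ≤ β := by
    intro β
    induction β using Nat.strong_induction_on with
    | _ β ih =>
      intro α A hA0 hA hi hAz h3 hcol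
      by_contra hcon
      by_cases hρ : ∃ z u, rho A (y z) u ≠ 0
      · obtain ⟨z, hz⟩ := hρ
        exact k_core hN hδ hPS hs y c' l' h' A hA0 hA hi hAz h3 hcol hmin (by omega) z hz
      · push Not at hρ
        obtain ⟨α', β', A', hA'0, hA', hi', hAz', hβ', hαβ⟩ := bi_descend y A hA0 hA hi hAz hρ
        have := ih β' hβ' α' A' hA'0 hA' hi' hAz' (by omega) (fun T hT => by
          have := hcol T hT
          omega)
        omega
  have := key β α A hA0 hA hi hAz h3 hcol
  omega

theorem k_main [IsAlgClosed K] [CharZero K] : ∀ N, PStat.{u} K (N+3) 0 := by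
  intro N
  induction N with
  | zero => exact k_step (le_refl 2) 1 (Or.inl ⟨rfl, rfl⟩) k_two
  | succ N ih => exact k_step (by omega) 0 (Or.inr ⟨by omega, rfl⟩) ih

end Geproci
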