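import Pool.Agent.Work.MP_efd9e3_ag.Co.Flow
import Pool.Agent.Work.MP_efd9e3_ag.Co.HomMul
import Pool.Agent.Work.MP_efd9e3_ag.Gp.KExt
import Pool.Agent.Work.MP_efd9e3_ag.Gp.LinPow

/-! MODULE KPole (MP_efd9e3_ag/Gp), helper69.  The poles of the coefficient of one point. -/

set_option autoImplicit false

open MvPolynomial

namespace Geproci

variable {K : Type*} [Field K] {N M e s r κ : ℕ} {ι : Type*}

/-- maximal cancellation of linear factors -/
theorem cancel_ex (c : MvPolynomial (Fin M) K) (l : Fin e → Fin M → K) :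
    ∃ (S : Finset (Fin e)) (c' : MvPolynomial (Fin M) K), c = (∏ j ∈ S, linf (l j)) * c' ∧
      ∀ j, j ∉ S → ¬ linf (l j) ∣ c' := by
  classical
  set P : Finset (Finset (Fin e)) := Finset.univ.filter fun A => ∏ j ∈ A, linf (l j) ∣ c with hP
  have hPne : P.Nonempty := ⟨∅, by simp [hP]⟩
  obtain ⟨S, hS, hmax⟩ := Finset.exists_max_image P Finset.card hPne
  rw [hP, Finset.mem_filter] at hS
  obtain ⟨-, c', hc'⟩ := hS
  refine ⟨S, c', hc', fun j hj => ?_⟩
  rintro ⟨g, hg⟩
  have h1 : insert j S ∈ P := by
    rw [hP, Finset.mem_filter]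
    refine ⟨Finset.mem_univ _, g, ?_⟩
    rw [Finset.prod_insert hj, hc', hg]
    ring
  have h2 := hmax _ h1
  rw [Finset.card_insert_of_notMem hj] at h2
  omega

theorem exists_good [Infinite K] [Fintype ι] (c : ι → MvPolynomial (Fin M) K) (l : Fin e → Fin M → K)
    (hc : ∀ z, c z ≠ 0) (hl : ∀ j, l j ≠ 0) : ∃ v, Good c l v := by
  classical
  have h1 : (∏ z, c z) * prodL l ≠ 0 := mul_ne_zero (Finset.prod_ne_zero_iff.2 fun z _ => hc z)
    (Finset.prod_ne_zero_iff.2 fun j _ => linf_ne_zero _ (hl j))
  obtain ⟨v, hv⟩ : ∃ v, eval v ((∏ z, c z) * prodL l) ≠ 0 := by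
    by_contra hcon
    push Not at hcon
    exact h1 (MvPolynomial.funext fun x => by rw [hcon x, map_zero])
  rw [map_mul, map_prod, prodL, map_prod] at hv
  refine ⟨v, fun z => Finset.prod_ne_zero_iff.1 (left_ne_zero_of_mul hv) z (Finset.mem_univ _),
    fun j => ?_⟩
  have := Finset.prod_ne_zero_iff.1 (right_ne_zero_of_mul hv) j (Finset.mem_univ _)
  rwa [eval_linf] at this

/-- the poles of the coefficient of `z` -/
theorem k_poles [IsAlgClosed K] [CharZero K] [Fintype ι] (y : ι → Fin M → K)
    (c : ι → MvPolynomial (Fin M) K) (l : Fin e → Fin M → K) (h : KSys s r e κ y c l) (z : ι) :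
    ∃ P : Finset (Fin e), e ≤ P.card + r ∧ (∀ j ∈ P, ∑ k, l j k * y z k = 0) ∧
      (∀ j, ¬ linf (l j) ∣ c z → j ∈ P) ∧
      ∀ (N : ℕ) (φ : (Fin N → K) →ₗ[K] (Fin M → K)) (v : Fin M → K), Good c l v →
        ordV φ v (c z) + e ≤ (zer φ l).card + r + (P \ zer φ l).card := by
  classical
  have hinf : Infinite K := IsAlgClosed.instInfinite
  obtain ⟨S, c', hc, hc'⟩ := cancel_ex (c z) l
  have hA0 : ∏ j ∈ S, linf (l j) ≠ 0 :=
    Finset.prod_ne_zero_iff.2 fun j _ => linf_ne_zero _ (h.lne j)
  have hc'0 : c' ≠ 0 := by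
    rintro rfl
    rw [mul_zero] at hc
    exact h.ne z hc
  have hAh : (∏ j ∈ S, linf (l j)).IsHomogeneous S.card := by
    have h1 : (∏ j ∈ S, linf (l j)).IsHomogeneous (∑ _j ∈ S, 1) :=
      IsHomogeneous.prod _ _ _ fun j _ => linf_hom (l j)
    simpa using h1
  obtain ⟨r', hr', hrr⟩ := hom_mul_degree _ c' r S.card (by rw [← hc]; exact h.hom z) hA0 hc'0 hAh
  have hScard : S.card ≤ e := by
    have := Finset.card_le_univ S
    rwa [Fintype.card_fin] at this
  refine ⟨Sᶜ, ?_, ?_, ?_, ?_⟩
  · rw [Finset.card_compl, Fintype.card_fin]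
    omega
  · -- the flow
    intro i hi
    rw [Finset.mem_compl] at hi
    by_contra hiz
    set B : MvPolynomial (Fin M) K := ∏ j ∈ Sᶜ, linf (l j) with hB
    have hB0 : B ≠ 0 := Finset.prod_ne_zero_iff.2 fun j _ => linf_ne_zero _ (h.lne j)
    have hQ : prodL l = (∏ j ∈ S, linf (l j)) * B := by
      rw [prodL, hB, Finset.prod_mul_prod_compl]
    have hflat : B * dirP (y z) c' = c' * dirP (y z) B := by
      have h1 := h.flat z
      rw [hQ, hc, dirP_mul, dirP_mul] at h1
      apply mul_left_cancel₀ (mul_ne_zero hA0 hA0)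
      linear_combination h1
    have hdvd : linf (l i) ∣ c' * ∏ j ∈ Sᶜ.filter (fun j => ∑ k, l j k * y z k = 0), linf (l j) := by
      refine irr_dvd_of_zeros _ _ (linf_irr _ (h.lne i)) fun x hx => ?_
      rw [map_mul, map_prod]
      by_cases hex : ∃ j ∈ Sᶜ.filter (fun j => ∑ k, l j k * y z k = 0), eval x (linf (l j)) = 0
      · obtain ⟨j, hj, hj0⟩ := hex
        rw [Finset.prod_eq_zero hj hj0, mul_zero]
      · push Not at hex
        -- the polynomial `t ↦ B (x + t y)`
        have hBx : eval x B = 0 := by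
          rw [hB, map_prod]
          exact Finset.prod_eq_zero (Finset.mem_compl.2 hi) hx
        have hpol : line x (y z) B ≠ 0 := by
          rw [hB, map_prod, Finset.prod_ne_zero_iff]
          intro j hj hcon
          rw [line_linf] at hcon
          have e0 := congrArg (fun q => Polynomial.coeff q 0) hcon
          have e1 := congrArg (fun q => Polynomial.coeff q 1) hcon
          simp only [Polynomial.coeff_add, Polynomial.coeff_C_mul, Polynomial.coeff_X,
            Polynomial.coeff_C, Polynomial.coeff_zero] at e0 e1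
          norm_num at e0 e1
          exact hex j (Finset.mem_filter.2 ⟨hj, e1⟩) (by rw [eval_linf]; exact e0)
        obtain ⟨t, ht⟩ : ∃ t, (line x (y z) B).eval t ≠ 0 := by
          by_contra hcon
          push Not at hcon
          exact hpol (Polynomial.funext fun t => by rw [hcon t, Polynomial.eval_zero])
        rw [eval_line] at ht
        have h2 := flow (y z) c' B hB0 hflat t x
        rw [hBx, mul_zero] at h2
        rw [(mul_eq_zero.1 h2.symm).resolve_right ht, zero_mul]
    have hprime : Prime (linf (l i)) := (linf_irr _ (h.lne i)).prime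
    rcases hprime.dvd_or_dvd hdvd with h1 | h1
    · exact hc' i hi h1
    · rw [hprime.dvd_finsetProd_iff] at h1
      obtain ⟨j, hj, hij⟩ := h1
      rw [Finset.mem_filter] at hj
      obtain ⟨a, ha⟩ := linf_dvd_linf _ _ hij
      have h2 := hj.2
      have ha0 : a ≠ 0 := by
        rintro rfl
        rw [zero_smul] at ha
        exact h.lne j ha
      have h3 : ∑ k, l j k * y z k = a * ∑ k, l i k * y z k := by
        rw [ha, Finset.mul_sum]
        exact Finset.sum_congr rfl fun k _ => by rw [Pi.smul_apply, smul_eq_mul]; ring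
      rw [h3] at h2
      exact hiz ((mul_eq_zero.1 h2).resolve_left ha0)
  · intro j hj
    rw [Finset.mem_compl]
    intro hjS
    apply hj
    rw [hc]
    exact Dvd.dvd.mul_right (Finset.dvd_prod_of_mem _ hjS) _
  · intro N φ v hv
    have hc'v : eval v c' ≠ 0 := by
      have := hv.1 z
      rw [hc, map_mul] at this
      exact right_ne_zero_of_mul this
    obtain ⟨ho', hor'⟩ := ordV_spec φ v c' r' hr' hc'v
    set o' := ordV φ v c' with ho'def
    obtain ⟨x, hx1, hx2⟩ := exists_generic φ l _ ho'
    -- the coefficient of `c'`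
    have hco : (line (φ x) v c').coeff o' ≠ 0 := by
      intro hcon
      apply hx1
      rw [eval_compL, ← coeff_line, hcon, mul_zero]
    have hXo : Polynomial.X ^ o' ∣ line (φ x) v c' := X_pow_dvd_line φ v c' x o' le_rfl
    -- the coefficient of the product
    set T := S ∩ zer φ l with hT
    have hline : line (φ x) v (∏ j ∈ S, linf (l j)) = Polynomial.X ^ T.card *
        (Polynomial.C (∏ j ∈ T, ∑ k, l j k * v k) * ∏ j ∈ S \ zer φ l,
          (Polynomial.C (∑ k, l j k * φ x k) + Polynomial.C (∑ k, l j k * v k) * Polynomial.X)) := by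
      rw [map_prod, ← Finset.prod_inter_mul_prod_sdiff S (zer φ l), ← mul_assoc]
      congr 1
      · rw [map_prod, mul_comm, ← Finset.prod_const, ← Finset.prod_mul_distrib]
        refine Finset.prod_congr rfl fun j hj => ?_
        rw [line_linf]
        have h1 : ∑ k, l j k * φ x k = 0 := (mem_zer φ l j).1 (Finset.mem_inter.1 hj).2 x
        rw [h1, map_zero, zero_add]
      · exact Finset.prod_congr rfl fun j _ => line_linf _ _ _
    have hlow : (line (φ x) v (∏ j ∈ S, linf (l j))).coeff T.card ≠ 0 := by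
      rw [hline]
      have h2 : ∀ (k : ℕ) (h : Polynomial K), (Polynomial.X ^ k * h).coeff k = h.coeff 0 := by
        intro k h
        have := Polynomial.coeff_X_pow_mul h k 0
        rwa [zero_add] at this
      rw [h2, Polynomial.mul_coeff_zero, Polynomial.coeff_C_zero, Polynomial.coeff_zero_prod]
      refine mul_ne_zero (Finset.prod_ne_zero_iff.2 fun j _ => hv.2 j)
        (Finset.prod_ne_zero_iff.2 fun j hj => ?_)
      rw [Finset.mem_sdiff] at hj
      simpa using hx2 j hj.2
    have hdv : Polynomial.X ^ T.card ∣ line (φ x) v (∏ j ∈ S, linf (l j)) := ⟨_, hline⟩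
    have hfin : (line (φ x) v (c z)).coeff (T.card + o') ≠ 0 := by
      rw [hc, map_mul, coeff_mul_low _ _ _ _ hdv hXo]
      exact mul_ne_zero hlow hco
    have h5 := ordV_le_of_coeff φ v (c z) x _ hfin
    -- counting
    have h6 : (Sᶜ \ zer φ l).card + (zer φ l).card + S.card = e + T.card := by
      have a1 : (Sᶜ \ zer φ l) = (S ∪ zer φ l)ᶜ := by
        ext j; simp
      have a2 := Finset.card_union_add_card_inter S (zer φ l)
      rw [← hT] at a2
      have a3 : (S ∪ zer φ l).card ≤ e := by
        have := Finset.card_le_univ (S ∪ zer φ l)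
        rwa [Fintype.card_fin] at this
      rw [a1, Finset.card_compl, Fintype.card_fin]
      omega
    omega

/-- **Lemma L.** -/
theorem k_line [IsAlgClosed K] [CharZero K] [Fintype ι] (hs : 1 ≤ s) (hM : 2 ≤ M) (y : ι → Fin M → K)
    (c : ι → MvPolynomial (Fin M) K) (l : Fin e → Fin M → K) (h : KSys s r e κ y c l) (z : ι) (β : ℕ)
    (hcol : ∀ T : Finset ι, Module.finrank K (Submodule.span K (y '' (T : Set ι))) = 2 →
      T.card + β ≤ s + 2) (P : Finset (Fin e))
    (hP : ∀ (N : ℕ) (φ : (Fin N → K) →ₗ[K] (Fin M → K)) (v : Fin M → K), Good c l v →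
        ordV φ v (c z) + e ≤ (zer φ l).card + r + (P \ zer φ l).card)
    (φ : (Fin 2 → K) →ₗ[K] (Fin M → K)) (hφ : Function.Injective φ) :
    κ + β ≤ s ∧ β ≤ (P \ zer φ l).card := by
  classical
  have hinf : Infinite K := IsAlgClosed.instInfinite
  obtain ⟨v, hv⟩ := exists_good c l h.ne h.lne
  have hdeg := h.deg
  have h1 : κ + β ≤ s := by
    have hz : zer (LinearMap.id : (Fin M → K) →ₗ[K] (Fin M → K)) l = ∅ := by
      rw [Finset.eq_empty_iff_forall_notMem]
      intro j hj
      rw [mem_zer] at hj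
      apply linf_ne_zero _ (h.lne j)
      apply MvPolynomial.funext
      intro x
      rw [eval_linf, map_zero]
      exact hj x
    have h0 : ordV (LinearMap.id : (Fin M → K) →ₗ[K] (Fin M → K)) v (c z) = 0 := by
      have h2 : ordV (LinearMap.id : (Fin M → K) →ₗ[K] (Fin M → K)) v (c z) ≤ 0 := by
        refine ordV_le_of_coeff _ v (c z) v 0 ?_
        rw [Polynomial.coeff_zero_eq_eval_zero, eval_line]
        have : (fun k => (LinearMap.id : (Fin M → K) →ₗ[K] (Fin M → K)) v k + 0 * v k) = v := by
          funext k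
          simp
        rw [this]
        exact hv.1 z
      omega
    obtain ⟨T, hT, hTc⟩ := k_ext hs y c l h e κ M rfl hM LinearMap.id Function.injective_id v hv z
      (by rw [hz, h0, Finset.card_empty])
    have := hcol T hT
    omega
  refine ⟨h1, ?_⟩
  by_contra hcon
  have h2 := hP 2 φ v hv
  set p := (P \ zer φ l).card with hp
  have hle : 2 ≤ M := by
    have := LinearMap.finrank_le_finrank_of_injective hφ
    simpa using this
  have hze : (zer φ l).card ≤ e := by
    have := Finset.card_le_univ (zer φ l)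
    rwa [Fintype.card_fin] at this
  obtain ⟨T, hT, hTc⟩ := k_ext hs y c l h (e + κ - (s - p)) (s - p) 2 (by omega) le_rfl φ hφ v hv z
    (by omega)
  have := hcol T hT
  omega

end Geproci
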