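import Pool.Agent.Work.MP_efd9e3_ag.Co.Loc
import Pool.Agent.Work.MP_efd9e3_ag.Co.QEx
import Pool.Agent.Work.MP_efd9e3_ag.Gp.KPole

/-! MODULE KRes (MP_efd9e3_ag/Gp), helper69.  Minimal systems; restriction to a hyperplane. -/

set_option autoImplicit false

open MvPolynomial

namespace Geproci

variable {K : Type*} [Field K] {N M e s r κ : ℕ} {ι : Type*}

theorem k_min [IsAlgClosed K] [CharZero K] [Fintype ι] [Nonempty ι] (hM : 2 ≤ M) (y : ι → Fin M → K) :
    ∀ (e r : ℕ) (c : ι → MvPolynomial (Fin M) K) (l : Fin e → Fin M → K), KSys s r e κ y c l →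
    ∃ (e' r' : ℕ) (c' : ι → MvPolynomial (Fin M) K) (l' : Fin e' → Fin M → K),
      KSys s r' e' κ y c' l' ∧ ∀ j, ∃ z, ¬ linf (l' j) ∣ c' z := by
  classical
  have hinf : Infinite K := IsAlgClosed.instInfinite
  intro e
  induction e with
  | zero =>
    intro r c l h
    exact ⟨0, r, c, l, h, fun j => j.elim0⟩
  | succ e ih =>
    intro r c l h
    by_cases hall : ∀ j, ∃ z, ¬ linf (l j) ∣ c z
    · exact ⟨e + 1, r, c, l, h, hall⟩
    · push Not at hall
      obtain ⟨j, hj⟩ := hall
      choose c' hc' using hj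
      have hl0 : linf (l j) ≠ 0 := linf_ne_zero _ (h.lne j)
      have hc'0 : ∀ z, c' z ≠ 0 := by
        intro z hz
        apply h.ne z
        rw [hc' z, hz, mul_zero]
      obtain ⟨z₀⟩ := ‹Nonempty ι›
      have hdeg : ∀ z, ∃ i, (c' z).IsHomogeneous i ∧ 1 + i = r := fun z =>
        hom_mul_degree (linf (l j)) (c' z) r 1 (by rw [← hc' z]; exact h.hom z) hl0 (hc'0 z) (linf_hom _)
      have hr1 : 1 ≤ r := by
        obtain ⟨i, -, hi⟩ := hdeg z₀
        omega
      have hQ : prodL l = linf (l j) * prodL fun i => l (j.succAbove i) := by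
        rw [prodL, Fin.prod_univ_succAbove _ j, prodL]
      refine ih (r - 1) c' (fun i => l (j.succAbove i)) ⟨?_, hc'0, fun i => h.lne _, ?_, ?_, ?_, ?_⟩
      · intro z
        obtain ⟨i, hi, hir⟩ := hdeg z
        have : r - 1 = i := by omega
        rw [this]
        exact hi
      · have h1 := rel_ext hM s Finset.univ y c' (linf (l j)) hl0 (fun lam p hlp hp => by
          have h2 := h.rel lam p hlp
          apply mul_left_cancel₀ hp
          rw [mul_zero, Finset.mul_sum, ← h2]
          refine Finset.sum_congr rfl fun z _ => ?_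
          rw [hc' z, map_mul]
          ring)
        exact h1
      · exact h.ind
      · intro z
        have h1 := h.flat z
        rw [hQ, hc' z, dirP_mul, dirP_mul] at h1
        apply mul_left_cancel₀ (mul_ne_zero hl0 hl0)
        linear_combination h1
      · have := h.deg
        omega

/-- the kernel of a linear form is the range of its parametrisation -/
theorem ker_range [IsAlgClosed K] (l : Fin (N+1) → K) (hl : l ≠ 0)
    (ψ : (Fin N → K) →ₗ[K] (Fin (N+1) → K)) (hψ : Function.Injective ψ)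
    (h0 : ∀ x, ∑ k, l k * ψ x k = 0) (v : Fin (N+1) → K) (hv : ∑ k, l k * v k = 0) :
    v ∈ LinearMap.range ψ := by
  classical
  let L : (Fin (N+1) → K) →ₗ[K] K := ∑ k, l k • LinearMap.proj k
  have hL : ∀ v, L v = ∑ k, l k * v k := by
    intro v
    simp [L, LinearMap.sum_apply]
  have hL0 : L ≠ 0 := by
    intro h
    apply linf_ne_zero l hl
    have hinf : Infinite K := IsAlgClosed.instInfinite
    apply MvPolynomial.funext
    intro x
    rw [eval_linf, ← hL, h, map_zero, LinearMap.zero_apply]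
  have h1 := LinearMap.finrank_range_add_finrank_ker L
  have h2 : Module.finrank K (LinearMap.range L) = 1 := by
    rw [LinearMap.range_eq_top.2 (LinearMap.surjective hL0), finrank_top, Module.finrank_self]
  have h3 := LinearMap.finrank_range_of_inj hψ
  have h4 : LinearMap.range ψ ≤ LinearMap.ker L := by
    rintro _ ⟨x, rfl⟩
    rw [LinearMap.mem_ker, hL]
    exact h0 x
  have h5 : LinearMap.range ψ = LinearMap.ker L := by
    apply Submodule.eq_of_le_of_finrank_eq h4
    rw [h3]
    simp only [Module.finrank_fintype_fun_eq_card, Fintype.card_fin] at h1 ⊢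
    omega
  rw [h5, LinearMap.mem_ker, hL]
  exact hv

theorem k_res [IsAlgClosed K] [CharZero K] [Fintype ι] (y : ι → Fin (N+1) → K)
    (c : ι → MvPolynomial (Fin (N+1)) K) (l : Fin e → Fin (N+1) → K) (h : KSys s r e κ y c l)
    (j₀ : Fin e) (hj₀ : ∃ z, ¬ linf (l j₀) ∣ c z) :
    ∃ (ψ : (Fin N → K) →ₗ[K] (Fin (N+1) → K)) (T : Finset ι) (e' κ' : ℕ) (y' : T → Fin N → K)
      (c' : T → MvPolynomial (Fin N) K) (l' : Fin e' → Fin N → K),
      Function.Injective ψ ∧ (∀ v, ∑ k, l j₀ k * v k = 0 ↔ v ∈ LinearMap.range ψ) ∧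
      (∀ q : MvPolynomial (Fin (N+1)) K, compL ψ q = 0 → linf (l j₀) ∣ q) ∧ T.Nonempty ∧
      (∀ z : T, ψ (y' z) = y z) ∧ κ' + 1 = κ + (zer ψ l).card ∧ KSys s r e' κ' y' c' l' := by
  classical
  have hinf : Infinite K := IsAlgClosed.instInfinite
  obtain ⟨ψ, hψ, hψ0, hψd⟩ := lin_par (l j₀) (h.lne j₀)
  have hker : ∀ v, ∑ k, l j₀ k * v k = 0 ↔ v ∈ LinearMap.range ψ := by
    intro v
    constructor
    · exact ker_range (l j₀) (h.lne j₀) ψ hψ hψ0 v
    · rintro ⟨x, rfl⟩
      exact hψ0 x
  set T : Finset ι := Finset.univ.filter fun z => ¬ linf (l j₀) ∣ c z with hT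
  have hTm : ∀ z, z ∈ T ↔ ¬ linf (l j₀) ∣ c z := by
    intro z
    simp [hT]
  have hTy : ∀ z : T, ∃ w, ψ w = y z := by
    intro z
    obtain ⟨P, -, hP2, hP3, -⟩ := k_poles y c l h z.1
    exact (hker _).1 (hP2 j₀ (hP3 j₀ ((hTm _).1 z.2)))
  choose y' hy' using hTy
  have hj₀z : j₀ ∈ zer ψ l := by
    rw [mem_zer]
    exact hψ0
  -- the remaining forms
  obtain ⟨Z, hZ⟩ : ∃ Z, Z = zer ψ l := ⟨_, rfl⟩
  rw [← hZ] at hj₀z
  have hZe : Z.card ≤ e := by
    have := Finset.card_le_univ Z
    rwa [Fintype.card_fin] at this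
  have hZ1 : 1 ≤ Z.card := Finset.card_pos.2 ⟨j₀, hj₀z⟩
  have hcard : Fintype.card {j : Fin e // j ∉ Z} = e - Z.card := by
    rw [Fintype.card_subtype_compl, Fintype.card_fin]
    simp
  let eq : Fin (e - Z.card) ≃ {j : Fin e // j ∉ Z} := (Fintype.equivFinOfCardEq hcard).symm
  let l' : Fin (e - Z.card) → Fin N → K := fun i k => ∑ i', l (eq i).1 i' * ψ (Pi.single k 1) i'
  have hl' : ∀ i, linf (l' i) = compL ψ (linf (l (eq i).1)) := fun i => (compL_linf ψ _).symm
  have hB : prodL l' = compL ψ (∏ j ∈ Zᶜ, linf (l j)) := by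
    rw [prodL, map_prod]
    simp only [hl']
    rw [Equiv.prod_comp eq (fun j => compL ψ (linf (l j.1)))]
    rw [← Finset.prod_coe_sort Zᶜ (fun j => compL ψ (linf (l j)))]
    refine Fintype.prod_equiv (Equiv.subtypeEquivRight fun j => ?_) _ _ fun j => rfl
    rw [Finset.mem_compl]
  refine ⟨ψ, T, e - Z.card, κ + Z.card - 1, y', fun z => compL ψ (c z), l', hψ, hker, hψd, ?_, hy', by rw [← hZ]; omega,
    ⟨?_, ?_, ?_, ?_, ?_, ?_, ?_⟩⟩
  · obtain ⟨z, hz⟩ := hj₀
    exact ⟨z, (hTm z).2 hz⟩
  · intro z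
    exact compL_hom ψ _ _ (h.hom z)
  · intro z hz
    exact (hTm _).1 z.2 (hψd _ hz)
  · intro i hi
    apply (eq i).2
    have hgoal : ∀ j : Fin e, j ∈ zer ψ l → j ∈ Z := fun j hh => by
      rw [hZ]
      exact hh
    refine hgoal _ ((mem_zer ψ l _).2 ?_)
    intro x
    have h1 := hl' i
    rw [hi] at h1
    have h2 := congrArg (eval x) h1
    rw [eval_compL, eval_linf, eval_linf] at h2
    simp only [Pi.zero_apply, zero_mul, Finset.sum_const_zero] at h2
    exact h2.symm
  · intro lam p hlp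
    obtain ⟨lam', hlam'⟩ := exists_ext ψ hψ lam
    have h1 := h.rel lam' (ψ p) (by rw [hlam', hlp])
    rw [← h1, ← Finset.sum_subset (Finset.subset_univ T)]
    · rw [← Finset.sum_coe_sort T]
      refine Finset.sum_congr rfl fun z _ => ?_
      rw [eval_compL, ← hy' z, hlam']
    · intro z _ hz
      have h2 : linf (l j₀) ∣ c z := by
        by_contra hcon
        exact hz ((hTm z).2 hcon)
      obtain ⟨g, hg⟩ := h2
      rw [hg, map_mul, eval_linf, hψ0, zero_mul, zero_mul]
  · intro a ha z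
    have h1 := h.ind (fun z => if hz : z ∈ T then a ⟨z, hz⟩ else 0) (fun lam => by
      refine Eq.trans ?_ (ha (fun k => ∑ j, lam j * ψ (Pi.single k 1) j))
      rw [← Finset.sum_subset (Finset.subset_univ T)]
      · rw [← Finset.sum_coe_sort T]
        refine Finset.sum_congr rfl fun z _ => ?_
        rw [dif_pos z.2, dot_adj, hy' z]
      · intro z _ hz
        rw [dif_neg hz, zero_mul]) z.1
    rwa [dif_pos z.2] at h1
  · intro z
    set A : MvPolynomial (Fin (N+1)) K := ∏ j ∈ Z, linf (l j) with hA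
    set B : MvPolynomial (Fin (N+1)) K := ∏ j ∈ Zᶜ, linf (l j) with hBdef
    have hA0 : A ≠ 0 := Finset.prod_ne_zero_iff.2 fun j _ => linf_ne_zero _ (h.lne j)
    have hQ : prodL l = A * B := by
      rw [prodL, hA, hBdef, Finset.prod_mul_prod_compl]
    have hDA : ∀ W : Finset (Fin e), W ⊆ Z → dirP (y z) (∏ j ∈ W, linf (l j)) = 0 := by
      intro W hW
      induction W using Finset.induction_on with
      | empty =>
        rw [Finset.prod_empty, ← C_1, dirP_C]
      | insert j W hj ih =>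
        rw [Finset.prod_insert hj, dirP_mul, ih fun i hi => hW (Finset.mem_insert_of_mem hi), mul_zero,
          add_zero, dirP_linf]
        have h2 : ∑ k, l j k * y z k = 0 := by
          rw [← hy' z]
          exact (mem_zer ψ l j).1 (hZ ▸ hW (Finset.mem_insert_self j W)) (y' z)
        rw [h2, C_0, zero_mul]
    have h1 := h.flat z
    rw [hQ, dirP_mul, hDA Z (Finset.Subset.refl _), zero_mul, zero_add] at h1
    have h2 : B * dirP (y z) (c z) = c z * dirP (y z) B := by
      apply mul_left_cancel₀ hA0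
      linear_combination h1
    rw [hB, dirP_compL, dirP_compL, hy' z, ← map_mul, ← map_mul, h2]
  · have hdeg := h.deg
    omega

end Geproci
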