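import Pool.Agent.Work.MP_efd9e3_ag.Gp.BiLead
import Pool.Agent.Work.MP_efd9e3_ag.Gp.KRes

/-! MODULE KStep (MP_efd9e3_ag/Gp), helper69.  The orders of an invariant form along the polar hyperplanes. -/

set_option autoImplicit false

universe u

open MvPolynomial

namespace Geproci

variable {K : Type*} [Field K] {N M e s r κ α β δ : ℕ}

/-- The bound for invariant forms vanishing on the points of a system. -/
def PStat (K : Type*) [Field K] (N δ : ℕ) : Prop :=
  ∀ (ι : Type u) [Fintype ι] [Nonempty ι] (s r e κ α β : ℕ) (y : ι → Fin N → K)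
    (c : ι → MvPolynomial (Fin N) K) (l : Fin e → Fin N → K) (A : MvPolynomial (Fin N ⊕ Fin N) K),
    1 ≤ s → KSys s r e κ y c l → A ≠ 0 → BiH α β A → BInv A → (∀ z, xp (y z) A = 0) →
    3 * β ≤ s + 4 →
    (∀ T : Finset ι, Module.finrank K (Submodule.span K (y '' (T : Set ι))) = 2 → T.card + β ≤ s + 2) →
    α + κ + 1 + δ ≤ β

/-- the indices of the forms proportional to `l i` -/
noncomputable def par (l : Fin e → Fin M → K) (i : Fin e) : Finset (Fin e) := by
  classical
  exact Finset.univ.filter fun j => ∃ c : K, l j = c • l i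

theorem mem_par (l : Fin e → Fin M → K) (i j : Fin e) : j ∈ par l i ↔ ∃ c : K, l j = c • l i := by
  simp [par]

theorem k_div [IsAlgClosed K] [CharZero K] (hP : PStat.{u} K N δ) {ι : Type u} [Fintype ι]
    (hs : 1 ≤ s) (y : ι → Fin (N+1) → K) (c : ι → MvPolynomial (Fin (N+1)) K)
    (l : Fin e → Fin (N+1) → K) (h : KSys s r e κ y c l) (A : MvPolynomial (Fin (N+1) ⊕ Fin (N+1)) K)
    (hA : BiH α β A) (hi : BInv A) (hz : ∀ z, xp (y z) A = 0) (h3 : 3 * β ≤ s + 4)
    (hcol : ∀ T : Finset ι, Module.finrank K (Submodule.span K (y '' (T : Set ι))) = 2 →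
      T.card + β ≤ s + 2)
    (i : Fin e) (hmin : ∃ z, ¬ linf (l i) ∣ c z) (z : ι) (hzi : ∑ k, l i k * y z k = 0)
    (u : Fin (N+1) → K) (hu : ∑ k, l i k * u k = 0) (μ : ℕ)
    (hμ : μ + β ≤ α + κ + δ + (par l i).card) : linf (l i) ^ μ ∣ rho A (y z) u := by
  classical
  have hinf : Infinite K := IsAlgClosed.instInfinite
  obtain ⟨ψ, T, e', κ', y', c', l', hψ, hker, hψd, hT, hy', hκ', hK'⟩ := k_res y c l h i hmin
  have hψ0 : ∀ x, ∑ k, l i k * ψ x k = 0 := fun x => (hker _).2 ⟨x, rfl⟩
  obtain ⟨j, hj⟩ := Function.ne_iff.1 (h.lne i)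
  set v : Fin (N+1) → K := Pi.single j 1 with hv
  have hlv : ∑ k, l i k * v k ≠ 0 := by
    rw [hv, Finset.sum_eq_single j]
    · rw [Pi.single_eq_same, mul_one]
      exact hj
    · intro b _ hb
      rw [Pi.single_eq_of_ne hb, mul_zero]
    · simp
  obtain ⟨z', hz'⟩ := (hker _).1 hzi
  obtain ⟨u', hu'⟩ := (hker _).1 hu
  have hne : Nonempty T := by
    obtain ⟨t, ht⟩ := hT
    exact ⟨⟨t, ht⟩⟩
  have hpar : (par l i).card ≤ (zer ψ l).card := by
    refine Finset.card_le_card fun j hj => ?_
    rw [mem_par] at hj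
    obtain ⟨a, ha⟩ := hj
    rw [mem_zer]
    intro x
    rw [ha]
    have := hψ0 x
    simp only [Pi.smul_apply, smul_eq_mul, mul_assoc]
    rw [← Finset.mul_sum, this, mul_zero]
  have hX : ∀ x y, Polynomial.X ^ μ ∣ bline (ψ x) v (ψ y) 0 A := by
    rcases bi_lead A hA hi ψ v with h0 | ⟨m, A', hmα, hA'0, hA'h, hA'i, hA'z, hA'd⟩
    · intro x y
      rw [h0]
      exact dvd_zero _
    · have h1 := hP T s r e' κ' (α - m) β y' c' l' A' hs hK' hA'0 hA'h hA'i (fun t => by
        apply hA'z
        rw [hy']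
        exact hz _) h3 (fun S hS => by
        have h2 := hcol (S.map (Function.Embedding.subtype _)) (by
          have e1 : y '' ((S.map (Function.Embedding.subtype _) : Finset ι) : Set ι) =
              ψ '' (y' '' (S : Set T)) := by
            ext w
            simp only [Finset.coe_map, Function.Embedding.subtype_apply, Set.mem_image,
              Finset.mem_coe, exists_exists_and_eq_and]
            constructor
            · rintro ⟨a, ha, rfl⟩
              exact ⟨a, ha, hy' a⟩
            · rintro ⟨a, ha, rfl⟩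
              exact ⟨a, ha, (hy' a).symm⟩
          rw [e1, ← Submodule.map_span]
          rw [← hS]
          exact (LinearEquiv.finrank_eq
            (Submodule.equivMapOfInjective ψ hψ (Submodule.span K (y' '' (S : Set T))))).symm)
        rwa [Finset.card_map] at h2)
      have hmμ : μ ≤ m := by omega
      intro x y
      exact (pow_dvd_pow _ hmμ).trans (hA'd x y)
  have := rho_dvd A (l i) ψ hψ0 hψd v hlv μ hX z' u'
  rwa [hz', hu'] at this

end Geproci
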