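import Pool.Agent.Work.MP_efd9e3_ag.Gp.LinPow
import Pool.Agent.Work.MP_efd9e3_ag.Co.HomMul

/-! MODULE SThreeA (MP_efd9e3_ag/Gp), helper69.  The extactic form of a 1-form in three variables. -/

set_option autoImplicit false

open MvPolynomial

namespace Geproci

variable {K : Type*} [Field K] {κ : Type*}

/-- the derivation with coefficients `a` -/
noncomputable def dX (a : Fin 3 → MvPolynomial (Fin 3) K) (g : MvPolynomial (Fin 3) K) :
    MvPolynomial (Fin 3) K :=
  a 0 * pderiv 0 g + a 1 * pderiv 1 g + a 2 * pderiv 2 g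

/-- the curl -/
noncomputable def curl (f : Fin 3 → MvPolynomial (Fin 3) K) : Fin 3 → MvPolynomial (Fin 3) K :=
  ![pderiv 1 (f 2) - pderiv 2 (f 1), pderiv 2 (f 0) - pderiv 0 (f 2), pderiv 0 (f 1) - pderiv 1 (f 0)]

theorem curl_zero (f : Fin 3 → MvPolynomial (Fin 3) K) :
    curl f 0 = pderiv 1 (f 2) - pderiv 2 (f 1) := rfl
theorem curl_one (f : Fin 3 → MvPolynomial (Fin 3) K) :
    curl f 1 = pderiv 2 (f 0) - pderiv 0 (f 2) := rfl
theorem curl_two (f : Fin 3 → MvPolynomial (Fin 3) K) :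
    curl f 2 = pderiv 0 (f 1) - pderiv 1 (f 0) := rfl

theorem dX_mul (a : Fin 3 → MvPolynomial (Fin 3) K) (g h : MvPolynomial (Fin 3) K) :
    dX a (g * h) = dX a g * h + g * dX a h := by
  unfold dX
  simp only [Derivation.leibniz, smul_eq_mul]
  ring

theorem dX_add (a : Fin 3 → MvPolynomial (Fin 3) K) (g h : MvPolynomial (Fin 3) K) :
    dX a (g + h) = dX a g + dX a h := by
  unfold dX
  simp only [map_add]
  ring

theorem dX_C_mul (a : Fin 3 → MvPolynomial (Fin 3) K) (c : K) (h : MvPolynomial (Fin 3) K) :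
    dX a (C c * h) = C c * dX a h := by
  unfold dX
  simp only [pderiv_C_mul]
  ring

theorem pderiv_linf {N : ℕ} (l : Fin N → K) (k : Fin N) : pderiv k (linf l) = C (l k) := by
  classical
  unfold linf
  rw [map_sum, Finset.sum_eq_single k]
  · rw [pderiv_C_mul, pderiv_X_self, mul_one]
  · intro j _ hj
    rw [pderiv_C_mul, pderiv_X_of_ne hj, mul_zero]
  · simp

theorem linf_three (l : Fin 3 → K) : linf l = C (l 0) * X 0 + C (l 1) * X 1 + C (l 2) * X 2 := by
  rw [linf, Fin.sum_univ_three]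

theorem dX_linf (a : Fin 3 → MvPolynomial (Fin 3) K) (l : Fin 3 → K) :
    dX a (linf l) = C (l 0) * a 0 + C (l 1) * a 1 + C (l 2) * a 2 := by
  unfold dX
  rw [pderiv_linf, pderiv_linf, pderiv_linf]
  ring

theorem dX_pow_dvd (a : Fin 3 → MvPolynomial (Fin 3) K) (l : Fin 3 → K) (m : ℕ) (hm : 1 ≤ m)
    (h : linf l ^ m ∣ C (l 0) * a 0 + C (l 1) * a 1 + C (l 2) * a 2) (b : MvPolynomial (Fin 3) K) :
    linf l ^ m ∣ dX a (linf l ^ m * b) := by
  have h1 : ∀ n : ℕ, linf l ^ m ∣ dX a (linf l ^ n) := by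
    intro n
    induction n with
    | zero =>
      rw [pow_zero]
      unfold dX
      simp
    | succ n ih =>
      rw [pow_succ, dX_mul, dX_linf]
      exact dvd_add (Dvd.dvd.mul_right ih _) (Dvd.dvd.mul_left h _)
  rw [dX_mul]
  exact dvd_add (Dvd.dvd.mul_right (h1 m) _) (Dvd.dvd.mul_right dvd_rfl _)

theorem euler_three (g : MvPolynomial (Fin 3) K) (α : ℕ) (hg : g.IsHomogeneous α) :
    X 0 * pderiv 0 g + X 1 * pderiv 1 g + X 2 * pderiv 2 g = C (α : K) * g := by
  have h1 := hg.sum_X_mul_pderiv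
  rw [Fin.sum_univ_three] at h1
  rw [h1, nsmul_eq_mul]
  simp

theorem linf_single_X {N : ℕ} (k : Fin N) : linf (Pi.single k (1 : K)) = X k := by
  classical
  unfold linf
  rw [Finset.sum_eq_single k]
  · rw [Pi.single_eq_same, C_1, one_mul]
  · intro j _ hj
    rw [Pi.single_eq_of_ne hj, C_0, zero_mul]
  · simp

/-- the derivatives of `Σ x_k f_k = 0` -/
theorem dsum_three (f : Fin 3 → MvPolynomial (Fin 3) K)
    (hx : X 0 * f 0 + X 1 * f 1 + X 2 * f 2 = 0) (j : Fin 3) :
    f j + (X 0 * pderiv j (f 0) + X 1 * pderiv j (f 1) + X 2 * pderiv j (f 2)) = 0 := by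
  have h1 := congrArg (pderiv j) hx
  simp only [map_add, map_zero, Derivation.leibniz, smul_eq_mul] at h1
  fin_cases j
  · simp only [Fin.zero_eta] at h1 ⊢
    rw [pderiv_X_self, pderiv_X_of_ne (by decide), pderiv_X_of_ne (by decide)] at h1
    linear_combination h1
  · simp only [Fin.mk_one] at h1 ⊢
    rw [pderiv_X_self, pderiv_X_of_ne (by decide), pderiv_X_of_ne (by decide)] at h1
    linear_combination h1
  · simp only [Fin.reduceFinMk] at h1 ⊢
    rw [pderiv_X_self, pderiv_X_of_ne (by decide), pderiv_X_of_ne (by decide)] at h1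
    linear_combination h1

theorem curl_cross (α : ℕ) (f : Fin 3 → MvPolynomial (Fin 3) K) (hf : ∀ k, (f k).IsHomogeneous α)
    (hx : X 0 * f 0 + X 1 * f 1 + X 2 * f 2 = 0) :
    X 1 * curl f 2 - X 2 * curl f 1 = -(C ((α : K) + 1) * f 0) ∧
    X 2 * curl f 0 - X 0 * curl f 2 = -(C ((α : K) + 1) * f 1) ∧
    X 0 * curl f 1 - X 1 * curl f 0 = -(C ((α : K) + 1) * f 2) := by
  have d0 := dsum_three f hx 0
  have d1 := dsum_three f hx 1
  have d2 := dsum_three f hx 2
  have e0 := euler_three (f 0) α (hf 0)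
  have e1 := euler_three (f 1) α (hf 1)
  have e2 := euler_three (f 2) α (hf 2)
  rw [curl_zero, curl_one, curl_two, C_add, C_1]
  refine ⟨?_, ?_, ?_⟩
  · linear_combination d0 - e0
  · linear_combination d1 - e1
  · linear_combination d2 - e2

/-- the extactic form -/
theorem ext_form [CharZero K] (α : ℕ) (f : Fin 3 → MvPolynomial (Fin 3) K)
    (hf : ∀ k, (f k).IsHomogeneous α) (hx : X 0 * f 0 + X 1 * f 1 + X 2 * f 2 = 0) :
    ∃ E : MvPolynomial (Fin 3) K,
      f 1 * dX (curl f) (f 2) - f 2 * dX (curl f) (f 1) = X 0 * E ∧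
      f 2 * dX (curl f) (f 0) - f 0 * dX (curl f) (f 2) = X 1 * E ∧
      f 0 * dX (curl f) (f 1) - f 1 * dX (curl f) (f 0) = X 2 * E := by
  obtain ⟨c0, c1, c2⟩ := curl_cross α f hf hx
  have hα : (C ((α : K) + 1) : MvPolynomial (Fin 3) K) ≠ 0 := by
    rw [Ne, C_eq_zero]
    exact Nat.cast_add_one_ne_zero α
  have hXf : curl f 0 * f 0 + curl f 1 * f 1 + curl f 2 * f 2 = 0 := by
    apply mul_left_cancel₀ hα
    rw [mul_zero]
    linear_combination curl f 0 * c0 + curl f 1 * c1 + curl f 2 * c2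
  have d0 := dsum_three f hx 0
  have d1 := dsum_three f hx 1
  have d2 := dsum_three f hx 2
  have hxG : X 0 * dX (curl f) (f 0) + X 1 * dX (curl f) (f 1) + X 2 * dX (curl f) (f 2) = 0 := by
    unfold dX
    linear_combination curl f 0 * d0 + curl f 1 * d1 + curl f 2 * d2 - hXf
  set G0 := dX (curl f) (f 0) with hG0
  set G1 := dX (curl f) (f 1) with hG1
  set G2 := dX (curl f) (f 2) with hG2
  have w01 : X 1 * (f 1 * G2 - f 2 * G1) = X 0 * (f 2 * G0 - f 0 * G2) := by
    linear_combination -f 2 * hxG + G2 * hx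
  have w02 : X 2 * (f 1 * G2 - f 2 * G1) = X 0 * (f 0 * G1 - f 1 * G0) := by
    linear_combination f 1 * hxG - G1 * hx
  have hX0 : Prime (X 0 : MvPolynomial (Fin 3) K) := by
    rw [← linf_single_X]
    exact (linf_irr _ (by
      intro h
      have := congrFun h 0
      simp at this)).prime
  have h1 : X 0 ∣ f 1 * G2 - f 2 * G1 := by
    have h2 : (X 0 : MvPolynomial (Fin 3) K) ∣ X 1 * (f 1 * G2 - f 2 * G1) := by
      rw [w01]; exact dvd_mul_right _ _
    rcases hX0.dvd_or_dvd h2 with h | h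
    · exfalso
      rw [X_dvd_X] at h
      exact absurd h (by simp)
    · exact h
  obtain ⟨E, hE⟩ := h1
  refine ⟨E, hE, ?_, ?_⟩
  · apply mul_left_cancel₀ (X_ne_zero (0 : Fin 3) : (X 0 : MvPolynomial (Fin 3) K) ≠ 0)
    rw [← w01, hE]; ring
  · apply mul_left_cancel₀ (X_ne_zero (0 : Fin 3) : (X 0 : MvPolynomial (Fin 3) K) ≠ 0)
    rw [← w02, hE]; ring

/-- powers of invariant linear forms divide the extactic form -/
theorem ext_dvd (f : Fin 3 → MvPolynomial (Fin 3) K) (l : Fin 3 → K) (hl : l ≠ 0) (m : ℕ) (hm : 1 ≤ m)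
    (hd : ∀ u : Fin 3 → K, ∑ k, l k * u k = 0 →
      linf l ^ m ∣ C (u 0) * f 0 + C (u 1) * f 1 + C (u 2) * f 2) :
    linf l ^ m ∣ f 1 * dX (curl f) (f 2) - f 2 * dX (curl f) (f 1) ∧
    linf l ^ m ∣ f 2 * dX (curl f) (f 0) - f 0 * dX (curl f) (f 2) ∧
    linf l ^ m ∣ f 0 * dX (curl f) (f 1) - f 1 * dX (curl f) (f 0) := by
  classical
  obtain ⟨j, hj⟩ := Function.ne_iff.1 hl
  rw [Pi.zero_apply] at hj
  -- `l_j f_k = l_k f_j + linf l ^ m * b_k`
  have hb : ∀ k, ∃ b, C (l j) * f k = C (l k) * f j + linf l ^ m * b := by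
    intro k
    have h1 := hd (fun i => l j * Pi.single (M := fun _ => K) k 1 i - l k * Pi.single (M := fun _ => K) j 1 i) (by
      simp only [mul_sub, Finset.sum_sub_distrib]
      have e1 : ∑ i, l i * (l j * Pi.single (M := fun _ => K) k 1 i) = l k * l j := by
        rw [Finset.sum_eq_single k]
        · rw [Pi.single_eq_same, mul_one]
        · intro b _ hb
          rw [Pi.single_eq_of_ne hb, mul_zero, mul_zero]
        · simp
      have e2 : ∑ i, l i * (l k * Pi.single (M := fun _ => K) j 1 i) = l j * l k := by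
        rw [Finset.sum_eq_single j]
        · rw [Pi.single_eq_same, mul_one]
        · intro b _ hb
          rw [Pi.single_eq_of_ne hb, mul_zero, mul_zero]
        · simp
      rw [e1, e2]; ring)
    obtain ⟨b, hb⟩ := h1
    refine ⟨b, ?_⟩
    rw [← hb]
    have e3 : ∀ (i : Fin 3), (C (Pi.single (M := fun _ => K) i 1 0) * f 0 + C (Pi.single (M := fun _ => K) i 1 1) * f 1 +
        C (Pi.single (M := fun _ => K) i 1 2) * f 2 : MvPolynomial (Fin 3) K) = f i := by
      intro i
      fin_cases i <;> simp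
    have e4 := e3 k
    have e5 := e3 j
    simp only [C_sub, C_mul]
    linear_combination (-C (l j)) * e4 + C (l k) * e5
  choose b hb using hb
  have hcj : C (l j)⁻¹ * C (l j) = (1 : MvPolynomial (Fin 3) K) := by
    rw [← C_mul, inv_mul_cancel₀ hj, C_1]
  have cancel : ∀ g : MvPolynomial (Fin 3) K, linf l ^ m ∣ C (l j) * g → linf l ^ m ∣ g := by
    intro g hg
    have h1 : g = C (l j)⁻¹ * (C (l j) * g) := by
      rw [← mul_assoc, hcj, one_mul]
    rw [h1]
    exact Dvd.dvd.mul_left hg _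
  -- the curl
  have hpd : ∀ i k, C (l j) * pderiv i (f k) = C (l k) * pderiv i (f j) +
      (pderiv i (linf l ^ m) * b k + linf l ^ m * pderiv i (b k)) := by
    intro i k
    have h1 := congrArg (pderiv i) (hb k)
    rw [pderiv_C_mul, map_add, pderiv_C_mul, Derivation.leibniz, smul_eq_mul, smul_eq_mul] at h1
    rw [h1]; ring
  have hpp : ∀ i, pderiv i (linf l ^ m) = C (l i) * ((m : MvPolynomial (Fin 3) K) * linf l ^ (m - 1)) := by
    intro i
    rw [Derivation.leibniz_pow, pderiv_linf, nsmul_eq_mul, smul_eq_mul]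
    ring
  have hcurl : linf l ^ m ∣ C (l 0) * curl f 0 + C (l 1) * curl f 1 + C (l 2) * curl f 2 := by
    apply cancel
    refine ⟨C (l 0) * (pderiv 1 (b 2) - pderiv 2 (b 1)) + C (l 1) * (pderiv 2 (b 0) - pderiv 0 (b 2)) +
      C (l 2) * (pderiv 0 (b 1) - pderiv 1 (b 0)), ?_⟩
    rw [curl_zero, curl_one, curl_two]
    have h12 := hpd 1 2
    have h21 := hpd 2 1
    have h20 := hpd 2 0
    have h02 := hpd 0 2
    have h01 := hpd 0 1
    have h10 := hpd 1 0
    rw [hpp] at h12 h21 h20 h02 h01 h10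
    linear_combination C (l 0) * (h12 - h21) + C (l 1) * (h20 - h02) + C (l 2) * (h01 - h10)
  -- the derivatives
  have hG : ∀ k, ∃ b', C (l j) * dX (curl f) (f k) = C (l k) * dX (curl f) (f j) + linf l ^ m * b' := by
    intro k
    obtain ⟨b', hb'⟩ := dX_pow_dvd (curl f) l m hm hcurl (b k)
    refine ⟨b', ?_⟩
    rw [← dX_C_mul, hb k, dX_add, dX_C_mul, hb']
  choose b' hb' using hG
  refine ⟨?_, ?_, ?_⟩
  · apply cancel
    apply cancel
    refine ⟨C (l 1) * f j * b' 2 + b 1 * (C (l 2) * dX (curl f) (f j)) + b 1 * b' 2 * linf l ^ m -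
      (C (l 2) * f j * b' 1 + b 2 * (C (l 1) * dX (curl f) (f j)) + b 2 * b' 1 * linf l ^ m), ?_⟩
    linear_combination (C (l j) * dX (curl f) (f 2)) * hb 1 + (C (l 1) * f j + linf l ^ m * b 1) * hb' 2 -
      (C (l j) * dX (curl f) (f 1)) * hb 2 - (C (l 2) * f j + linf l ^ m * b 2) * hb' 1
  · apply cancel
    apply cancel
    refine ⟨C (l 2) * f j * b' 0 + b 2 * (C (l 0) * dX (curl f) (f j)) + b 2 * b' 0 * linf l ^ m -
      (C (l 0) * f j * b' 2 + b 0 * (C (l 2) * dX (curl f) (f j)) + b 0 * b' 2 * linf l ^ m), ?_⟩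
    linear_combination (C (l j) * dX (curl f) (f 0)) * hb 2 + (C (l 2) * f j + linf l ^ m * b 2) * hb' 0 -
      (C (l j) * dX (curl f) (f 2)) * hb 0 - (C (l 0) * f j + linf l ^ m * b 0) * hb' 2
  · apply cancel
    apply cancel
    refine ⟨C (l 0) * f j * b' 1 + b 0 * (C (l 1) * dX (curl f) (f j)) + b 0 * b' 1 * linf l ^ m -
      (C (l 1) * f j * b' 0 + b 1 * (C (l 0) * dX (curl f) (f j)) + b 1 * b' 0 * linf l ^ m), ?_⟩
    linear_combination (C (l j) * dX (curl f) (f 1)) * hb 0 + (C (l 0) * f j + linf l ^ m * b 0) * hb' 1 -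
      (C (l j) * dX (curl f) (f 0)) * hb 1 - (C (l 1) * f j + linf l ^ m * b 1) * hb' 0

/-- the extactic form is zero, or the number of invariant lines is bounded -/
theorem ext_zero_or [CharZero K] (α : ℕ) (f : Fin 3 → MvPolynomial (Fin 3) K)
    (hf : ∀ k, (f k).IsHomogeneous α) (hx : X 0 * f 0 + X 1 * f 1 + X 2 * f 2 = 0)
    (R : Finset κ) (lam : κ → Fin 3 → K) (hl0 : ∀ i ∈ R, lam i ≠ 0)
    (hnp : ∀ i ∈ R, ∀ j ∈ R, i ≠ j → ∀ c : K, lam j ≠ c • lam i)
    (m : κ → ℕ) (hm : ∀ i ∈ R, 1 ≤ m i)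
    (hdvd : ∀ i ∈ R, ∀ u : Fin 3 → K, ∑ k, lam i k * u k = 0 →
      linf (lam i) ^ m i ∣ C (u 0) * f 0 + C (u 1) * f 1 + C (u 2) * f 2) :
    ∑ i ∈ R, m i + 3 ≤ 3 * α ∨
      (f 1 * dX (curl f) (f 2) - f 2 * dX (curl f) (f 1) = 0 ∧
      f 2 * dX (curl f) (f 0) - f 0 * dX (curl f) (f 2) = 0 ∧
      f 0 * dX (curl f) (f 1) - f 1 * dX (curl f) (f 0) = 0) := by
  classical
  have hinf : Infinite K := inferInstance
  obtain ⟨E, e0, e1, e2⟩ := ext_form α f hf hx
  by_cases hE : E = 0
  · right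
    rw [e0, e1, e2, hE]
    exact ⟨mul_zero _, mul_zero _, mul_zero _⟩
  · left
    have hα : 1 ≤ α := by
      by_contra hcon
      have hα0 : α = 0 := by omega
      subst hα0
      have h1 : ∀ k, f k = C (coeff 0 (f k)) := by
        intro k
        rw [← totalDegree_eq_zero_iff_eq_C, totalDegree_zero_iff_isHomogeneous]
        exact hf k
      have h2 : ∀ k, dX (curl f) (f k) = 0 := by
        intro k
        unfold dX
        rw [h1 k]
        simp
      rw [h2, h2, mul_zero, mul_zero, sub_zero] at e0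
      exact (mul_ne_zero (X_ne_zero _) hE) e0.symm
    have hcurlh : ∀ k, (curl f k).IsHomogeneous (α - 1) := by
      intro k
      fin_cases k
      · exact ((hf 2).pderiv).sub ((hf 1).pderiv)
      · exact ((hf 0).pderiv).sub ((hf 2).pderiv)
      · exact ((hf 1).pderiv).sub ((hf 0).pderiv)
    have hGh : ∀ k, (dX (curl f) (f k)).IsHomogeneous ((α - 1) + (α - 1)) := by
      intro k
      exact (((hcurlh 0).mul (hf k).pderiv).add ((hcurlh 1).mul (hf k).pderiv)).add
        ((hcurlh 2).mul (hf k).pderiv)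
    have hWh : (X 0 * E).IsHomogeneous (α + ((α - 1) + (α - 1))) := by
      rw [← e0]
      exact ((hf 1).mul (hGh 2)).sub ((hf 2).mul (hGh 1))
    obtain ⟨j, hj, hjd⟩ := hom_mul_degree (X 0) E _ 1 hWh (X_ne_zero _) hE (isHomogeneous_X K 0)
    have h3 := lin_pow_deg R lam hl0 hnp m E (fun i hi => ?_) hE j hj
    · omega
    · obtain ⟨d0, d1, -⟩ := ext_dvd f (lam i) (hl0 i hi) (m i) (hm i hi) (hdvd i hi)
      rw [e0] at d0
      rw [e1] at d1
      by_cases hk : ∃ c : K, Pi.single (M := fun _ => K) (0 : Fin 3) 1 = c • lam i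
      · -- then `lam i` is not a multiple of the second coordinate
        have h4 : ∀ c : K, Pi.single (M := fun _ => K) (1 : Fin 3) 1 ≠ c • lam i := by
          intro c hc
          obtain ⟨c', hc'⟩ := hk
          have a1 := congrFun hc' 0
          have a2 := congrFun hc' 1
          have a3 := congrFun hc 1
          simp only [Pi.single_eq_same, Pi.smul_apply, smul_eq_mul] at a1 a3
          rw [Pi.single_eq_of_ne (by decide), Pi.smul_apply, smul_eq_mul] at a2
          have hc'0 : c' ≠ 0 := by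
            rintro rfl
            rw [zero_mul] at a1
            exact one_ne_zero a1
          have h5 : lam i 1 = 0 := (mul_eq_zero.1 a2.symm).resolve_left hc'0
          rw [h5, mul_zero] at a3
          exact one_ne_zero a3
        have h6 := lin_rel (lam i) (Pi.single (M := fun _ => K) (1 : Fin 3) 1) (hl0 i hi) (by
          intro h
          have := congrFun h 1
          simp at this) h4 (m i) 1
        rw [pow_one, linf_single_X] at h6
        exact h6.dvd_of_dvd_mul_left d1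
      · push Not at hk
        have h6 := lin_rel (lam i) (Pi.single (M := fun _ => K) (0 : Fin 3) 1) (hl0 i hi) (by
          intro h
          have := congrFun h 0
          simp at this) hk (m i) 1
        rw [pow_one, linf_single_X] at h6
        exact h6.dvd_of_dvd_mul_left d0

end Geproci
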