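import Pool.Agent.Work.MP_efd9e3_ag.Gp.SThreeA

/-! MODULE SThreeB (MP_efd9e3_ag/Gp), helper69.  A 1-form with vanishing extactic form is a pencil of lines. -/

set_option autoImplicit false

open MvPolynomial

namespace Geproci

variable {K : Type*} [Field K]

theorem dirP_three (v : Fin 3 → K) (g : MvPolynomial (Fin 3) K) :
    dirP v g = C (v 0) * pderiv 0 g + C (v 1) * pderiv 1 g + C (v 2) * pderiv 2 g := by
  rw [dirP, Fin.sum_univ_three]

private theorem cross_all {R : Type*} [CommRing R] (f g : Fin 3 → R) (w0 : f 1 * g 2 - f 2 * g 1 = 0)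
    (w1 : f 2 * g 0 - f 0 * g 2 = 0) (w2 : f 0 * g 1 - f 1 * g 0 = 0) (i j : Fin 3) :
    f i * g j = f j * g i := by
  have h01 : f 0 * g 1 = f 1 * g 0 := by linear_combination w2
  have h12 : f 1 * g 2 = f 2 * g 1 := by linear_combination w0
  have h20 : f 2 * g 0 = f 0 * g 2 := by linear_combination w1
  fin_cases i <;> fin_cases j
  · rfl
  · exact h01
  · exact h20.symm
  · exact h01.symm
  · rfl
  · exact h12
  · exact h20
  · exact h12.symm
  · rfl

private theorem cross_v {R : Type*} [CommRing R] (f V v : Fin 3 → R) (h1 : V 1 * f 2 = V 2 * f 1)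
    (h2 : V 2 * f 0 = V 0 * f 2) (h3 : V 0 * f 1 = V 1 * f 0) (c : Fin 3) :
    f c * (v 0 * V 0 + v 1 * V 1 + v 2 * V 2) = V c * (v 0 * f 0 + v 1 * f 1 + v 2 * f 2) := by
  have a0 : f 0 * (v 0 * V 0 + v 1 * V 1 + v 2 * V 2) = V 0 * (v 0 * f 0 + v 1 * f 1 + v 2 * f 2) := by
    linear_combination (-v 1) * h3 + v 2 * h2
  have a1 : f 1 * (v 0 * V 0 + v 1 * V 1 + v 2 * V 2) = V 1 * (v 0 * f 0 + v 1 * f 1 + v 2 * f 2) := by
    linear_combination v 0 * h3 - v 2 * h1
  have a2 : f 2 * (v 0 * V 0 + v 1 * V 1 + v 2 * V 2) = V 2 * (v 0 * f 0 + v 1 * f 1 + v 2 * f 2) := by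
    linear_combination (-v 0) * h2 + v 1 * h1
  fin_cases c
  · exact a0
  · exact a1
  · exact a2

/-- the 1-form is constant up to a factor along its kernel -/
theorem leaf_const [CharZero K] (α : ℕ) (f : Fin 3 → MvPolynomial (Fin 3) K)
    (hf : ∀ k, (f k).IsHomogeneous α) (hx : X 0 * f 0 + X 1 * f 1 + X 2 * f 2 = 0)
    (w0 : f 1 * dX (curl f) (f 2) - f 2 * dX (curl f) (f 1) = 0)
    (w1 : f 2 * dX (curl f) (f 0) - f 0 * dX (curl f) (f 2) = 0)
    (w2 : f 0 * dX (curl f) (f 1) - f 1 * dX (curl f) (f 0) = 0) (c : Fin 3) (x v : Fin 3 → K)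
    (hc : eval x (f c) ≠ 0) (hv : ∑ k, eval x (f k) * v k = 0) (i : Fin 3) :
    eval (fun k => x k + v k) (f i) * eval x (f c) = eval (fun k => x k + v k) (f c) * eval x (f i) := by
  classical
  have hinf : Infinite K := inferInstance
  obtain ⟨c0, c1, c2⟩ := curl_cross α f hf hx
  have hα : (C ((α : K) + 1) : MvPolynomial (Fin 3) K) ≠ 0 := by
    rw [Ne, C_eq_zero]
    exact Nat.cast_add_one_ne_zero α
  -- `f_i G_j = f_j G_i`
  have hW : ∀ i j, f i * dX (curl f) (f j) = f j * dX (curl f) (f i) :=
    cross_all f (fun k => dX (curl f) (f k)) w0 w1 w2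
  -- the vectors `V_i`
  set V : Fin 3 → Fin 3 → MvPolynomial (Fin 3) K := fun i j => f c * pderiv j (f i) - f i * pderiv j (f c)
    with hV
  have hVX : ∀ i, V i 0 * curl f 0 + V i 1 * curl f 1 + V i 2 * curl f 2 = 0 := by
    intro i
    have h1 := hW c i
    unfold dX at h1
    rw [hV]
    linear_combination h1
  have hVx : ∀ i, V i 0 * X 0 + V i 1 * X 1 + V i 2 * X 2 = 0 := by
    intro i
    have h1 := euler_three (f i) α (hf i)
    have h2 := euler_three (f c) α (hf c)
    rw [hV]
    linear_combination f c * h1 - f i * h2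
  have hVf : ∀ i, V i 1 * f 2 = V i 2 * f 1 ∧ V i 2 * f 0 = V i 0 * f 2 ∧ V i 0 * f 1 = V i 1 * f 0 := by
    intro i
    have h1 := hVX i
    have h2 := hVx i
    refine ⟨?_, ?_, ?_⟩
    · apply mul_left_cancel₀ hα
      linear_combination V i 1 * c2 - V i 2 * c1 - X 0 * h1 + curl f 0 * h2
    · apply mul_left_cancel₀ hα
      linear_combination V i 2 * c0 - V i 0 * c2 - X 1 * h1 + curl f 1 * h2
    · apply mul_left_cancel₀ hα
      linear_combination V i 0 * c1 - V i 1 * c0 - X 2 * h1 + curl f 2 * h2
  have hVc : ∀ i, f c * (C (v 0) * V i 0 + C (v 1) * V i 1 + C (v 2) * V i 2) =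
      V i c * (C (v 0) * f 0 + C (v 1) * f 1 + C (v 2) * f 2) := by
    intro i
    obtain ⟨h1, h2, h3⟩ := hVf i
    exact cross_v f (V i) (fun k => C (v k)) h1 h2 h3 c
  -- the polynomials in one variable
  set F : Fin 3 → Polynomial K := fun k => line x v (f k) with hF
  have hFx : ∀ k, (F k).eval 0 = eval x (f k) := by
    intro k
    rw [hF, eval_line]
    have : (fun k => x k + 0 * v k) = x := by funext k; ring
    rw [this]
  set Ψ : Fin 3 → Polynomial K := fun k => F k * Polynomial.C (eval x (f c)) -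
    F c * Polynomial.C (eval x (f k)) with hΨ
  have hΨ0 : ∀ k, (Ψ k).eval 0 = 0 := by
    intro k
    rw [hΨ]
    simp only [Polynomial.eval_sub, Polynomial.eval_mul, Polynomial.eval_C, hFx]
    ring
  have hsum : Polynomial.C (v 0) * Ψ 0 + Polynomial.C (v 1) * Ψ 1 + Polynomial.C (v 2) * Ψ 2 =
      Polynomial.C (eval x (f c)) * (Polynomial.C (v 0) * F 0 + Polynomial.C (v 1) * F 1 +
        Polynomial.C (v 2) * F 2) := by
    have h1 : Polynomial.C (eval x (f 0)) * Polynomial.C (v 0) + Polynomial.C (eval x (f 1)) *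
        Polynomial.C (v 1) + Polynomial.C (eval x (f 2)) * Polynomial.C (v 2) = 0 := by
      rw [Fin.sum_univ_three] at hv
      rw [← Polynomial.C_mul, ← Polynomial.C_mul, ← Polynomial.C_mul, ← Polynomial.C_add,
        ← Polynomial.C_add, hv, Polynomial.C_0]
    rw [hΨ]
    linear_combination -F c * h1
  have hder : ∀ k, Polynomial.derivative (F k) = Polynomial.C (v 0) * line x v (pderiv 0 (f k)) +
      Polynomial.C (v 1) * line x v (pderiv 1 (f k)) + Polynomial.C (v 2) * line x v (pderiv 2 (f k)) := by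
    intro k
    rw [hF, derivative_line, dirP_three]
    simp only [map_add, map_mul, line_C]
  have hzero := uni_zero (F c * F c) (by
      rw [Polynomial.eval_mul, hFx]
      exact mul_ne_zero hc hc) Ψ hΨ0 (fun i => by
      refine ⟨fun k => (if k = i then F c * Polynomial.derivative (F c) else 0) +
        line x v (V i c) * Polynomial.C (v k), ?_⟩
      have h1 := congrArg (line x v) (hVc i)
      simp only [map_add, map_mul, line_C] at h1
      have h2 : ∀ j, line x v (V i j) = F c * line x v (pderiv j (f i)) - F i * line x v (pderiv j (f c)) := by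
        intro j
        rw [hV, hF]
        simp only [map_sub, map_mul]
      have h3 : ∑ k, ((if k = i then F c * Polynomial.derivative (F c) else 0) +
          line x v (V i c) * Polynomial.C (v k)) * Ψ k =
          F c * Polynomial.derivative (F c) * Ψ i + line x v (V i c) *
            (Polynomial.C (v 0) * Ψ 0 + Polynomial.C (v 1) * Ψ 1 + Polynomial.C (v 2) * Ψ 2) := by
        simp only [add_mul, Finset.sum_add_distrib, ite_mul, zero_mul, Finset.sum_ite_eq',
          Finset.mem_univ, if_true, Fin.sum_univ_three]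
        ring
      rw [h3, hsum]
      have h4 : Polynomial.derivative (Ψ i) = Polynomial.derivative (F i) * Polynomial.C (eval x (f c)) -
          Polynomial.derivative (F c) * Polynomial.C (eval x (f i)) := by
        rw [hΨ]
        simp only [Polynomial.derivative_sub, Polynomial.derivative_mul, Polynomial.derivative_C,
          mul_zero, add_zero]
      have h5 : F c * Polynomial.derivative (F i) - F i * Polynomial.derivative (F c) =
          Polynomial.C (v 0) * line x v (V i 0) + Polynomial.C (v 1) * line x v (V i 1) +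
          Polynomial.C (v 2) * line x v (V i 2) := by
        rw [hder i, hder c, h2 0, h2 1, h2 2]
        ring
      have h6 : F c * (F c * Polynomial.derivative (F i) - F i * Polynomial.derivative (F c)) =
          line x v (V i c) * (Polynomial.C (v 0) * F 0 + Polynomial.C (v 1) * F 1 +
            Polynomial.C (v 2) * F 2) := by
        rw [h5]
        exact h1
      rw [h4, hΨ]
      linear_combination Polynomial.C (eval x (f c)) * h6) i
  have h7 := congrArg (Polynomial.eval 1) hzero
  rw [hΨ, hF] at h7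
  simp only [Polynomial.eval_sub, Polynomial.eval_mul, Polynomial.eval_C, Polynomial.eval_zero,
    eval_line, one_mul] at h7
  linear_combination h7

end Geproci
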