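import Pool.Agent.Work.MP_efd9e3_ag.Gp.SThreeB

/-! MODULE SThreeC (MP_efd9e3_ag/Gp), helper69.  The base point of a pencil of lines; the final statement in three
variables. -/

set_option autoImplicit false

open MvPolynomial

namespace Geproci

variable {K : Type*} [Field K] {κ : Type*}

theorem eval_smul_hom' {M : ℕ} {q : MvPolynomial (Fin M) K} {t : ℕ} (hq : q.IsHomogeneous t) (a : K)
    (p : Fin M → K) : eval (a • p) q = a ^ t * eval p q := eval_smul_hom hq a p

/-- the contraction with the constant vector `q` -/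
noncomputable def dotP (f : Fin 3 → MvPolynomial (Fin 3) K) (q : Fin 3 → K) : MvPolynomial (Fin 3) K :=
  C (q 0) * f 0 + C (q 1) * f 1 + C (q 2) * f 2

theorem eval_dotP (f : Fin 3 → MvPolynomial (Fin 3) K) (q x : Fin 3 → K) :
    eval x (dotP f q) = ∑ k, eval x (f k) * q k := by
  rw [dotP, Fin.sum_univ_three]
  simp only [map_add, map_mul, eval_C]
  ring

private theorem cross_scal (f g : Fin 3 → K) (h0 : f 1 * g 2 - f 2 * g 1 = 0) (h1 : f 2 * g 0 - f 0 * g 2 = 0)
    (h2 : f 0 * g 1 - f 1 * g 0 = 0) (i j : Fin 3) : f i * g j = f j * g i := by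
  have h01 : f 0 * g 1 = f 1 * g 0 := by linear_combination h2
  have h12 : f 1 * g 2 = f 2 * g 1 := by linear_combination h0
  have h20 : f 2 * g 0 = f 0 * g 2 := by linear_combination h1
  fin_cases i <;> fin_cases j
  · rfl
  · exact h01
  · exact h20.symm
  · exact h01.symm
  · rfl
  · exact h12
  · exact h20
  · exact h12.symm
  · rfl

theorem pencil [CharZero K] (α : ℕ) (f : Fin 3 → MvPolynomial (Fin 3) K)
    (hf : ∀ k, (f k).IsHomogeneous α) (hx : X 0 * f 0 + X 1 * f 1 + X 2 * f 2 = 0)
    (hne : ∃ k, f k ≠ 0)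
    (w0 : f 1 * dX (curl f) (f 2) - f 2 * dX (curl f) (f 1) = 0)
    (w1 : f 2 * dX (curl f) (f 0) - f 0 * dX (curl f) (f 2) = 0)
    (w2 : f 0 * dX (curl f) (f 1) - f 1 * dX (curl f) (f 0) = 0) :
    ∃ q : Fin 3 → K, q ≠ 0 ∧ dotP f q = 0 := by
  classical
  have hinf : Infinite K := inferInstance
  obtain ⟨c, hc⟩ := hne
  -- the degree is positive
  have hα : 1 ≤ α := by
    by_contra hcon
    have hα0 : α = 0 := by omega
    subst hα0
    have h1 : ∀ k, f k = C (coeff 0 (f k)) := by
      intro k
      rw [← totalDegree_eq_zero_iff_eq_C, totalDegree_zero_iff_isHomogeneous]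
      exact hf k
    have h2 : linf (fun k => coeff 0 (f k)) = 0 := by
      rw [linf_three, ← h1, ← h1, ← h1, ← hx]
      ring
    have h3 : (fun k => coeff 0 (f k)) = 0 := by
      by_contra hcon
      exact linf_ne_zero _ hcon h2
    apply hc
    rw [h1 c, show coeff 0 (f c) = 0 from congrFun h3 c, C_0]
  obtain ⟨x₀, hx₀⟩ : ∃ x, eval x (f c) ≠ 0 := by
    by_contra hcon
    push Not at hcon
    exact hc (MvPolynomial.funext fun x => by rw [hcon x, map_zero])
  set φ : Fin 3 → K := fun k => eval x₀ (f k) with hφ
  have hxx : ∀ x : Fin 3 → K, ∑ k, eval x (f k) * x k = 0 := by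
    intro x
    have h1 := congrArg (eval x) hx
    simp only [map_add, map_mul, eval_X, map_zero] at h1
    rw [Fin.sum_univ_three]
    linear_combination h1
  have hx₀0 : x₀ ≠ 0 := by
    rintro rfl
    apply hx₀
    have h1 := eval_smul_hom' (hf c) (0 : K) 0
    rw [zero_smul, zero_pow (by omega), zero_mul] at h1
    exact h1
  -- the kernel of `φ`
  let L : (Fin 3 → K) →ₗ[K] K := ∑ k, φ k • LinearMap.proj k
  have hL : ∀ v, L v = ∑ k, φ k * v k := by
    intro v
    simp [L, LinearMap.sum_apply]
  have hL0 : L ≠ 0 := by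
    intro h
    have h1 := hL (Pi.single c 1)
    rw [h, LinearMap.zero_apply, Finset.sum_eq_single c] at h1
    · rw [Pi.single_eq_same, mul_one] at h1
      exact hx₀ h1.symm
    · intro b _ hb
      rw [Pi.single_eq_of_ne hb, mul_zero]
    · simp
  have hfin : Module.finrank K (LinearMap.ker L) = 2 := by
    have h1 := LinearMap.finrank_range_add_finrank_ker L
    have h2 : Module.finrank K (LinearMap.range L) = 1 := by
      rw [LinearMap.range_eq_top.2 (LinearMap.surjective hL0), finrank_top, Module.finrank_self]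
    rw [h2] at h1
    simp only [Module.finrank_fintype_fun_eq_card, Fintype.card_fin] at h1
    omega
  have hx₀L : x₀ ∈ LinearMap.ker L := by
    rw [LinearMap.mem_ker, hL]
    exact hxx x₀
  obtain ⟨p₁, hp₁, hp₁'⟩ : ∃ p₁ ∈ LinearMap.ker L, p₁ ∉ Submodule.span K {x₀} := by
    by_contra hcon
    push Not at hcon
    have h1 : LinearMap.ker L ≤ Submodule.span K {x₀} := hcon
    have h2 := Submodule.finrank_mono h1
    rw [hfin, finrank_span_singleton hx₀0] at h2
    omega
  have hp₁0 : p₁ ≠ 0 := by
    rintro rfl
    exact hp₁' (Submodule.zero_mem _)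
  have hli : LinearIndependent K ![x₀, p₁] := by
    rw [LinearIndependent.pair_iff' hx₀0]
    intro a ha
    exact hp₁' (Submodule.mem_span_singleton.2 ⟨a, ha⟩)
  have hspan : ∀ w, ∑ k, φ k * w k = 0 → ∃ a b : K, w = a • x₀ + b • p₁ := by
    intro w hw
    have h1 : Submodule.span K (Set.range ![x₀, p₁]) = LinearMap.ker L := by
      apply Submodule.eq_of_le_of_finrank_eq
      · rw [Submodule.span_le]
        rintro _ ⟨i, rfl⟩
        fin_cases i
        · exact hx₀L
        · exact hp₁
      · rw [finrank_span_eq_card hli, hfin, Fintype.card_fin]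
    have h2 : w ∈ Submodule.span K (Set.range ![x₀, p₁]) := by
      rw [h1, LinearMap.mem_ker, hL]
      exact hw
    have h3 : Set.range ![x₀, p₁] = {x₀, p₁} := by
      simp [Matrix.range_cons, Matrix.range_empty, Set.pair_comm]
    rw [h3, Submodule.mem_span_pair] at h2
    obtain ⟨a, b, hab⟩ := h2
    exact ⟨a, b, hab.symm⟩
  -- the roots
  set g : Polynomial K := line x₀ p₁ (f c) with hg
  have hg0 : g ≠ 0 := by
    intro h
    apply hx₀
    have h1 := congrArg (Polynomial.eval 0) h
    rw [hg, eval_line, Polynomial.eval_zero] at h1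
    have : (fun k => x₀ k + 0 * p₁ k) = x₀ := by funext k; ring
    rwa [this] at h1
  have key : ∀ x : Fin 3 → K, eval x (f c) ≠ 0 → eval x (dotP f x₀) = 0 ∨ eval x (dotP f p₁) = 0 ∨
      ∃ σ ∈ g.roots.toFinset, eval x (dotP f (fun k => x₀ k + σ * p₁ k)) = 0 := by
    intro x hxc
    set w : Fin 3 → K := ![eval x (f 1) * φ 2 - eval x (f 2) * φ 1, eval x (f 2) * φ 0 - eval x (f 0) * φ 2,
      eval x (f 0) * φ 1 - eval x (f 1) * φ 0] with hw
    have hw0 : w 0 = eval x (f 1) * φ 2 - eval x (f 2) * φ 1 := rfl
    have hw1 : w 1 = eval x (f 2) * φ 0 - eval x (f 0) * φ 2 := rfl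
    have hw2 : w 2 = eval x (f 0) * φ 1 - eval x (f 1) * φ 0 := rfl
    have hfw : ∑ k, eval x (f k) * w k = 0 := by
      rw [Fin.sum_univ_three, hw0, hw1, hw2]; ring
    have hφw : ∑ k, φ k * w k = 0 := by
      rw [Fin.sum_univ_three, hw0, hw1, hw2]; ring
    have l1 := leaf_const α f hf hx w0 w1 w2 c x₀ (fun k => w k - x₀ k) hx₀ (by
      have h1 := hxx x₀
      have h2 : ∑ k, eval x₀ (f k) * (w k - x₀ k) = ∑ k, φ k * w k - ∑ k, eval x₀ (f k) * x₀ k := by
        rw [← Finset.sum_sub_distrib]
        exact Finset.sum_congr rfl fun k _ => by rw [hφ]; ring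
      rw [h2, h1, hφw, sub_zero])
    have l2 := leaf_const α f hf hx w0 w1 w2 c x (fun k => w k - x k) hxc (by
      have h1 := hxx x
      have h2 : ∑ k, eval x (f k) * (w k - x k) = ∑ k, eval x (f k) * w k - ∑ k, eval x (f k) * x k := by
        rw [← Finset.sum_sub_distrib]
        exact Finset.sum_congr rfl fun k _ => by ring
      rw [h2, h1, hfw, sub_zero])
    have e1 : (fun k => x₀ k + (w k - x₀ k)) = w := by funext k; ring
    have e2 : (fun k => x k + (w k - x k)) = w := by funext k; ring
    rw [e1] at l1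
    rw [e2] at l2
    -- proportional vectors
    have hpar : (∀ i j, eval x (f i) * φ j = eval x (f j) * φ i) → eval x (dotP f x₀) = 0 := by
      intro h
      rw [eval_dotP]
      apply mul_left_cancel₀ hx₀
      rw [mul_zero, Finset.mul_sum]
      have h3 : ∑ k, eval x₀ (f c) * (eval x (f k) * x₀ k) = eval x (f c) * ∑ k, eval x₀ (f k) * x₀ k := by
        rw [Finset.mul_sum]
        refine Finset.sum_congr rfl fun k _ => ?_
        have := h k c
        simp only [hφ] at this
        linear_combination x₀ k * this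
      rw [h3, hxx x₀, mul_zero]
    by_cases hfc : eval w (f c) = 0
    · obtain ⟨a, b, hab⟩ := hspan w hφw
      by_cases hb : b = 0
      · have ha : a = 0 := by
          by_contra ha
          rw [hb, zero_smul, add_zero] at hab
          rw [hab, eval_smul_hom' (hf c)] at hfc
          exact (mul_ne_zero (pow_ne_zero _ ha) hx₀) hfc
        have hw00 : w = 0 := by rw [hab, ha, hb, zero_smul, zero_smul, add_zero]
        left
        apply hpar
        refine cross_scal (fun k => eval x (f k)) φ ?_ ?_ ?_
        · rw [← hw0, hw00]; rfl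
        · rw [← hw1, hw00]; rfl
        · rw [← hw2, hw00]; rfl
      · by_cases ha : a = 0
        · right; left
          rw [ha, zero_smul, zero_add] at hab
          rw [eval_dotP]
          rw [hab] at hfw
          have h4 : ∑ k, eval x (f k) * (b • p₁) k = b * ∑ k, eval x (f k) * p₁ k := by
            rw [Finset.mul_sum]
            exact Finset.sum_congr rfl fun k _ => by rw [Pi.smul_apply, smul_eq_mul]; ring
          rw [h4] at hfw
          exact (mul_eq_zero.1 hfw).resolve_left hb
        · right; right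
          have h5 : w = a • (fun k => x₀ k + (b / a) * p₁ k) := by
            rw [hab]
            funext k
            simp only [Pi.add_apply, Pi.smul_apply, smul_eq_mul]
            field_simp
          refine ⟨b / a, ?_, ?_⟩
          · rw [Multiset.mem_toFinset, Polynomial.mem_roots hg0, Polynomial.IsRoot.def, hg, eval_line]
            rw [h5, eval_smul_hom' (hf c)] at hfc
            exact (mul_eq_zero.1 hfc).resolve_left (pow_ne_zero _ ha)
          · rw [eval_dotP]
            rw [h5] at hfw
            have h4 : ∑ k, eval x (f k) * (a • (fun k => x₀ k + (b / a) * p₁ k)) k =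
                a * ∑ k, eval x (f k) * (x₀ k + (b / a) * p₁ k) := by
              rw [Finset.mul_sum]
              exact Finset.sum_congr rfl fun k _ => by rw [Pi.smul_apply, smul_eq_mul]; ring
            rw [h4] at hfw
            exact (mul_eq_zero.1 hfw).resolve_left ha
    · left
      apply hpar
      have h6 : ∀ i, eval x (f i) * φ c = eval x (f c) * φ i := by
        intro i
        apply mul_left_cancel₀ hfc
        simp only [hφ]
        linear_combination (-eval x₀ (f c)) * l2 i + eval x (f c) * l1 i
      intro i j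
      apply mul_left_cancel₀ hx₀
      have a1 := h6 i
      have a2 := h6 j
      simp only [hφ] at a1 a2 ⊢
      linear_combination eval x₀ (f j) * a1 - eval x₀ (f i) * a2
  -- one of the factors is zero
  have hprod : f c * (dotP f x₀ * (dotP f p₁ * ∏ σ ∈ g.roots.toFinset,
      dotP f (fun k => x₀ k + σ * p₁ k))) = 0 := by
    apply MvPolynomial.funext
    intro x
    rw [map_mul, map_mul, map_mul, map_prod, map_zero]
    by_cases hxc : eval x (f c) = 0
    · rw [hxc, zero_mul]
    · rcases key x hxc with h | h | ⟨σ, hσ, h⟩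
      · rw [h, zero_mul, mul_zero]
      · rw [h, zero_mul, mul_zero, mul_zero]
      · rw [Finset.prod_eq_zero hσ h, mul_zero, mul_zero, mul_zero]
  rcases mul_eq_zero.1 hprod with h | h
  · exact absurd h hc
  · rcases mul_eq_zero.1 h with h | h
    · exact ⟨x₀, hx₀0, h⟩
    · rcases mul_eq_zero.1 h with h | h
      · exact ⟨p₁, hp₁0, h⟩
      · obtain ⟨σ, -, hσ⟩ := Finset.prod_eq_zero_iff.1 h
        refine ⟨fun k => x₀ k + σ * p₁ k, fun h0 => hp₁' ?_, hσ⟩
        have h7 : x₀ = (-σ) • p₁ := by
          funext k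
          have := congrFun h0 k
          simp only [Pi.zero_apply] at this
          rw [Pi.smul_apply, smul_eq_mul]
          linear_combination this
        have hσ0 : σ ≠ 0 := by
          rintro rfl
          apply hx₀0
          rw [h7, neg_zero, zero_smul]
        rw [Submodule.mem_span_singleton]
        refine ⟨(-σ)⁻¹, ?_⟩
        rw [h7, smul_smul, inv_mul_cancel₀ (neg_ne_zero.2 hσ0), one_smul]

end Geproci
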