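import Pool.Agent.Work.MP_efd9e3_ag.Gp.KComb
import Pool.Agent.Work.MP_efd9e3_ag.Gp.KTwo
import Pool.Agent.Work.MP_efd9e3_ag.Defs

/-! MODULE VCol (MP_efd9e3_ag/Gp), helper69.  A line contains at most `max d` points. -/

set_option autoImplicit false

open MvPolynomial

namespace Geproci

variable {K : Type*} [Field K] {n m : ℕ} {ι : Type*}

/-- two of the vectors generate the span if it has dimension two -/
theorem two_gen {V : Type*} [AddCommGroup V] [Module K V] (z : ι → V) (h0 : ∀ i, z i ≠ 0)
    (h2 : ∀ i j, i ≠ j → ∀ c : K, z j ≠ c • z i) (T : Finset ι)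
    (hT : Module.finrank K (Submodule.span K (z '' (T : Set ι))) = 2) :
    ∃ t₀ ∈ T, ∃ t₁ ∈ T, t₀ ≠ t₁ ∧ ∀ t ∈ T, ∃ a b : K, z t = a • z t₀ + b • z t₁ := by
  classical
  have hcard : 1 < T.card := by
    by_contra hcon
    have h3 : Module.finrank K (Submodule.span K (z '' (T : Set ι))) ≤ 1 := by
      have h4 : z '' (T : Set ι) = ((T.image z : Finset V) : Set V) := by rw [Finset.coe_image]
      rw [h4]
      refine (finrank_span_finset_le_card _).trans ?_
      exact Finset.card_image_le.trans (by omega)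
    omega
  obtain ⟨t₀, ht₀, t₁, ht₁, hne⟩ := Finset.one_lt_card.1 hcard
  refine ⟨t₀, ht₀, t₁, ht₁, hne, fun t ht => ?_⟩
  have hli : LinearIndependent K ![z t₀, z t₁] := by
    rw [LinearIndependent.pair_iff' (h0 t₀)]
    intro c hc
    exact h2 t₀ t₁ hne c hc.symm
  have h5 : Module.finrank K (Submodule.span K {z t₀, z t₁}) = 2 := by
    have h6 := finrank_span_eq_card hli
    rw [Matrix.range_cons, Matrix.range_cons, Matrix.range_empty, Set.union_empty] at h6
    rw [Fintype.card_fin] at h6
    exact h6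
  have hfin : Module.Finite K (Submodule.span K (z '' (T : Set ι))) := by
    apply FiniteDimensional.span_of_finite
    exact (Finset.finite_toSet T).image z
  have hle : Submodule.span K {z t₀, z t₁} ≤ Submodule.span K (z '' (T : Set ι)) := by
    apply Submodule.span_mono
    intro v hv
    rcases hv with rfl | hv
    · exact ⟨t₀, ht₀, rfl⟩
    · rw [Set.mem_singleton_iff] at hv
      rw [hv]
      exact ⟨t₁, ht₁, rfl⟩
  have h7 := Submodule.eq_of_le_of_finrank_eq hle (by rw [h5, hT])
  have h8 : z t ∈ Submodule.span K {z t₀, z t₁} := by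
    rw [h7]
    exact Submodule.subset_span ⟨t, ht, rfl⟩
  rw [Submodule.mem_span_pair] at h8
  obtain ⟨a, b, hab⟩ := h8
  exact ⟨a, b, hab.symm⟩

theorem lin_sep (y w : Fin n → K) (h : ∀ c : K, w ≠ c • y) :
    ∃ L : Fin n → K, ∑ k, L k * y k = 0 ∧ ∑ k, L k * w k ≠ 0 := by
  have h1 : w ∉ Submodule.span K {y} := by
    rw [Submodule.mem_span_singleton]
    rintro ⟨c, hc⟩
    exact h c hc.symm
  obtain ⟨f, hf, hfy⟩ := Submodule.exists_le_ker_of_notMem h1
  have h2 : ∀ v : Fin n → K, ∑ k, f (Pi.single k 1) * v k = f v := by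
    intro v
    conv_rhs => rw [pi_eq_sum_univ' v]
    rw [map_sum]
    exact Finset.sum_congr rfl fun k _ => by rw [map_smul, smul_eq_mul, mul_comm]
  refine ⟨fun k => f (Pi.single k 1), ?_, ?_⟩
  · rw [h2]
    exact LinearMap.mem_ker.1 (hfy (Submodule.mem_span_singleton_self y))
  · rw [h2]
    exact hf

theorem col_bound [IsAlgClosed K] [Fintype ι] (y : ι → Fin n → K) (hy : Indep y)
    (f : Fin m → MvPolynomial (Fin n) K) (d : Fin m → ℕ) (hd : ∀ i, (f i).IsHomogeneous (d i))
    (hf : (Ideal.span (Set.range f) : Set (MvPolynomial (Fin n) K)) = vanish y)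
    (T : Finset ι) (t₀ t₁ : ι) (hne : t₀ ≠ t₁)
    (hT : ∀ t ∈ T, ∃ a b : K, y t = a • y t₀ + b • y t₁) : ∃ j, T.card ≤ d j := by
  classical
  have hinf : Infinite K := IsAlgClosed.instInfinite
  set φ := comb (![y t₀, y t₁] : Fin 2 → Fin n → K) with hφ
  have hφk : ∀ (a : Fin 2 → K), φ a = a 0 • y t₀ + a 1 • y t₁ := by
    intro a
    funext k
    rw [hφ, comb_apply, Fin.sum_univ_two]
    rfl
  have hfz : ∀ k v, eval (y v) (f k) = 0 := by
    intro k v
    have h1 : f k ∈ (Ideal.span (Set.range f) : Set (MvPolynomial (Fin n) K)) :=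
      Ideal.subset_span ⟨k, rfl⟩
    rw [hf] at h1
    have := h1 v 1
    rwa [one_smul] at this
  -- some form does not vanish on the line
  obtain ⟨j, hj⟩ : ∃ j, compL φ (f j) ≠ 0 := by
    by_contra hcon
    push Not at hcon
    have h1 : ∀ i, ∃ L : Fin n → K, ∑ k, L k * y i k = 0 ∧ ∃ v : Fin 2 → K, ∑ k, L k * φ v k ≠ 0 := by
      intro i
      by_cases hi : i = t₀
      · obtain ⟨L, hL1, hL2⟩ := lin_sep (y i) (y t₁) (by
          rw [hi]
          exact hy.2 t₀ t₁ hne)
        refine ⟨L, hL1, Pi.single 1 1, ?_⟩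
        rw [hφ, comb_single]
        exact hL2
      · obtain ⟨L, hL1, hL2⟩ := lin_sep (y i) (y t₀) (hy.2 i t₀ hi)
        refine ⟨L, hL1, Pi.single 0 1, ?_⟩
        rw [hφ, comb_single]
        exact hL2
    choose L hL v hv using h1
    have h2 : ∏ i, linf (L i) ∈ Ideal.span (Set.range f) := by
      have h3 : ∏ i, linf (L i) ∈ vanish y := by
        intro i c
        rw [map_prod]
        apply Finset.prod_eq_zero (Finset.mem_univ i)
        rw [eval_linf]
        have h4 : ∑ k, L i k * (c • y i) k = c * ∑ k, L i k * y i k := by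
          rw [Finset.mul_sum]
          exact Finset.sum_congr rfl fun k _ => by rw [Pi.smul_apply, smul_eq_mul]; ring
        rw [h4, hL, mul_zero]
      rw [← hf] at h3
      exact h3
    obtain ⟨c, hc⟩ := Ideal.mem_span_range_iff_exists_fun.1 h2
    have h3 : compL φ (∏ i, linf (L i)) = 0 := by
      rw [← hc, map_sum]
      exact Finset.sum_eq_zero fun i _ => by rw [map_mul, hcon i, mul_zero]
    rw [map_prod, Finset.prod_eq_zero_iff] at h3
    obtain ⟨i, -, hi⟩ := h3
    apply hv i
    rw [← eval_linf, ← eval_compL, hi, map_zero]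
  refine ⟨j, ?_⟩
  have hT' : ∀ t : T, ∃ a : Fin 2 → K, φ a = y t := by
    intro t
    obtain ⟨a, b, hab⟩ := hT t.1 t.2
    refine ⟨![a, b], ?_⟩
    rw [hφk, hab]
    rfl
  choose v hv using hT'
  have hv0 : ∀ t, v t ≠ 0 := by
    intro t h0
    apply hy.1 t.1
    rw [← hv t, h0, map_zero]
  have hfin := lin_pow_deg Finset.univ (fun t : T => ![v t 1, - v t 0]) (fun t _ h0 => by
      apply hv0 t
      have h1 := congrFun h0 0
      have h2 := congrFun h0 1
      simp only [Matrix.cons_val_zero, Matrix.cons_val_one, Pi.zero_apply, neg_eq_zero] at h1 h2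
      funext i
      fin_cases i
      · exact h2
      · exact h1) (fun t _ t' _ htt' a ha => by
      apply hy.2 t.1 t'.1 (fun h => htt' (Subtype.ext h)) a
      have h1 := congrFun ha 0
      have h2 := congrFun ha 1
      simp only [Matrix.cons_val_zero, Matrix.cons_val_one, Pi.smul_apply, smul_eq_mul] at h1 h2
      rw [← hv t, ← hv t', ← map_smul]
      congr 1
      funext i
      fin_cases i
      · change v t' 0 = a * v t 0
        linear_combination -h2
      · exact h1) (fun _ => 1) (compL φ (f j)) (fun t _ => by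
      rw [pow_one]
      refine two_zero _ (d j) (compL_hom _ _ _ (hd j)) (v t) (hv0 t) ?_
      rw [eval_compL, hv]
      exact hfz j t.1) hj (d j) (compL_hom _ _ _ (hd j))
  rw [Finset.sum_const, Finset.card_univ, smul_eq_mul, mul_one, Fintype.card_coe] at hfin
  exact hfin

end Geproci
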