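import Pool.Agent.Work.MP_efd9e3_ag.Gp.VDesc

/-! MODULE VDet (MP_efd9e3_ag/Gp), helper69.  Existence of a polynomial family of cone forms. -/

set_option autoImplicit false

open MvPolynomial

namespace Geproci

variable {K : Type*} [Field K] {n : ℕ} {ι : Type*}

theorem bev_aeval {N : ℕ} (f : Fin n → MvPolynomial (Fin N ⊕ Fin N) K) (q : MvPolynomial (Fin n) K)
    (p x : Fin N → K) : bev p x (aeval f q) = eval (fun k => bev p x (f k)) q := by
  unfold bev
  induction q using MvPolynomial.induction_on with
  | C a => simp
  | add a b ha hb => rw [map_add, map_add, ha, hb, map_add]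
  | mul_X a k ha => rw [map_mul, map_mul, ha, map_mul, aeval_X, eval_X]

theorem v_det [Infinite K] [Fintype ι] (z : ι → Fin (n+1) → K) (t : ℕ) (p₀ : Fin (n+1) → K)
    (hp₀ : p₀ (Fin.last n) ≠ 0) (q₀ : MvPolynomial (Fin n) K) (hq₀ : q₀.IsHomogeneous t) (hq00 : q₀ ≠ 0)
    (hqz : ∀ i, eval (proj p₀ (z i)) q₀ = 0)
    (hmax : ∀ p : Fin (n+1) → K, Module.finrank K (evs (fun i => proj p (z i)) t) ≤
      Module.finrank K (evs (fun i => proj p₀ (z i)) t)) :
    ∃ (α : ℕ) (F : MvPolynomial (Fin (n+1) ⊕ Fin (n+1)) K), CF α t z F := by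
  classical
  set E₀ := evs (fun i => proj p₀ (z i)) t with hE₀
  set r := Module.finrank K E₀ with hr
  let b : Module.Basis (Fin r) K E₀ := Module.finBasis K E₀
  have hb : ∀ j, ∃ q : MvPolynomial (Fin n) K, q.IsHomogeneous t ∧
      ∀ i, eval (proj p₀ (z i)) q = (b j : ι → K) i := fun j => (mem_evs _ _ _).1 (b j).2
  choose v hv hvb using hb
  have hli : LinearIndependent K (fun j => ((b j : E₀) : ι → K)) :=
    b.linearIndependent.map' E₀.subtype (Submodule.ker_subtype _)
  let T : (Fin r → K) →ₗ[K] (ι → K) := Fintype.linearCombination K (fun j => ((b j : E₀) : ι → K))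
  have hT : LinearMap.ker T = ⊥ := by
    rw [LinearMap.ker_eq_bot]
    exact hli.fintypeLinearCombination_injective
  obtain ⟨φ, hφ⟩ := LinearMap.exists_leftInverse_of_injective T hT
  have hφb : ∀ i j, φ ((b j : E₀) : ι → K) i = if i = j then 1 else 0 := by
    intro i j
    have h1 : T (Pi.single j 1) = ((b j : E₀) : ι → K) := by
      simp [T, Fintype.linearCombination_apply_single]
    rw [← h1, ← LinearMap.comp_apply, hφ, LinearMap.id_apply, Pi.single_apply]
  -- the vectors of the matrix
  let B : Option (Fin r) → MvPolynomial (Fin n) K := fun j => Option.elim j q₀ v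
  have hB : ∀ j, (B j).IsHomogeneous t := by
    intro j
    rcases j with _ | j
    · exact hq₀
    · exact hv j
  let u : (Fin (n+1) → K) → MvPolynomial (Fin n) K → ι → K := fun p q i => eval (proj p (z i)) q
  let val : (Fin (n+1) → K) → (Fin (n+1) → K) → MvPolynomial (Fin n) K → Option (Fin r) → K :=
    fun p x q i => Option.elim i (eval (proj p x) q) (fun i => φ (u p q) i)
  let P : ι → MvPolynomial (Fin n) K → MvPolynomial (Fin (n+1) ⊕ Fin (n+1)) K := fun i q =>
    aeval (fun k : Fin n => X (Sum.inl (Fin.last n)) * C (z i k.castSucc) -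
      C (z i (Fin.last n)) * X (Sum.inl k.castSucc)) q
  let Q : MvPolynomial (Fin n) K → MvPolynomial (Fin (n+1) ⊕ Fin (n+1)) K := fun q =>
    aeval (fun k : Fin n => X (Sum.inl (Fin.last n)) * X (Sum.inr k.castSucc) -
      X (Sum.inr (Fin.last n)) * X (Sum.inl k.castSucc)) q
  have hPe : ∀ p x i q, bev p x (P i q) = u p q i := by
    intro p x i q
    change bev p x (aeval _ q) = _
    rw [bev_aeval]
    refine congrArg (fun f => eval f q) (funext fun k => ?_)
    simp [bev, proj]
  have hQe : ∀ p x q, bev p x (Q q) = eval (proj p x) q := by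
    intro p x q
    change bev p x (aeval _ q) = _
    rw [bev_aeval]
    refine congrArg (fun f => eval f q) (funext fun k => ?_)
    simp [bev, proj]
  let M : Matrix (Option (Fin r)) (Option (Fin r)) (MvPolynomial (Fin (n+1) ⊕ Fin (n+1)) K) :=
    fun i j => Option.elim i (Q (B j)) (fun i => ∑ w, C (φ (fun w' => if w = w' then 1 else 0) i) * P w (B j))
  have hM : ∀ p x i j, bev p x (M i j) = val p x (B j) i := by
    intro p x i j
    rcases i with _ | i
    · exact hQe p x _
    · change bev p x (∑ w, C (φ (fun w' => if w = w' then 1 else 0) i) * P w (B j)) = φ (u p (B j)) i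
      rw [LinearMap.pi_apply_eq_sum_univ φ (u p (B j)), Finset.sum_apply]
      unfold bev
      rw [map_sum]
      refine Finset.sum_congr rfl fun w _ => ?_
      rw [map_mul, eval_C, Pi.smul_apply, smul_eq_mul, mul_comm]
      congr 1
      exact hPe p x w _
  set F := M.det with hF
  have hFe : ∀ p x, bev p x F = (Matrix.of fun i j => val p x (B j) i).det := by
    intro p x
    rw [hF, bev, RingHom.map_det]
    congr 1
    ext i j
    rw [RingHom.mapMatrix_apply, Matrix.map_apply, Matrix.of_apply]
    exact hM p x i j
  have hval : ∀ (w : Option (Fin r) → K) p x i,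
      ((Matrix.of fun i j => val p x (B j) i).mulVec w) i = val p x (∑ j, C (w j) * B j) i := by
    intro w p x i
    rw [Matrix.mulVec, dotProduct]
    rcases i with _ | i
    · change ∑ j, eval (proj p x) (B j) * w j = eval (proj p x) (∑ j, C (w j) * B j)
      rw [map_sum]
      refine Finset.sum_congr rfl fun j _ => ?_
      rw [map_mul, eval_C, mul_comm]
    · change ∑ j, φ (u p (B j)) i * w j = φ (u p (∑ j, C (w j) * B j)) i
      have h1 : u p (∑ j, C (w j) * B j) = ∑ j, w j • u p (B j) := by
        funext i'
        change eval (proj p (z i')) (∑ j, C (w j) * B j) = _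
        rw [map_sum, Finset.sum_apply]
        refine Finset.sum_congr rfl fun j _ => ?_
        rw [map_mul, eval_C]
        rfl
      rw [h1, map_sum, Finset.sum_apply]
      refine Finset.sum_congr rfl fun j _ => ?_
      rw [map_smul, Pi.smul_apply, smul_eq_mul, mul_comm]
  refine ⟨t * (r + 1), F, ?_, ?_, ?_, ?_⟩
  · -- non-zero
    obtain ⟨y, hy⟩ : ∃ y, eval y q₀ ≠ 0 := by
      by_contra hcon
      push Not at hcon
      exact hq00 (MvPolynomial.funext fun x => by rw [hcon x, map_zero])
    set x₀ : Fin (n+1) → K := inc ((p₀ (Fin.last n))⁻¹ • y) with hx₀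
    have hpx : proj p₀ x₀ = y := by
      funext k
      have e1 : x₀ k.castSucc = (p₀ (Fin.last n))⁻¹ * y k := by
        change (Fin.snoc ((p₀ (Fin.last n))⁻¹ • y) 0 : Fin (n+1) → K) k.castSucc = _
        rw [Fin.snoc_castSucc, Pi.smul_apply, smul_eq_mul]
      have e2 : x₀ (Fin.last n) = 0 := by
        change (Fin.snoc ((p₀ (Fin.last n))⁻¹ • y) 0 : Fin (n+1) → K) (Fin.last n) = _
        rw [Fin.snoc_last]
      rw [proj, e1, e2, zero_mul, sub_zero, ← mul_assoc, mul_inv_cancel₀ hp₀, one_mul]
    intro h0
    have h1 := hFe p₀ x₀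
    have h1' : bev p₀ x₀ F = 0 := by rw [h0, bev, map_zero]
    rw [h1'] at h1
    obtain ⟨w, hw0, hw⟩ := Matrix.exists_mulVec_eq_zero_iff.2 h1.symm
    have h2 : ∀ i, w (some i) = 0 := by
      intro i
      have h3 := congrFun hw (some i)
      rw [hval] at h3
      change φ (u p₀ (∑ j, C (w j) * B j)) i = 0 at h3
      have h4 : u p₀ (∑ j, C (w j) * B j) = ∑ j : Fin r, w (some j) • ((b j : E₀) : ι → K) := by
        funext i'
        change eval (proj p₀ (z i')) (∑ j, C (w j) * B j) = _
        rw [map_sum, Fintype.sum_option, Finset.sum_apply, map_mul]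
        change eval (proj p₀ (z i')) (C (w none)) * eval (proj p₀ (z i')) q₀ + _ = _
        rw [hqz, mul_zero, zero_add]
        refine Finset.sum_congr rfl fun j _ => ?_
        rw [map_mul, eval_C]
        change w (some j) * eval (proj p₀ (z i')) (v j) = _
        rw [hvb]
        rfl
      rw [h4, map_sum, Finset.sum_apply] at h3
      rw [Finset.sum_eq_single i] at h3
      · rwa [map_smul, Pi.smul_apply, smul_eq_mul, hφb, if_pos rfl, mul_one] at h3
      · intro j _ hj
        rw [map_smul, Pi.smul_apply, smul_eq_mul, hφb, if_neg (Ne.symm hj), mul_zero]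
      · intro h5
        exact absurd (Finset.mem_univ i) h5
    have h3 := congrFun hw none
    rw [hval] at h3
    change eval (proj p₀ x₀) (∑ j, C (w j) * B j) = 0 at h3
    rw [map_sum, Fintype.sum_option, map_mul, eval_C] at h3
    change w none * eval (proj p₀ x₀) q₀ + _ = 0 at h3
    rw [hpx, Finset.sum_eq_zero (fun j _ => by rw [map_mul, h2 j, C_0, map_zero, zero_mul]), add_zero] at h3
    apply hw0
    funext j
    rcases j with _ | j
    · exact (mul_eq_zero.1 h3).resolve_right hy
    · exact h2 j
  · -- bihomogeneous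
    apply biH_of_scaling
    intro c d _ _ p x
    rw [hFe, hFe]
    have hpr : ∀ y, proj (fun k => c * p k) y = fun k => c * proj p y k := by
      intro y
      funext k
      simp only [proj]
      ring
    have hprx : proj (fun k => c * p k) (fun k => d * x k) = fun k => (c * d) * proj p x k := by
      funext k
      simp only [proj]
      ring
    have h1 : (Matrix.of fun i j => val (fun k => c * p k) (fun k => d * x k) (B j) i) =
        Matrix.of fun i j => (Option.elim i ((c * d) ^ t) (fun _ => c ^ t) : K) *
          (Matrix.of fun i j => val p x (B j) i) i j := by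
      ext i j
      rw [Matrix.of_apply, Matrix.of_apply, Matrix.of_apply]
      rcases i with _ | i
      · change eval (proj (fun k => c * p k) (fun k => d * x k)) (B j) = (c * d) ^ t * eval (proj p x) (B j)
        rw [hprx, eval_smul_hom (hB j)]
      · change φ (u (fun k => c * p k) (B j)) i = c ^ t * φ (u p (B j)) i
        have h2 : u (fun k => c * p k) (B j) = c ^ t • u p (B j) := by
          funext i'
          change eval (proj (fun k => c * p k) (z i')) (B j) = c ^ t * eval (proj p (z i')) (B j)
          rw [hpr, eval_smul_hom (hB j)]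
        rw [h2, map_smul]
        rfl
    rw [h1, Matrix.det_mul_column, Fintype.prod_option]
    simp only [Option.elim_none, Option.elim_some, Finset.prod_const, Finset.card_univ,
      Fintype.card_fin]
    rw [mul_pow, pow_mul, pow_succ]
    ring
  · -- invariance
    apply epr_of
    intro s p x
    rw [hFe, hFe]
    have h1 : proj p (fun k => x k + s * p k) = proj p x := by
      funext k
      simp only [proj]
      ring
    congr 1
    ext i j
    rw [Matrix.of_apply, Matrix.of_apply]
    rcases i with _ | i
    · change eval (proj p (fun k => x k + s * p k)) (B j) = eval (proj p x) (B j)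
      rw [h1]
    · rfl
  · -- vanishing
    intro i₀
    apply MvPolynomial.funext
    intro p
    rw [eval_xp, map_zero, hFe]
    have h1 : ¬ LinearIndependent K (fun j : Option (Fin r) =>
        (⟨u p (B j), (mem_evs _ _ _).2 ⟨B j, hB j, fun i => rfl⟩⟩ :
          evs (fun i => proj p (z i)) t)) := by
      intro h2
      have h3 := h2.fintype_card_le_finrank
      rw [Fintype.card_option, Fintype.card_fin] at h3
      have h4 := hmax p
      omega
    rw [Fintype.not_linearIndependent_iff] at h1
    obtain ⟨w, hw, j₀, hj₀⟩ := h1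
    rw [← Matrix.exists_mulVec_eq_zero_iff]
    refine ⟨w, fun h0 => hj₀ (by rw [h0]; rfl), ?_⟩
    have h2 : u p (∑ j, C (w j) * B j) = 0 := by
      have h3 := congrArg Subtype.val hw
      refine Eq.trans ?_ h3
      funext i'
      change eval (proj p (z i')) (∑ j, C (w j) * B j) = _
      rw [map_sum]
      simp only [Submodule.coe_sum, Submodule.coe_smul, Finset.sum_apply, Pi.smul_apply, smul_eq_mul]
      refine Finset.sum_congr rfl fun j _ => ?_
      rw [map_mul, eval_C]
    funext i
    rw [hval]
    rcases i with _ | i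
    · exact congrFun h2 i₀
    · change φ (u p (∑ j, C (w j) * B j)) i = 0
      rw [h2, map_zero]
      rfl

end Geproci
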