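import Pool.Agent.Work.MP_efd9e3_ag.Co.HZero
import Pool.Agent.Work.MP_efd9e3_ag.Hom
import Pool.Agent.Work.MP_efd9e3_ag.Gp.VDet

/-! MODULE VKer (MP_efd9e3_ag/Gp), helper69.  The forms of low degree vanishing on a general projection. -/

set_option autoImplicit false

open MvPolynomial

namespace Geproci

variable {K : Type*} [Field K] {n m a : ℕ} {ι : Type*}

/-- the forms of degree `t` which vanish at the vectors `y i` -/
noncomputable def kerE (y : ι → Fin n → K) (t : ℕ) : Submodule K (homogeneousSubmodule (Fin n) K t) :=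
  LinearMap.ker ((LinearMap.pi fun i => (aeval (y i) : MvPolynomial (Fin n) K →ₐ[K] K).toLinearMap).comp
    (homogeneousSubmodule (Fin n) K t).subtype)

theorem mem_kerE (y : ι → Fin n → K) (t : ℕ) (q : homogeneousSubmodule (Fin n) K t) :
    q ∈ kerE y t ↔ ∀ i, eval (y i) q.1 = 0 := by
  unfold kerE
  rw [LinearMap.mem_ker]
  constructor
  · intro h i
    have h1 : aeval (y i) q.1 = 0 := congrFun h i
    rwa [aeval_eq_eval] at h1
  · intro h
    funext i
    change aeval (y i) q.1 = 0
    rw [aeval_eq_eval]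
    exact h i

theorem rank_kerE [Fintype ι] (y : ι → Fin n → K) (t : ℕ) :
    Module.finrank K (evs y t) + Module.finrank K (kerE y t) =
      Module.finrank K (homogeneousSubmodule (Fin n) K t) := by
  have hfin := finite_homog (K := K) (n := n) t
  have h1 := LinearMap.finrank_range_add_finrank_ker
    ((LinearMap.pi fun i => (aeval (y i) : MvPolynomial (Fin n) K →ₐ[K] K).toLinearMap).comp
        (homogeneousSubmodule (Fin n) K t).subtype)
  have h2 : LinearMap.range
    ((LinearMap.pi fun i => (aeval (y i) : MvPolynomial (Fin n) K →ₐ[K] K).toLinearMap).comp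
        (homogeneousSubmodule (Fin n) K t).subtype) = evs y t := by
    rw [LinearMap.range_comp, Submodule.range_subtype]
    rfl
  rw [h2] at h1
  exact h1

/-- multiplication by a form -/
noncomputable def mulE (q' : MvPolynomial (Fin n) K) (hq' : q'.IsHomogeneous a) :
    homogeneousSubmodule (Fin n) K 1 →ₗ[K] homogeneousSubmodule (Fin n) K (a+1) where
  toFun L := ⟨L.1 * q', by
    rw [mem_homogeneousSubmodule, add_comm]
    exact ((mem_homogeneousSubmodule _ _).1 L.2).mul hq'⟩
  map_add' L L' := by
    apply Subtype.ext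
    change (L.1 + L'.1) * q' = L.1 * q' + L'.1 * q'
    rw [add_mul]
  map_smul' c L := by
    apply Subtype.ext
    change (c • L.1) * q' = c • (L.1 * q')
    rw [smul_mul_assoc]

theorem mulE_val (q' : MvPolynomial (Fin n) K) (hq' : q'.IsHomogeneous a)
    (L : homogeneousSubmodule (Fin n) K 1) :
    ((mulE q' hq' L).1 : MvPolynomial (Fin n) K) = L.1 * q' := rfl

theorem ker_mul (y : ι → Fin n → K) (q' : MvPolynomial (Fin n) K) (hq' : q'.IsHomogeneous a)
    (hq0 : q' ≠ 0) (hz : ∀ i, eval (y i) q' = 0)
    (hdim : Module.finrank K (kerE y (a+1)) ≤ Module.finrank K (homogeneousSubmodule (Fin n) K 1))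
    (q : MvPolynomial (Fin n) K) (hq : q.IsHomogeneous (a+1)) (hqz : ∀ i, eval (y i) q = 0) :
    ∃ L : Fin n → K, q = linf L * q' := by
  have hfin1 := finite_homog (K := K) (n := n) 1
  have hfin2 := finite_homog (K := K) (n := n) (a+1)
  have hinj : Function.Injective (mulE q' hq') := by
    rw [injective_iff_map_eq_zero]
    intro L hL
    have h1 : L.1 * q' = 0 := by
      rw [← mulE_val q' hq', hL]
      rfl
    exact Subtype.ext ((mul_eq_zero.1 h1).resolve_right hq0)
  have h1 := LinearMap.finrank_range_of_inj hinj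
  have hle : LinearMap.range (mulE q' hq') ≤ kerE y (a+1) := by
    rintro _ ⟨L, rfl⟩
    rw [mem_kerE]
    intro i
    rw [mulE_val, map_mul, hz, mul_zero]
  have h2 : LinearMap.range (mulE q' hq') = kerE y (a+1) :=
    Submodule.eq_of_le_of_finrank_le hle (by rw [h1]; exact hdim)
  have h3 : (⟨q, (mem_homogeneousSubmodule _ _).2 hq⟩ : homogeneousSubmodule (Fin n) K (a+1)) ∈
      LinearMap.range (mulE q' hq') := by
    rw [h2, mem_kerE]
    exact hqz
  obtain ⟨L, hL⟩ := h3
  have h3 : L.1 * q' = q := by
    rw [← mulE_val q' hq', hL]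
  obtain ⟨c, hc⟩ := main_linForm L.1 ((mem_homogeneousSubmodule _ _).1 L.2)
  refine ⟨c, ?_⟩
  rw [← h3, hc]
  rfl

theorem ker_ci (y : ι → Fin n → K) (f : Fin m → MvPolynomial (Fin n) K) (d : Fin m → ℕ)
    (hd : ∀ i, (f i).IsHomogeneous (d i))
    (hf : (Ideal.span (Set.range f) : Set (MvPolynomial (Fin n) K)) = vanish y) (i₀ : Fin m)
    (hgap : ∀ j, j ≠ i₀ → d i₀ + 2 ≤ d j) :
    Module.finrank K (kerE y (d i₀ + 1)) ≤ Module.finrank K (homogeneousSubmodule (Fin n) K 1) := by
  classical
  have hfin1 := finite_homog (K := K) (n := n) 1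
  have hfin2 := finite_homog (K := K) (n := n) (d i₀ + 1)
  have hle : kerE y (d i₀ + 1) ≤ LinearMap.range (mulE (f i₀) (hd i₀)) := by
    rintro ⟨q, hq⟩ hqk
    rw [mem_homogeneousSubmodule] at hq
    rw [mem_kerE] at hqk
    have h1 : q ∈ Ideal.span (Set.range f) := by
      have h2 : q ∈ vanish y := by
        intro i c
        have h3 := eval_smul_hom hq c (y i)
        change eval (fun k => c * y i k) q = 0
        rw [h3, hqk i, mul_zero]
      rw [← hf] at h2
      exact h2
    obtain ⟨g, hg, hqg⟩ := split_all f d hd q (d i₀ + 1) hq h1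
    have h2 : ∀ j, j ≠ i₀ → g j = 0 := by
      intro j hj
      rcases hg j with ⟨s, -, hs⟩ | h0
      · have := hgap j hj
        omega
      · exact h0
    have h3 : q = g i₀ * f i₀ := by
      rw [hqg, Finset.sum_eq_single i₀]
      · intro j _ hj
        rw [h2 j hj, zero_mul]
      · intro h4
        exact absurd (Finset.mem_univ _) h4
    have h4 : (g i₀).IsHomogeneous 1 := by
      rcases hg i₀ with ⟨s, hs, hs'⟩ | h0
      · have : s = 1 := by omega
        rwa [this] at hs
      · rw [h0]
        exact isHomogeneous_zero _ _ _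
    refine ⟨⟨g i₀, (mem_homogeneousSubmodule _ _).2 h4⟩, ?_⟩
    apply Subtype.ext
    rw [mulE_val]
    exact h3.symm
  exact (Submodule.finrank_mono hle).trans (LinearMap.finrank_range_le _)

end Geproci
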