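import Pool.Agent.Work.MP_efd9e3_ag.Co.CoMain
import Pool.Agent.Work.MP_efd9e3_ag.Gp.KMain
import Pool.Agent.Work.MP_efd9e3_ag.Gp.VDiv
import Pool.Agent.Work.MP_efd9e3_ag.Gp.VKer
import Pool.Agent.Work.MP_efd9e3_ag.Gp.VCol

/-! MODULE VFin (MP_efd9e3_ag/Gp), helper69.  The main theorem: a gap between the smallest degrees gives many collinear
points. -/

set_option autoImplicit false

open MvPolynomial

namespace Geproci

variable {K : Type*} [Field K] {n : ℕ} {ι : Type*}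

/-- The minimal family of cone forms is invariant. -/
theorem v_inv [IsAlgClosed K] [CharZero K] [Fintype ι] (z : ι → Fin (n+1) → K)
    (g : MvPolynomial (Fin (n+1)) K) (hg0 : g ≠ 0)
    (hg : ∀ p : Fin (n+1) → K, eval p g ≠ 0 → p (Fin.last n) ≠ 0 ∧
      ∀ (t : ℕ) (p' : Fin (n+1) → K), Module.finrank K (evs (fun i => proj p' (z i)) t) ≤
        Module.finrank K (evs (fun i => proj p (z i)) t))
    (a : ℕ) (p : Fin (n+1) → K) (hp : eval p g ≠ 0)
    (hdim : Module.finrank K (kerE (fun i => proj p (z i)) (a+1)) ≤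
      Module.finrank K (homogeneousSubmodule (Fin n) K 1))
    (q₀ : MvPolynomial (Fin n) K) (hq₀ : q₀.IsHomogeneous a) (hq00 : q₀ ≠ 0)
    (hqz : ∀ i, eval (proj p (z i)) q₀ = 0) :
    ∃ (α : ℕ) (F : MvPolynomial (Fin (n+1) ⊕ Fin (n+1)) K), CF α a z F ∧ BInv F := by
  classical
  have hinf : Infinite K := IsAlgClosed.instInfinite
  obtain ⟨α₀, F₀, hF₀⟩ := v_det z a p (hg p hp).1 q₀ hq₀ hq00 hqz (fun p' => (hg p hp).2 a p')
  have hex : ∃ α, ∃ F : MvPolynomial (Fin (n+1) ⊕ Fin (n+1)) K, CF α a z F := ⟨α₀, F₀, hF₀⟩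
  obtain ⟨F, hF⟩ := Nat.find_spec hex
  have hmin : ∀ (α' : ℕ) (F' : MvPolynomial (Fin (n+1) ⊕ Fin (n+1)) K), CF α' a z F' → Nat.find hex ≤ α' :=
    fun α' F' h' => Nat.find_min' hex ⟨F', h'⟩
  have hdiv : ∀ p', eval p' g ≠ 0 → (∃ x, bev p' x F ≠ 0) → ∃ φ : (Fin (n+1) → K) →ₗ[K] K,
      ∀ x, bev p' x (Eop F) = φ x * bev p' x F := by
    intro p' hp' hx
    refine v_desc z p' (hg p' hp').1 (fun q q' hq hq' hq'0 hqz hqz' => ?_) F hF hx
    refine ker_mul (fun i => proj p' (z i)) q' hq' hq'0 hqz' ?_ q hq hqz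
    have h1 := rank_kerE (fun i => proj p' (z i)) (a+1)
    have h2 := rank_kerE (fun i => proj p (z i)) (a+1)
    have h3 := (hg p hp).2 (a+1) p'
    have h4 := (hg p' hp').2 (a+1) p
    omega
  obtain ⟨γ, H, L, hH0, hH, hHL⟩ := v_div F (Eop F) hF.ne hF.hom g hg0 hdiv
  exact ⟨_, F, hF, v_min z F hF hmin H L hH0 hH hHL⟩

theorem gap_aux [IsAlgClosed K] [CharZero K] {m : ℕ} (hm : 2 ≤ m) (Z : Finset (Fin (m+1+1) → K))
    (h0 : ∀ v ∈ Z, v ≠ 0) (hp : ∀ v ∈ Z, ∀ w ∈ Z, ∀ c : K, w = c • v → w = v)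
    (hspan : Submodule.span K (Z : Set (Fin (m+1+1) → K)) = ⊤) :
    ∃ g : MvPolynomial (Fin (m+1+1)) K, g ≠ 0 ∧ ∀ p : Fin (m+1+1) → K, eval p g ≠ 0 →
      ∀ π : (Fin (m+1+1) → K) →ₗ[K] (Fin (m+1) → K), LinearMap.ker π = Submodule.span K {p} →
      ∀ (f : Fin m → MvPolynomial (Fin (m+1)) K) (d : Fin m → ℕ),
        (∀ i, (f i).IsHomogeneous (d i)) →
        (Ideal.span (Set.range f) : Set (MvPolynomial (Fin (m+1)) K)) =
          {q | ∀ v ∈ Z, ∀ c : K, eval (c • π v) q = 0} →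
        ∀ i, (∀ j, j ≠ i → d i + 2 ≤ d j) → 3 * d i + m ≤ ∑ j, d j + 3 →
          ∃ T : Finset (Fin (m+1+1) → K), T ⊆ Z ∧
            Module.finrank K (Submodule.span K (T : Set (Fin (m+1+1) → K))) = 2 ∧
            ∑ j, d j + 2 ≤ T.card + d i + m ∧ ∃ j, T.card ≤ d j := by
  classical
  let z : Z → Fin (m+1+1) → K := fun v => v.1
  have hz : Indep z := by
    refine ⟨fun v => h0 v.1 v.2, fun v v' hvv' c hc => hvv' ?_⟩
    exact (Subtype.ext (hp v.1 v.2 v'.1 v'.2 c hc)).symm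
  have hne : Nonempty Z := by
    by_contra hcon
    rw [nonempty_subtype, not_exists] at hcon
    have hZ : Z = ∅ := Finset.eq_empty_of_forall_notMem hcon
    rw [hZ] at hspan
    simp at hspan
  have hinf : Infinite K := IsAlgClosed.instInfinite
  obtain ⟨g₁, hg₁, hg₁'⟩ := exists_qsys hm Z h0 hp hspan
  obtain ⟨g₂, hg₂, hg₂'⟩ := generic (by omega) z hz
  refine ⟨g₁ * g₂, mul_ne_zero hg₁ hg₂, fun p hpg π hπ f d hd hf i₀ hgap hnum => ?_⟩
  rw [map_mul] at hpg
  have hpg1 := left_ne_zero_of_mul hpg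
  have hpg2 := right_ne_zero_of_mul hpg
  obtain ⟨hpl, hind, hmax⟩ := hg₂' p hpg2
  obtain ⟨hdm, hcardZ, -, s, r, e, c, l, hs, hq⟩ := hg₁' p hpg1 π hπ f d hd hf
  have hy : Indep (fun v : Z => π (z v)) := main_indep p hpl π hπ z hind
  have hfy : (Ideal.span (Set.range f) : Set (MvPolynomial (Fin (m+1)) K)) = vanish (fun v : Z => π (z v)) := by
    rw [hf]
    ext q
    constructor
    · intro h v c
      exact h v.1 v.2 c
    · intro h v hv c
      exact h ⟨v, hv⟩ c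
  have he : ∀ t, evs (fun v : Z => π (z v)) t = evs (fun i => proj p (z i)) t :=
    fun t => evs_proj p hpl π hπ z t
  -- the bound for the collinear subsets
  have hcol : ∀ T : Finset Z, Module.finrank K (Submodule.span K (z '' (T : Set Z))) = 2 →
      ∃ j, T.card ≤ d j := by
    intro T hT
    obtain ⟨t₀, -, t₁, -, hne', hT'⟩ := two_gen z hz.1 hz.2 T hT
    refine col_bound (fun v : Z => π (z v)) hy f d hd hfy T t₀ t₁ hne' fun t ht => ?_
    obtain ⟨a, b, hab⟩ := hT' t ht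
    refine ⟨a, b, ?_⟩
    show π (z t) = a • π (z t₀) + b • π (z t₁)
    rw [hab, map_add, map_smul, map_smul]
  by_contra hcon
  -- a form of degree `a` on the projection
  have hfi0 : f i₀ ≠ 0 := by
    intro hcon
    obtain ⟨j, hj⟩ := grad_ne (fun v : Z => π (z v)) hy f hfy i₀ hne.some
    rw [hcon] at hj
    simp at hj
  have hfz : ∀ v : Z, eval (π (z v)) (f i₀) = 0 := by
    intro v
    have h1 : f i₀ ∈ (Ideal.span (Set.range f) : Set (MvPolynomial (Fin (m+1)) K)) :=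
      Ideal.subset_span ⟨i₀, rfl⟩
    rw [hfy] at h1
    have := h1 v 1
    rwa [one_smul] at this
  have hdim : Module.finrank K (kerE (fun i => proj p (z i)) (d i₀ + 1)) ≤
      Module.finrank K (homogeneousSubmodule (Fin (m+1)) K 1) := by
    have h1 := ker_ci (fun v : Z => π (z v)) f d hd hfy i₀ hgap
    have h2 := rank_kerE (fun v : Z => π (z v)) (d i₀ + 1)
    have h3 := rank_kerE (fun i => proj p (z i)) (d i₀ + 1)
    rw [he] at h2
    omega
  have hq₀ : ∃ q₀ : MvPolynomial (Fin (m+1)) K, q₀.IsHomogeneous (d i₀) ∧ q₀ ≠ 0 ∧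
      ∀ i, eval (proj p (z i)) q₀ = 0 := by
    have hfin := finite_homog (K := K) (n := m+1) (d i₀)
    have h2 := rank_kerE (fun v : Z => π (z v)) (d i₀)
    have h3 := rank_kerE (fun i => proj p (z i)) (d i₀)
    rw [he] at h2
    have h4 : 0 < Module.finrank K (kerE (fun v : Z => π (z v)) (d i₀)) := by
      have h5 : (⟨f i₀, hd i₀⟩ : homogeneousSubmodule (Fin (m+1)) K (d i₀)) ∈
          kerE (fun v : Z => π (z v)) (d i₀) := (mem_kerE _ _ _).2 hfz
      refine Submodule.one_le_finrank_iff.2 fun hb => hfi0 ?_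
      rw [hb, Submodule.mem_bot] at h5
      exact congrArg Subtype.val h5
    have h5 : 0 < Module.finrank K (kerE (fun i => proj p (z i)) (d i₀)) := by omega
    obtain ⟨w, hw, hw0⟩ := (Submodule.ne_bot_iff _).1 (Submodule.one_le_finrank_iff.1 h5)
    exact ⟨w.1, w.2, fun h6 => hw0 (Subtype.ext h6), (mem_kerE _ _ _).1 hw⟩
  obtain ⟨q₀, hq₀1, hq₀2, hq₀3⟩ := hq₀
  obtain ⟨α, F, hF, hFi⟩ := v_inv z g₂ hg₂ (fun p' hp' => ⟨(hg₂' p' hp').1, (hg₂' p' hp').2.2⟩) (d i₀) p hpg2 hdim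
    q₀ hq₀1 hq₀2 hq₀3
  have hα := bi_ge F hF.hom hF.inv hF.ne
  obtain ⟨m', rfl⟩ : ∃ m', m = m' + 1 := ⟨m - 1, by omega⟩
  have hK := k_main (K := K) m' Z (s+1) r e 0 α (d i₀) z c l F (by omega) hq.toK hF.ne hF.hom hFi hF.van
    (by omega) (fun T hT => by
      by_contra hcon'
      apply hcon
      obtain ⟨j, hj⟩ := hcol T hT
      refine ⟨T.image fun v => v.1, ?_, ?_, ?_, j, ?_⟩
      · intro v hv
        obtain ⟨w, -, rfl⟩ := Finset.mem_image.1 hv
        exact w.2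
      · rw [Finset.coe_image]
        exact hT
      · rw [Finset.card_image_of_injective _ Subtype.val_injective]
        omega
      · rw [Finset.card_image_of_injective _ Subtype.val_injective]
        exact hj)
  omega

/-- the numerical part for `m ≥ 3` -/
theorem gap_num {m : ℕ} (hm : 3 ≤ m) (d : Fin m → ℕ) (i : Fin m) (hi : m ≤ d i)
    (hgap : ∀ j, j ≠ i → d i + 2 ≤ d j) :
    3 * d i + m ≤ ∑ j, d j + 3 ∧ ∀ j, d j + d i + m < ∑ j, d j + 2 := by
  classical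
  have h1 : ∑ j, d j = d i + ∑ j ∈ Finset.univ.erase i, d j :=
    (Finset.add_sum_erase _ _ (Finset.mem_univ i)).symm
  have h2 : (m - 1) * (d i + 2) ≤ ∑ j ∈ Finset.univ.erase i, d j := by
    have h3 : (Finset.univ.erase i).card = m - 1 := by
      rw [Finset.card_erase_of_mem (Finset.mem_univ i), Finset.card_univ, Fintype.card_fin]
    calc (m - 1) * (d i + 2) = ∑ _j ∈ Finset.univ.erase i, (d i + 2) := by
          rw [Finset.sum_const, h3, smul_eq_mul]
      _ ≤ _ := Finset.sum_le_sum fun j hj => hgap j (Finset.ne_of_mem_erase hj)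
  obtain ⟨k, rfl⟩ : ∃ k, m = k + 3 := ⟨m - 3, by omega⟩
  have h4 : (k + 3 - 1) * (d i + 2) = k * (d i + 2) + 2 * (d i + 2) := by
    have : k + 3 - 1 = k + 2 := by omega
    rw [this]; ring
  have h5 : k * 1 ≤ k * (d i + 2) := Nat.mul_le_mul_left _ (by omega)
  refine ⟨by omega, fun j => ?_⟩
  by_cases hji : j = i
  · subst hji
    omega
  · have h6 : ∑ j ∈ Finset.univ.erase i, d j = d j + ∑ j ∈ (Finset.univ.erase i).erase j, d j :=
      (Finset.add_sum_erase _ _ (Finset.mem_erase.2 ⟨hji, Finset.mem_univ j⟩)).symm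
    have h7 : (k + 1) * (d i + 2) ≤ ∑ j ∈ (Finset.univ.erase i).erase j, d j := by
      have h3 : ((Finset.univ.erase i).erase j).card = k + 1 := by
        rw [Finset.card_erase_of_mem (Finset.mem_erase.2 ⟨hji, Finset.mem_univ j⟩),
          Finset.card_erase_of_mem (Finset.mem_univ i), Finset.card_univ, Fintype.card_fin]
        omega
      calc (k + 1) * (d i + 2) = ∑ _j ∈ (Finset.univ.erase i).erase j, (d i + 2) := by
            rw [Finset.sum_const, h3, smul_eq_mul]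
        _ ≤ _ := Finset.sum_le_sum fun j' hj' =>
            hgap j' (Finset.ne_of_mem_erase (Finset.mem_of_mem_erase hj'))
    have h8 : (k + 1) * (d i + 2) = k * (d i + 2) + (d i + 2) := by ring
    omega

/-- the numerical part for `m = 2` -/
theorem gap_num2 (d : Fin 2 → ℕ) (i j : Fin 2) (hij : d i + 2 ≤ d j) :
    (∀ k, k ≠ i → d i + 2 ≤ d k) ∧ (∀ k, d k ≤ d j) ∧ ∑ k, d k = d i + d j := by
  rw [Fin.sum_univ_two]
  fin_cases i <;> fin_cases j <;> simp [Fin.forall_fin_two] at hij ⊢ <;> omega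

end Geproci
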