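import Pool.Agent.Work.MP_efd9e3_ag.Gp.BiCay

/-! MODULE VHom (MP_efd9e3_ag/Gp), helper69.  The factors of a bihomogeneous polynomial are bihomogeneous. -/

set_option autoImplicit false

open MvPolynomial

namespace Geproci

variable {K : Type*} [Field K] {N : ℕ}

/-- the weighted curve through `v` -/
noncomputable def wcur {σ : Type*} (w : σ → ℕ) (v : σ → K) : MvPolynomial σ K →ₐ[K] Polynomial K :=
  aeval fun i => Polynomial.C (v i) * Polynomial.X ^ w i

theorem wcur_monomial {σ : Type*} (w : σ → ℕ) (v : σ → K) (d : σ →₀ ℕ) (c : K) :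
    wcur w v (monomial d c) = Polynomial.C (eval v (monomial d c)) * Polynomial.X ^ (Finsupp.weight w d) := by
  rw [wcur, aeval_monomial, eval_monomial, Finsupp.prod, Finsupp.prod, Finsupp.weight_apply, Finsupp.sum,
    ← Finset.prod_pow_eq_pow_sum, map_mul, map_prod, mul_assoc, ← Finset.prod_mul_distrib]
  congr 1
  refine Finset.prod_congr rfl fun i _ => ?_
  rw [mul_pow, ← pow_mul, map_pow, smul_eq_mul, mul_comm (d i)]

theorem coeff_wcur {σ : Type*} (w : σ → ℕ) (v : σ → K) (a : MvPolynomial σ K) (i : ℕ) :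
    (wcur w v a).coeff i = eval v (weightedHomogeneousComponent w i a) := by
  classical
  conv_lhs => rw [a.as_sum, map_sum, Polynomial.finsetSum_coeff]
  rw [weightedHomogeneousComponent_apply, map_sum, Finset.sum_filter]
  refine Finset.sum_congr rfl fun d _ => ?_
  rw [wcur_monomial, Polynomial.coeff_C_mul, Polynomial.coeff_X_pow]
  by_cases h : Finsupp.weight w d = i
  · rw [if_pos h, if_pos h.symm, mul_one]
  · rw [if_neg h, if_neg (Ne.symm h), mul_zero]

theorem wcur_hom {σ : Type*} (w : σ → ℕ) (v : σ → K) (a : MvPolynomial σ K) (n : ℕ)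
    (h : a.IsWeightedHomogeneous w n) : wcur w v a = Polynomial.C (eval v a) * Polynomial.X ^ n := by
  classical
  conv_lhs => rw [a.as_sum, map_sum]
  conv_rhs => rw [a.as_sum, map_sum, map_sum, Finset.sum_mul]
  refine Finset.sum_congr rfl fun d hd => ?_
  rw [wcur_monomial, h (mem_support_iff.1 hd)]

theorem wh_mul {σ : Type*} [Infinite K] (w : σ → ℕ) (a b : MvPolynomial σ K) (n : ℕ)
    (h : (a * b).IsWeightedHomogeneous w n) (ha : a ≠ 0) (hb : b ≠ 0) :
    ∃ i, a.IsWeightedHomogeneous w i := by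
  classical
  obtain ⟨d, hd⟩ := MvPolynomial.ne_zero_iff.1 ha
  set i := Finsupp.weight w d with hi
  have hci : weightedHomogeneousComponent w i a ≠ 0 := by
    intro h0
    have h1 := congrArg (coeff d) h0
    rw [coeff_weightedHomogeneousComponent, if_pos rfl, coeff_zero] at h1
    exact hd h1
  refine ⟨i, fun e he => ?_⟩
  by_contra hne
  set j := Finsupp.weight w e with hj
  have hcj : weightedHomogeneousComponent w j a ≠ 0 := by
    intro h0
    have h1 := congrArg (coeff e) h0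
    rw [coeff_weightedHomogeneousComponent, if_pos rfl, coeff_zero] at h1
    exact he h1
  have h1 : weightedHomogeneousComponent w i a * weightedHomogeneousComponent w j a * (a * b) ≠ 0 :=
    mul_ne_zero (mul_ne_zero hci hcj) (mul_ne_zero ha hb)
  obtain ⟨v, hv⟩ : ∃ v, eval v (weightedHomogeneousComponent w i a *
      weightedHomogeneousComponent w j a * (a * b)) ≠ 0 := by
    by_contra hcon
    push Not at hcon
    exact h1 (MvPolynomial.funext fun x => by rw [hcon x, map_zero])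
  rw [map_mul, map_mul] at hv
  have hvi := left_ne_zero_of_mul (left_ne_zero_of_mul hv)
  have hvj := right_ne_zero_of_mul (left_ne_zero_of_mul hv)
  have hvab := right_ne_zero_of_mul hv
  have h2 := wcur_hom w v (a * b) n h
  rw [map_mul] at h2
  have h3 : wcur w v a ∣ Polynomial.X ^ n := by
    refine ⟨wcur w v b * Polynomial.C (eval v (a * b))⁻¹, ?_⟩
    rw [← mul_assoc, h2]
    have h4 : Polynomial.C (eval v (a * b)) * Polynomial.C (eval v (a * b))⁻¹ = (1 : Polynomial K) := by
      rw [← map_mul, mul_inv_cancel₀ hvab, map_one]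
    linear_combination -(Polynomial.X ^ n : Polynomial K) * h4
  obtain ⟨k, -, u, hu⟩ := (dvd_prime_pow Polynomial.prime_X n).1 h3
  obtain ⟨c, hc, hcu⟩ := Polynomial.isUnit_iff.1 u.isUnit
  have h5 : ∀ m, m ≠ k → (wcur w v a).coeff m = 0 := by
    intro m hmk
    have h6 := congrArg (fun q => Polynomial.coeff q m) hu
    simp only [← hcu, Polynomial.coeff_mul_C, Polynomial.coeff_X_pow, if_neg hmk] at h6
    exact (mul_eq_zero.1 h6).resolve_right hc.ne_zero
  simp only [coeff_wcur] at h5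
  have h6 : i = k := by
    by_contra hik
    exact hvi (h5 i hik)
  have h7 : j = k := by
    by_contra hjk
    exact hvj (h5 j hjk)
  exact hne (h7.trans h6.symm)

theorem wh_uniq {σ : Type*} (w : σ → ℕ) (a : MvPolynomial σ K) (i j : ℕ) (ha : a ≠ 0)
    (hi : a.IsWeightedHomogeneous w i) (hj : a.IsWeightedHomogeneous w j) : i = j := by
  obtain ⟨d, hd⟩ := MvPolynomial.ne_zero_iff.1 ha
  rw [← hi hd, ← hj hd]

/-- both factors of a bihomogeneous polynomial are bihomogeneous -/
theorem bi_mul [Infinite K] {α β : ℕ} (a b : MvPolynomial (Fin N ⊕ Fin N) K) (h : BiH α β (a * b))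
    (ha : a ≠ 0) (hb : b ≠ 0) :
    ∃ α₁ β₁ α₂ β₂, BiH α₁ β₁ a ∧ BiH α₂ β₂ b ∧ α₁ + α₂ = α ∧ β₁ + β₂ = β := by
  obtain ⟨α₁, h1⟩ := wh_mul _ a b α h.1 ha hb
  obtain ⟨β₁, h2⟩ := wh_mul _ a b β h.2 ha hb
  obtain ⟨α₂, h3⟩ := wh_mul _ b a α (by rw [mul_comm]; exact h.1) hb ha
  obtain ⟨β₂, h4⟩ := wh_mul _ b a β (by rw [mul_comm]; exact h.2) hb ha
  exact ⟨α₁, β₁, α₂, β₂, ⟨h1, h2⟩, ⟨h3, h4⟩,
    wh_uniq _ _ _ _ (mul_ne_zero ha hb) (h1.mul h3) h.1,
    wh_uniq _ _ _ _ (mul_ne_zero ha hb) (h2.mul h4) h.2⟩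

end Geproci
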