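import Pool.Agent.Work.MP_efd9e3_ag.Gp.VHom
import Pool.Agent.Work.MP_efd9e3_ag.Gp.KTwo

/-! MODULE VSwap (MP_efd9e3_ag/Gp), helper69.  Exchange of the two sets of variables. -/

set_option autoImplicit false

open MvPolynomial

namespace Geproci

variable {K : Type*} [Field K] {N α β : ℕ}

/-- exchange of the two sets of variables -/
noncomputable def sw (A : MvPolynomial (Fin N ⊕ Fin N) K) : MvPolynomial (Fin N ⊕ Fin N) K :=
  rename Sum.swap A

theorem bev_sw (x y : Fin N → K) (A : MvPolynomial (Fin N ⊕ Fin N) K) : bev x y (sw A) = bev y x A := by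
  unfold bev sw
  rw [eval_rename]
  refine congrArg (fun f => eval f A) (funext fun i => ?_)
  rcases i with i | i <;> rfl

theorem sw_sw (A : MvPolynomial (Fin N ⊕ Fin N) K) : sw (sw A) = A := by
  unfold sw
  rw [rename_rename, Sum.swap_swap_eq, rename_id_apply]

theorem sw_pderiv (A : MvPolynomial (Fin N ⊕ Fin N) K) (i : Fin N ⊕ Fin N) :
    pderiv (Sum.swap i) (sw A) = sw (pderiv i A) := by
  unfold sw
  exact pderiv_rename (f := (Sum.swap : Fin N ⊕ Fin N → Fin N ⊕ Fin N)) (Sum.swap_leftInverse.injective) i A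

theorem sw_hom [Infinite K] {A : MvPolynomial (Fin N ⊕ Fin N) K} (h : BiH α β A) : BiH β α (sw A) := by
  apply biH_of_scaling
  intro a b _ _ x y
  rw [bev_sw, bev_sw, h.bev, mul_comm (b ^ α)]

/-- the operator whose kernel are the polynomials invariant under `x ↦ x + τ p` -/
noncomputable def Epr (A : MvPolynomial (Fin N ⊕ Fin N) K) : MvPolynomial (Fin N ⊕ Fin N) K :=
  ∑ k, X (Sum.inl k) * pderiv (Sum.inr k) A

theorem Epr_sw (A : MvPolynomial (Fin N ⊕ Fin N) K) : Epr (sw A) = sw (Eop A) := by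
  unfold Epr Eop
  have h1 : sw (∑ k, X (Sum.inr k) * pderiv (Sum.inl k) A) =
      ∑ k, X (Sum.inl k) * sw (pderiv (Sum.inl k) A) := by
    unfold sw
    rw [map_sum]
    refine Finset.sum_congr rfl fun k _ => ?_
    rw [map_mul, rename_X]
    rfl
  rw [h1]
  refine Finset.sum_congr rfl fun k _ => ?_
  rw [← sw_pderiv]
  rfl

theorem Eop_sw (A : MvPolynomial (Fin N ⊕ Fin N) K) : Eop (sw A) = sw (Epr A) := by
  have h1 := Epr_sw (sw A)
  rw [sw_sw] at h1
  rw [h1, sw_sw]

theorem sw_zero : sw (0 : MvPolynomial (Fin N ⊕ Fin N) K) = 0 := by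
  unfold sw
  rw [map_zero]

theorem epr_of [Infinite K] {A : MvPolynomial (Fin N ⊕ Fin N) K}
    (h : ∀ (t : K) (p x : Fin N → K), bev p (fun k => x k + t * p k) A = bev p x A) : Epr A = 0 := by
  have h1 : BInv (sw A) := bInv_of fun t x y => by
    rw [bev_sw, bev_sw]
    exact h t y x
  have h2 : Eop (sw A) = 0 := h1
  rw [Eop_sw] at h2
  rw [← sw_sw (Epr A), h2, sw_zero]

/-- an `x`-invariant form has at least as large a degree in the centre -/
theorem bi_ge [CharZero K] (A : MvPolynomial (Fin N ⊕ Fin N) K) (h : BiH α β A) (hi : Epr A = 0)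
    (hA : A ≠ 0) : β ≤ α := by
  have hinf : Infinite K := inferInstance
  refine bi_le (sw A) (sw_hom h) ?_ (fun h0 => hA ?_)
  · change Eop (sw A) = 0
    rw [Eop_sw, hi, sw_zero]
  · rw [← sw_sw A, h0, sw_zero]

theorem BiH.inr_zero {A : MvPolynomial (Fin N ⊕ Fin N) K} (h : BiH α 0 A) (k : Fin N) :
    pderiv (Sum.inr k) A = 0 := by
  classical
  apply pderiv_eq_zero_of_notMem_vars
  intro hk
  rw [mem_vars_iff_mem_support] at hk
  obtain ⟨d, hd, hkd⟩ := hk
  have h1 := h.2 (mem_support_iff.1 hd)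
  rw [Finsupp.weight_apply, Finsupp.sum, Finset.sum_eq_zero_iff] at h1
  have h2 := h1 (Sum.inr k) hkd
  rw [Finsupp.mem_support_iff] at hkd
  simp only [Sum.elim_inr, smul_eq_mul, mul_one] at h2
  exact hkd h2

theorem BiH.inl_zero {A : MvPolynomial (Fin N ⊕ Fin N) K} (h : BiH 0 β A) (k : Fin N) :
    pderiv (Sum.inl k) A = 0 := by
  classical
  apply pderiv_eq_zero_of_notMem_vars
  intro hk
  rw [mem_vars_iff_mem_support] at hk
  obtain ⟨d, hd, hkd⟩ := hk
  have h1 := h.1 (mem_support_iff.1 hd)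
  rw [Finsupp.weight_apply, Finsupp.sum, Finset.sum_eq_zero_iff] at h1
  have h2 := h1 (Sum.inl k) hkd
  rw [Finsupp.mem_support_iff] at hkd
  simp only [Sum.elim_inl, smul_eq_mul, mul_one] at h2
  exact hkd h2

/-- the commutator of the two operators -/
theorem epr_eop {A : MvPolynomial (Fin N ⊕ Fin N) K} (h : BiH α β A) (hi : Epr A = 0) :
    Epr (Eop A) = (α : MvPolynomial (Fin N ⊕ Fin N) K) * A - (β : MvPolynomial (Fin N ⊕ Fin N) K) * A := by
  classical
  have h1 : Epr (Eop A) = ∑ j, X (Sum.inl j) * pderiv (Sum.inl j) A +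
      ∑ j, ∑ k, X (Sum.inl j) * (X (Sum.inr k) * pderiv (Sum.inr j) (pderiv (Sum.inl k) A)) := by
    unfold Epr Eop
    rw [← Finset.sum_add_distrib]
    refine Finset.sum_congr rfl fun j _ => ?_
    rw [map_sum, Finset.mul_sum]
    have e1 : ∀ k, X (Sum.inl j) * pderiv (Sum.inr j) (X (Sum.inr k) * pderiv (Sum.inl k) A) =
        (if k = j then X (Sum.inl j) * pderiv (Sum.inl k) A else 0) +
          X (Sum.inl j) * (X (Sum.inr k) * pderiv (Sum.inr j) (pderiv (Sum.inl k) A)) := by
      intro k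
      rw [Derivation.leibniz, smul_eq_mul, smul_eq_mul]
      split_ifs with hk
      · subst hk
        rw [pderiv_X_self]
        ring
      · rw [pderiv_X_of_ne (fun h => hk (Sum.inr_injective h))]
        ring
    rw [Finset.sum_congr rfl fun k _ => e1 k, Finset.sum_add_distrib, Finset.sum_ite_eq',
      if_pos (Finset.mem_univ _)]
  have h2 : Eop (Epr A) = ∑ k, X (Sum.inr k) * pderiv (Sum.inr k) A +
      ∑ k, ∑ j, X (Sum.inr k) * (X (Sum.inl j) * pderiv (Sum.inl k) (pderiv (Sum.inr j) A)) := by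
    unfold Epr Eop
    rw [← Finset.sum_add_distrib]
    refine Finset.sum_congr rfl fun k _ => ?_
    rw [map_sum, Finset.mul_sum]
    have e1 : ∀ j, X (Sum.inr k) * pderiv (Sum.inl k) (X (Sum.inl j) * pderiv (Sum.inr j) A) =
        (if j = k then X (Sum.inr k) * pderiv (Sum.inr j) A else 0) +
          X (Sum.inr k) * (X (Sum.inl j) * pderiv (Sum.inl k) (pderiv (Sum.inr j) A)) := by
      intro j
      rw [Derivation.leibniz, smul_eq_mul, smul_eq_mul]
      split_ifs with hk
      · subst hk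
        rw [pderiv_X_self]
        ring
      · rw [pderiv_X_of_ne (fun h => hk (Sum.inl_injective h))]
        ring
    rw [Finset.sum_congr rfl fun j _ => e1 j, Finset.sum_add_distrib, Finset.sum_ite_eq',
      if_pos (Finset.mem_univ _)]
  have h3 : ∑ j, ∑ k, X (Sum.inl j) * (X (Sum.inr k) * pderiv (Sum.inr j) (pderiv (Sum.inl k) A)) =
      ∑ k, ∑ j, X (Sum.inr k) * (X (Sum.inl j) * pderiv (Sum.inl k) (pderiv (Sum.inr j) A)) := by
    rw [Finset.sum_comm]
    refine Finset.sum_congr rfl fun k _ => Finset.sum_congr rfl fun j _ => ?_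
    rw [pd_comm (Sum.inr j) (Sum.inl k) A]
    ring
  have h4 : Eop (Epr A) = 0 := by
    rw [hi]
    unfold Eop
    simp
  rw [h2, euler_y h] at h4
  rw [h1, euler_x h, h3]
  linear_combination h4

theorem pderiv_yp (p : Fin N → K) (A : MvPolynomial (Fin N ⊕ Fin N) K) (i : Fin N) :
    pderiv i (yp p A) = yp p (pderiv (Sum.inr i) A) := by
  classical
  unfold yp
  induction A using MvPolynomial.induction_on with
  | C a => simp
  | add a b ha hb => rw [map_add, map_add, ha, hb, map_add, map_add]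
  | mul_X a k ha =>
    rw [map_mul, Derivation.leibniz, ha, Derivation.leibniz, map_add, smul_eq_mul, smul_eq_mul,
      smul_eq_mul, smul_eq_mul, map_mul, map_mul, aeval_X]
    congr 2
    rcases k with k | k
    · simp [pderiv_X]
    · simp only [Sum.elim_inr, pderiv_X]
      by_cases hik : i = k
      · subst hik
        simp
      · simp [Ne.symm hik]

theorem dirP_yp (p : Fin N → K) (A : MvPolynomial (Fin N ⊕ Fin N) K) :
    dirP p (yp p A) = yp p (Epr A) := by
  unfold dirP Epr
  rw [map_sum]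
  refine Finset.sum_congr rfl fun k _ => ?_
  rw [pderiv_yp, map_mul]
  congr 1
  simp [yp]

theorem eop_van {A : MvPolynomial (Fin N ⊕ Fin N) K} (z : Fin N → K) (hz : xp z A = 0) :
    xp z (Eop A) = 0 := by
  unfold Eop
  rw [map_sum]
  refine Finset.sum_eq_zero fun k _ => ?_
  rw [map_mul, ← pderiv_xp, hz, map_zero, mul_zero]

theorem eop_hom {A : MvPolynomial (Fin N ⊕ Fin N) K} (h : BiH (α+1) β A) : BiH α (β+1) (Eop A) := by
  have h1 : ∀ k : Fin N, BiH α (β+1) (X (Sum.inr k) * pderiv (Sum.inl k) A) := by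
    intro k
    have e1 : BiH 0 1 (X (Sum.inr k) : MvPolynomial (Fin N ⊕ Fin N) K) := by
      constructor
      · exact isWeightedHomogeneous_X K _ _
      · exact isWeightedHomogeneous_X K _ _
    have e2 := h.pd_inl k
    refine ⟨?_, ?_⟩
    · have := e1.1.mul e2.1
      rwa [zero_add] at this
    · have := e1.2.mul e2.2
      rwa [add_comm] at this
  refine ⟨?_, ?_⟩
  · exact IsWeightedHomogeneous.sum _ _ _ fun k _ => (h1 k).1
  · exact IsWeightedHomogeneous.sum _ _ _ fun k _ => (h1 k).2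

end Geproci
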